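import Mathlib

set_option autoImplicit false

/-! The arithmetic of the lower bound of the fourth moment. -/

namespace Pool.Agent.MP_a3e05c_co

lemma arith2 {N b ey eg2 ey2 eyS q eR2 eR4 u : ℝ} (hN : 1 ≤ N) (hb : 1 ≤ b) (hq0 : 0 ≤ q)
    (hq : q ≤ 38 * b) (heg : eg2 ≤ ey) (heg0 : 0 ≤ eg2)
    (h1 : (2 - 4 * ey) ^ 2 ≤ eg2 * eR2) (h2 : eR2 ≤ N + 308 * b)
    (h3 : 8 - 64 * eg2 + (N * eg2 - 7 * eyS) ≤ u)
    (h4 : eR4 ≤ 3 * N * (N + 308 * b) + 7434 * N * b)
    (h5 : u ^ 2 ≤ ey2 * eR4) (h6 : ey ^ 2 ≤ ey2) (h7 : eyS ^ 2 ≤ ey2 * q ^ 2)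
    (hey2 : 0 ≤ ey2) :
    48 / N ^ 2 * (1 - 3400 * b / N) ≤ ey2 := by
  have hN0 : 0 < N := by linarith
  have hc0 : 0 < 48 / N ^ 2 := by positivity
  by_cases hK : N ≤ 3400 * b
  · have : 1 ≤ 3400 * b / N := by rwa [le_div_iff₀ hN0, one_mul]
    have h8 : 48 / N ^ 2 * (1 - 3400 * b / N) ≤ 0 :=
      mul_nonpos_of_nonneg_of_nonpos hc0.le (by linarith)
    linarith
  push Not at hK
  by_cases hbig : 48 / N ^ 2 ≤ ey2
  · refine le_trans ?_ hbig
    have : 0 ≤ 3400 * b / N := by positivity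
    nlinarith
  push Not at hbig
  set x := 1 / N with hx
  have hx0 : 0 < x := by positivity
  have hNx : N * x = 1 := by rw [hx]; field_simp
  have e1 : 48 / N ^ 2 = 48 * x ^ 2 := by rw [hx]; field_simp
  have e2 : 3400 * b / N = 3400 * (b * x) := by rw [hx]; field_simp
  rw [e1] at hbig
  rw [e1, e2]
  set z := b * x with hz
  have hxz : x ≤ z := by nlinarith
  have hz0 : 0 < z := lt_of_lt_of_le hx0 hxz
  have hz1 : 3400 * z < 1 := by
    have := mul_lt_mul_of_pos_right hK hx0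
    rw [hNx] at this
    linarith
  have hqx : q * x ≤ 38 * z := by
    have := mul_le_mul_of_nonneg_right hq hx0.le
    linarith
  have hey : ey ≤ 7 * x := by
    apply le_of_sq_le_sq _ (by positivity)
    nlinarith
  have heyS : eyS ≤ 266 * z := by
    have h8 : eyS ≤ 7 * (q * x) := by
      apply le_of_sq_le_sq _ (by positivity)
      have : ey2 * q ^ 2 ≤ 48 * x ^ 2 * q ^ 2 := mul_le_mul_of_nonneg_right hbig.le (sq_nonneg q)
      nlinarith [sq_nonneg (q * x)]
    linarith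
  -- lower bound for `N * eg2`
  have h8 : (2 - 28 * x) ^ 2 ≤ (2 - 4 * ey) ^ 2 := by
    apply pow_le_pow_left₀ (by linarith)
    linarith
  have h9 : 4 - 112 * x ≤ eg2 * (N + 308 * b) := by
    have : eg2 * eR2 ≤ eg2 * (N + 308 * b) := mul_le_mul_of_nonneg_left h2 heg0
    nlinarith [sq_nonneg x]
  have h10 : 4 - 112 * x - 1232 * z ≤ N * eg2 := by
    by_contra hneg
    push Not at hneg
    have h11 : eg2 * (N + 308 * b) = (N * eg2) * (1 + 308 * z) := by
      have : N * eg2 * (308 * z) = 308 * b * eg2 * (N * x) := by rw [hz]; ring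
      rw [mul_add, mul_add, this, hNx]
      ring
    rw [h11] at h9
    have h12 : (N * eg2) * (1 + 308 * z) <
        (4 - 112 * x - 1232 * z) * (1 + 308 * z) :=
      mul_lt_mul_of_pos_right hneg (by linarith)
    nlinarith [mul_nonneg hz0.le hx0.le, mul_nonneg hz0.le hz0.le]
  have h11 : 12 - 3654 * z ≤ u := by linarith
  have h12 : 0 < 12 - 3654 * z := by linarith
  have h13 : 144 - 87696 * z ≤ u ^ 2 := by
    have : (12 - 3654 * z) ^ 2 ≤ u ^ 2 := pow_le_pow_left₀ h12.le h11 2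
    nlinarith [sq_nonneg z]
  have h14 : 0 < u ^ 2 := by
    have : 0 < u := by linarith
    positivity
  by_contra hneg
  push Not at hneg
  have heR4 : 0 < eR4 := by
    by_contra hn
    push Not at hn
    have := mul_nonpos_of_nonneg_of_nonpos hey2 hn
    linarith
  have h15 : ey2 * eR4 < 48 * x ^ 2 * (1 - 3400 * z) * eR4 :=
    mul_lt_mul_of_pos_right hneg heR4
  have h16 : 48 * x ^ 2 * (1 - 3400 * z) * eR4 ≤
      48 * x ^ 2 * (1 - 3400 * z) * (3 * N * (N + 308 * b) + 7434 * N * b) := by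
    apply mul_le_mul_of_nonneg_left h4
    apply mul_nonneg (by positivity)
    linarith
  have h17 : 48 * x ^ 2 * (1 - 3400 * z) * (3 * N * (N + 308 * b) + 7434 * N * b) =
      144 * ((1 - 3400 * z) * (1 + 2786 * z)) := by
    have a1 : x ^ 2 * (3 * N * (N + 308 * b) + 7434 * N * b) =
        3 * ((N * x) ^ 2 + 2786 * z * (N * x)) := by rw [hz]; ring
    rw [hNx] at a1
    calc _ = 48 * (1 - 3400 * z) * (x ^ 2 * (3 * N * (N + 308 * b) + 7434 * N * b)) := by ring
      _ = _ := by rw [a1]; ring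
  have h18 : (1 - 3400 * z) * (1 + 2786 * z) ≤ 1 - 3400 * z + 2786 * z := by
    have : 0 ≤ z * z := mul_nonneg hz0.le hz0.le
    linarith
  linarith

end Pool.Agent.MP_a3e05c_co
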