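import Pool.Agent.Lib.MP_a3e05c_co.Bound

set_option autoImplicit false

/-! The circle, trigonometric functions on it, and integration over products of circles. -/

namespace Pool.Agent.MP_a3e05c_co

open MeasureTheory Finset
open scoped Real

/-- The circle `ℝ / ℤ`. -/
abbrev TT := UnitAddCircle

instance instProbTT : IsProbabilityMeasure (volume : Measure TT) := ⟨UnitAddCircle.measure_univ⟩

instance instProbPi {V : Type*} [Fintype V] : IsProbabilityMeasure (volume : Measure (V → TT)) := by
  rw [volume_pi]
  infer_instance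

/-- The cosine on the circle. -/
noncomputable def cT (t : TT) : ℝ := (AddCircle.toCircle t : ℂ).re

/-- The sine on the circle. -/
noncomputable def sT (t : TT) : ℝ := (AddCircle.toCircle t : ℂ).im

/-- The square of the sine on the circle. -/
noncomputable def yT (t : TT) : ℝ := sT t ^ 2

lemma toCircle_eq (x : ℝ) : (AddCircle.toCircle (x : TT) : ℂ) = Complex.exp ((2 * π * x : ℝ) * Complex.I) := by
  rw [AddCircle.toCircle_apply_mk, Circle.coe_exp]
  norm_num

lemma cT_coe (x : ℝ) : cT (x : TT) = Real.cos (2 * π * x) := by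
  unfold cT
  rw [toCircle_eq, Complex.exp_ofReal_mul_I_re]

lemma sT_coe (x : ℝ) : sT (x : TT) = Real.sin (2 * π * x) := by
  unfold sT
  rw [toCircle_eq, Complex.exp_ofReal_mul_I_im]

lemma cT_sq_add (t : TT) : cT t ^ 2 + sT t ^ 2 = 1 := by
  induction t using QuotientAddGroup.induction_on with
  | H x =>
    have h1 : cT ((x : ℝ) : TT) = _ := cT_coe x
    have h2 : sT ((x : ℝ) : TT) = _ := sT_coe x
    rw [h1, h2, add_comm]
    exact Real.sin_sq_add_cos_sq _

lemma cT_add (a b : TT) : cT (a + b) = cT a * cT b - sT a * sT b := by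
  unfold cT sT
  rw [AddCircle.toCircle_add, Circle.coe_mul, Complex.mul_re]

lemma sT_add (a b : TT) : sT (a + b) = sT a * cT b + cT a * sT b := by
  unfold cT sT
  rw [AddCircle.toCircle_add, Circle.coe_mul, Complex.mul_im]
  ring

lemma cT_neg (a : TT) : cT (-a) = cT a := by
  unfold cT
  rw [AddCircle.toCircle_neg, Circle.coe_inv_eq_conj, Complex.conj_re]

lemma sT_neg (a : TT) : sT (-a) = - sT a := by
  unfold sT
  rw [AddCircle.toCircle_neg, Circle.coe_inv_eq_conj, Complex.conj_im]

lemma continuous_cT : Continuous cT :=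
  Complex.continuous_re.comp (continuous_subtype_val.comp AddCircle.continuous_toCircle)

lemma continuous_sT : Continuous sT :=
  Complex.continuous_im.comp (continuous_subtype_val.comp AddCircle.continuous_toCircle)

lemma continuous_yT : Continuous yT := continuous_sT.pow 2

lemma yT_nonneg (t : TT) : 0 ≤ yT t := sq_nonneg _

lemma yT_le_one (t : TT) : yT t ≤ 1 := by
  unfold yT
  nlinarith [cT_sq_add t, sq_nonneg (cT t)]

lemma yT_neg (t : TT) : yT (-t) = yT t := by
  unfold yT
  rw [sT_neg]
  ring

lemma yT_sub_comm (a b : TT) : yT (a - b) = yT (b - a) := by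
  rw [← yT_neg, neg_sub]

lemma yT_zero : yT 0 = 0 := by
  have h := sT_coe 0
  unfold yT
  rw [show ((0 : TT)) = ((0 : ℝ) : TT) by rfl, h]
  simp

lemma cT_sq (t : TT) : cT t ^ 2 = 1 - yT t := by
  unfold yT
  linarith [cT_sq_add t]

/-- Triangle inequality for the energy. -/
lemma yT_add_le (a b : TT) : yT (a + b) ≤ 2 * (yT a + yT b) := by
  unfold yT
  rw [sT_add]
  have ha := cT_sq_add a
  have hb := cT_sq_add b
  have h1 : (sT a * cT b) ^ 2 ≤ sT a ^ 2 := by
    rw [mul_pow]
    nlinarith [sq_nonneg (sT a), sq_nonneg (sT b)]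
  have h2 : (cT a * sT b) ^ 2 ≤ sT b ^ 2 := by
    rw [mul_pow]
    nlinarith [sq_nonneg (sT a), sq_nonneg (sT b)]
  nlinarith [sq_nonneg (sT a * cT b - cT a * sT b)]

lemma yT_tri (a b c : TT) : yT (a - c) ≤ 2 * (yT (b - a) + yT (b - c)) := by
  have h := yT_add_le (a - b) (b - c)
  rw [sub_add_sub_cancel, yT_sub_comm a b] at h
  exact h

section Integration

variable {V : Type*} [Fintype V]

lemma integrable_cont {Z : Type*} [TopologicalSpace Z] [CompactSpace Z] [MeasurableSpace Z]
    [BorelSpace Z] {μ : Measure Z} [IsFiniteMeasure μ] {F : Z → ℝ} (hF : Continuous F) :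
    Integrable F μ :=
  hF.integrable_of_hasCompactSupport (HasCompactSupport.of_compactSpace F)

lemma integral_line {F : (V → TT) → ℝ} (hF : Continuous F) {ι : TT → (V → TT)}
    (hι : Continuous ι) : ∫ x, F x = ∫ x, ∫ t, F (x + ι t) := by
  have hc : Continuous (Function.uncurry fun (x : V → TT) (t : TT) => F (x + ι t)) := by
    exact hF.comp (continuous_fst.add (hι.comp continuous_snd))
  rw [integral_integral_swap (integrable_cont hc)]
  have h1 : ∀ t : TT, ∫ x, F (x + ι t) = ∫ x, F x := fun t => integral_add_right_eq_self F (ι t)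
  simp_rw [h1]
  rw [integral_const]
  simp

lemma integral_line_mono {F G : (V → TT) → ℝ} (hF : Continuous F) (hG : Continuous G)
    {ι : TT → (V → TT)} (hι : Continuous ι)
    (h : ∀ x, ∫ t, F (x + ι t) ≤ ∫ t, G (x + ι t)) : ∫ x, F x ≤ ∫ x, G x := by
  rw [integral_line hF hι, integral_line hG hι]
  have hc : ∀ {F : (V → TT) → ℝ}, Continuous F →
      Integrable (fun x : V → TT => ∫ t, F (x + ι t)) := by
    intro F hF
    have hc : Continuous (Function.uncurry fun (x : V → TT) (t : TT) => F (x + ι t)) :=
      hF.comp (continuous_fst.add (hι.comp continuous_snd))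
    exact (integrable_cont (μ := (volume : Measure (V → TT)).prod (volume : Measure TT))
      hc).integral_prod_left
  exact integral_mono (hc hF) (hc hG) h

/-- Integrals over the circle as interval integrals. -/
lemma integral_TT (f : TT → ℝ) : ∫ t, f t = ∫ a in (0:ℝ)..1, f (a : TT) := by
  have h := UnitAddCircle.intervalIntegral_preimage 0 f
  rw [zero_add] at h
  exact h.symm

end Integration

end Pool.Agent.MP_a3e05c_co
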