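import Pool.Agent.Lib.MP_a3e05c_co.Sharp.Upper

set_option autoImplicit false
set_option linter.unusedSectionVars false

/-! Integration by parts identities on the clique for the majorant kernel. -/

namespace Pool.Agent.MP_a3e05c_co

open Real MeasureTheory Finset

/-- `sin cos` on the circle. -/
noncomputable def gT (t : TT) : ℝ := sT t * cT t

/-- The derivative of the potential of the majorant kernel on the circle. -/
noncomputable def U1T (t : TT) : ℝ := h1 0 (yT t) * (2 * gT t)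

lemma continuous_gT : Continuous gT := continuous_sT.mul continuous_cT

lemma continuous_h1y (s : ℝ) : Continuous (fun t => h1 s (yT t)) := by
  unfold h1
  have h := continuous_yT
  have h2 : ∀ t : TT, 2 - yT t ≠ 0 := fun t => by have := yT_le_one t; linarith
  fun_prop (disch := exact h2)

lemma continuous_U1T : Continuous U1T := by
  unfold U1T
  have h := continuous_h1y 0
  have h2 := continuous_gT
  fun_prop

lemma gT_neg (t : TT) : gT (-t) = -gT t := by
  unfold gT
  rw [sT_neg, cT_neg]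
  ring

lemma U1T_neg (t : TT) : U1T (-t) = -U1T t := by
  unfold U1T
  rw [yT_neg, gT_neg]
  ring

lemma gT_sq (t : TT) : gT t ^ 2 = yT t - yT t ^ 2 := by
  unfold gT
  rw [mul_pow, cT_sq]
  unfold yT
  ring

lemma gT_coe (r : ℝ) : gT (r : TT) = sin (2 * π * r) * cos (2 * π * r) := by
  unfold gT
  rw [sT_coe, cT_coe]

lemma U1T_coe (r : ℝ) : U1T (r : TT) = U1 0 (2 * π * r) := by
  unfold U1T U1
  rw [yT_coe, gT_coe]

lemma U1T_eq (t : TT) : U1T t = gT t * (1 + yT t / (2 - yT t)) := by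
  unfold U1T h1
  have h : 2 - yT t ≠ 0 := by have := yT_le_one t; linarith
  field_simp
  ring

lemma sT_sub (a b : TT) : sT (a - b) = sT a * cT b - cT a * sT b := by
  rw [sub_eq_add_neg, sT_add, cT_neg, sT_neg]
  ring

lemma cT_sub (a b : TT) : cT (a - b) = cT a * cT b + sT a * sT b := by
  rw [sub_eq_add_neg, cT_add, cT_neg, sT_neg]
  ring

lemma gT_sub_gT (a b : TT) : gT a - gT b = sT (a - b) * cT (a + b) := by
  rw [sT_sub, cT_add]
  unfold gT
  have h1 := cT_sq_add a
  have h2 := cT_sq_add b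
  linear_combination (-(sT a * cT a)) * h2 + (sT b * cT b) * h1

lemma one_sub_yT (a b : TT) : 1 - yT a - yT b = cT (a + b) * cT (a - b) := by
  rw [cT_sub, cT_add]
  have h1 := cT_sq a
  have h2 := cT_sq b
  have e : (cT a * cT b - sT a * sT b) * (cT a * cT b + sT a * sT b) =
      cT a ^ 2 * cT b ^ 2 - sT a ^ 2 * sT b ^ 2 := by ring
  rw [e, h1, h2]
  unfold yT
  ring

lemma yT_sub_yT (a b : TT) : yT a - yT b = sT (a - b) * sT (a + b) := by
  rw [sT_sub, sT_add]
  have h1 := cT_sq a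
  have h2 := cT_sq b
  have e : (sT a * cT b - cT a * sT b) * (sT a * cT b + cT a * sT b) =
      sT a ^ 2 * cT b ^ 2 - cT a ^ 2 * sT b ^ 2 := by ring
  rw [e, h1, h2]
  unfold yT
  ring

lemma gT_mul_sub (a b : TT) : gT (a - b) * (gT a - gT b) = yT (a - b) * (1 - yT a - yT b) := by
  rw [gT_sub_gT, one_sub_yT]
  unfold gT yT
  ring

lemma abs_cT_le_one (t : TT) : |cT t| ≤ 1 := by
  have := cT_sq_add t
  rw [abs_le]
  constructor <;> nlinarith [sq_nonneg (sT t), sq_nonneg (cT t - 1), sq_nonneg (cT t + 1)]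

lemma abs_sT_add_le (a b : TT) : |sT (a + b)| ≤ |sT a| + |sT b| := by
  rw [sT_add]
  refine (abs_add_le _ _).trans ?_
  rw [abs_mul, abs_mul]
  have h1 := abs_cT_le_one a
  have h2 := abs_cT_le_one b
  have h3 : |sT a| * |cT b| ≤ |sT a| := by
    have := mul_le_mul_of_nonneg_left h2 (abs_nonneg (sT a)); linarith
  have h4 : |cT a| * |sT b| ≤ |sT b| := by
    have := mul_le_mul_of_nonneg_right h1 (abs_nonneg (sT b)); linarith
  linarith

lemma abs_gT_le (t : TT) : |gT t| ≤ |sT t| := by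
  unfold gT
  rw [abs_mul]
  have := mul_le_mul_of_nonneg_left (abs_cT_le_one t) (abs_nonneg (sT t))
  linarith

/-- The pointwise inequality for one vertex. -/
lemma term_bound (a b : TT) :
    |gT (a - b) * (U1T a - U1T b) - yT (a - b)| ≤ 4 * yT (a - b) * (yT a + yT b) := by
  rw [U1T_eq, U1T_eq]
  set y := yT (a - b) with hy
  set p := yT a / (2 - yT a) with hp
  set q := yT b / (2 - yT b) with hq
  have ha0 := yT_nonneg a
  have ha1 := yT_le_one a
  have hb0 := yT_nonneg b
  have hb1 := yT_le_one b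
  have hy0 : 0 ≤ y := yT_nonneg _
  have hp0 : 0 ≤ p := div_nonneg ha0 (by linarith)
  have hp1 : p ≤ yT a := by
    rw [hp, div_le_iff₀ (by linarith)]
    nlinarith
  have hid := gT_mul_sub a b
  rw [← hy] at hid
  have e : gT (a - b) * (gT a * (1 + p) - gT b * (1 + q)) - y =
      -(y * (yT a + yT b)) + (y * (1 - yT a - yT b) * p + gT (a - b) * gT b * (p - q)) := by
    rw [← hid]
    have : gT (a - b) * (gT a * (1 + p) - gT b * (1 + q)) =
        gT (a - b) * (gT a - gT b) + (gT (a - b) * (gT a - gT b) * p +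
          gT (a - b) * gT b * (p - q)) := by ring
    rw [this]
    linarith
  rw [e]
  have h1 : |y * (1 - yT a - yT b) * p| ≤ y * yT a := by
    rw [abs_mul, abs_mul, abs_of_nonneg hy0, abs_of_nonneg hp0]
    have h2 : |1 - yT a - yT b| ≤ 1 := by
      rw [abs_le]; constructor <;> linarith
    have h3 : |1 - yT a - yT b| * p ≤ 1 * yT a := mul_le_mul h2 hp1 hp0 (by norm_num)
    nlinarith
  have h2 : |p - q| ≤ 2 * |yT a - yT b| := by
    have e2 : p - q = 2 * (yT a - yT b) / ((2 - yT a) * (2 - yT b)) := by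
      rw [hp, hq]
      have : 2 - yT a ≠ 0 := by linarith
      have : 2 - yT b ≠ 0 := by linarith
      field_simp
      ring
    have hpos : 1 ≤ (2 - yT a) * (2 - yT b) := by nlinarith
    rw [e2, abs_div, abs_of_pos (by linarith : 0 < (2 - yT a) * (2 - yT b)), abs_mul,
      abs_of_pos (by norm_num : (0:ℝ) < 2)]
    apply div_le_self (by positivity) hpos
  have h3 : |gT (a - b) * gT b * (p - q)| ≤ y * (yT a + 3 * yT b) := by
    rw [abs_mul, abs_mul]
    have a1 := abs_gT_le (a - b)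
    have a2 := abs_gT_le b
    have a3 : |yT a - yT b| ≤ |sT (a - b)| * (|sT a| + |sT b|) := by
      rw [yT_sub_yT, abs_mul]
      exact mul_le_mul_of_nonneg_left (abs_sT_add_le a b) (abs_nonneg _)
    have a4 : |p - q| ≤ 2 * (|sT (a - b)| * (|sT a| + |sT b|)) := h2.trans (by linarith)
    have a5 : |gT (a - b)| * |gT b| ≤ |sT (a - b)| * |sT b| :=
      mul_le_mul a1 a2 (abs_nonneg _) (abs_nonneg _)
    have a6 : |gT (a - b)| * |gT b| * |p - q| ≤
        |sT (a - b)| * |sT b| * (2 * (|sT (a - b)| * (|sT a| + |sT b|))) :=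
      mul_le_mul a5 a4 (abs_nonneg _) (by positivity)
    refine a6.trans ?_
    have e3 : y = |sT (a - b)| ^ 2 := by rw [sq_abs]; rfl
    have e4 : yT a = |sT a| ^ 2 := by rw [sq_abs]; rfl
    have e5 : yT b = |sT b| ^ 2 := by rw [sq_abs]; rfl
    rw [e3, e4, e5]
    have h6 : 2 * (|sT b| * (|sT a| + |sT b|)) ≤ |sT a| ^ 2 + 3 * |sT b| ^ 2 := by
      nlinarith [sq_nonneg (|sT a| - |sT b|)]
    have h7 := mul_le_mul_of_nonneg_left h6 (sq_nonneg |sT (a - b)|)
    linarith
  have h4 : |-(y * (yT a + yT b))| = y * (yT a + yT b) := by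
    rw [abs_neg, abs_of_nonneg (by positivity)]
  refine (abs_add_le _ _).trans ?_
  rw [h4]
  have h5 := abs_add_le (y * (1 - yT a - yT b) * p) (gT (a - b) * gT b * (p - q))
  nlinarith [mul_nonneg hy0 ha0, mul_nonneg hy0 hb0]

section Clique

variable {n : ℕ}

/-- The derivative of the Hamiltonian along `e_u - e_v`. -/
noncomputable def RT (u v : Fin n) (x : Fin n → TT) : ℝ := ∑ w, (U1T (x u - x w) - U1T (x v - x w))

lemma continuous_RT (u v : Fin n) : Continuous (RT u v) := by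
  unfold RT
  refine continuous_finsetSum _ fun w _ => ?_
  have h := continuous_U1T
  exact (h.comp ((continuous_apply u).sub (continuous_apply w))).sub
    (h.comp ((continuous_apply v).sub (continuous_apply w)))

/-- `|g R - n y| ≤ 4 y (Y_u + Y_v)`. -/
lemma gR_bound (u v : Fin n) (x : Fin n → TT) :
    |gT (x u - x v) * RT u v x - n * yT (x u - x v)| ≤
      4 * yT (x u - x v) * (Rn u x + Rn v x) := by
  have h1 : gT (x u - x v) * RT u v x - n * yT (x u - x v) =
      ∑ w, (gT (x u - x v) * (U1T (x u - x w) - U1T (x v - x w)) - yT (x u - x v)) := by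
    unfold RT
    conv_rhs => rw [Finset.sum_sub_distrib, Finset.sum_const, Finset.card_univ, Fintype.card_fin,
      nsmul_eq_mul, ← Finset.mul_sum]
  rw [h1]
  refine (Finset.abs_sum_le_sum_abs _ _).trans ?_
  have h2 : ∀ w ∈ (Finset.univ : Finset (Fin n)),
      |gT (x u - x v) * (U1T (x u - x w) - U1T (x v - x w)) - yT (x u - x v)| ≤
        4 * yT (x u - x v) * (yT (x u - x w) + yT (x v - x w)) := by
    intro w _
    have h := term_bound (x u - x w) (x v - x w)
    rwa [sub_sub_sub_cancel_right] at h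
  refine (Finset.sum_le_sum h2).trans (le_of_eq ?_)
  rw [← Finset.mul_sum, Finset.sum_add_distrib, ← Rn_eq', ← Rn_eq']

/-- `n y_{uv} ≤ 2 (Y_u + Y_v)`. -/
lemma n_yT_le (u v : Fin n) (x : Fin n → TT) :
    n * yT (x u - x v) ≤ 2 * (Rn u x + Rn v x) := by
  have h : ∀ w ∈ (Finset.univ : Finset (Fin n)),
      yT (x u - x v) ≤ 2 * (yT (x u - x w) + yT (x v - x w)) := by
    intro w _
    have := yT_tri (x u) (x w) (x v)
    rwa [yT_sub_comm (x w), yT_sub_comm (x w)] at this
  have h2 := Finset.sum_le_sum h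
  rw [Finset.sum_const, Finset.card_univ, Fintype.card_fin, nsmul_eq_mul, ← Finset.mul_sum,
    Finset.sum_add_distrib, ← Rn_eq', ← Rn_eq'] at h2
  exact h2

end Clique

section Line0

variable {ι : Type*} [Fintype ι] (θ : ℝ) (c : ι → ℝ)

noncomputable def H0 (s : ℝ) : ℝ := UW 0 (θ + 2 * s) + ∑ i, UW 0 (c i + s)

noncomputable def R0 (s : ℝ) : ℝ := 2 * U1 0 (θ + 2 * s) + ∑ i, U1 0 (c i + s)

lemma hasDerivAt_H0 (s : ℝ) : HasDerivAt (H0 θ c) (R0 θ c s) s := by
  unfold R0
  have h1 : HasDerivAt (fun s => UW 0 (θ + 2 * s)) (U1 0 (θ + 2 * s) * 2) s :=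
    HasDerivAt.comp (h₂ := UW 0) s (hasDerivAt_UW 0 (θ + 2 * s)) (hasDerivAt_lin θ 2 s)
  have h2 : ∀ i ∈ (Finset.univ : Finset ι), HasDerivAt (fun s => UW 0 (c i + s))
      (U1 0 (c i + s) * 1) s := fun i _ =>
    HasDerivAt.comp (h₂ := UW 0) s (hasDerivAt_UW 0 (c i + s)) (hasDerivAt_lin1 (c i) s)
  have h3 := h1.add (HasDerivAt.fun_sum h2)
  have h4 : HasDerivAt (H0 θ c) _ s := h3
  refine h4.congr_deriv ?_
  simp only [mul_one]
  ring

lemma continuous_H0 : Continuous (H0 θ c) :=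
  continuous_iff_continuousAt.mpr fun s => (hasDerivAt_H0 θ c s).continuousAt

lemma continuous_R0 : Continuous (R0 θ c) := by
  unfold R0
  have h := continuous_U1 0
  fun_prop

lemma H0_periodic : Function.Periodic (H0 θ c) (2 * π) := by
  intro s
  unfold H0
  have h1 := per_double (UW_periodic 0) θ s
  have h2 : ∀ i, UW 0 (c i + (s + 2 * π)) = UW 0 (c i + s) :=
    fun i => per_single (UW_periodic 0) (c i) s
  dsimp only at h1
  rw [h1]
  simp_rw [h2]

end Line0

section CliqueIBP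

variable {n : ℕ}

lemma nb_top {u v : Fin n} :
    nb (⊤ : SimpleGraph (Fin n)) u v = (Finset.univ.erase u).erase v := by
  ext w
  unfold nb
  rw [Finset.mem_filter, Finset.mem_erase, Finset.mem_erase, SimpleGraph.top_adj]
  constructor
  · rintro ⟨h1, h2, h3⟩
    exact ⟨h3, h2.symm, h1⟩
  · rintro ⟨h1, h2, h3⟩
    exact ⟨h3, h2.symm, h1⟩

lemma line_RT (ξ : Fin n → ℝ) {u v : Fin n} (h : u ≠ v) (a : ℝ) :
    RT u v (li ξ + ln u v (a : TT)) =
      R0 (2 * π * (ξ u - ξ v)) (cuv (⊤ : SimpleGraph (Fin n)) ξ u v) (2 * π * a) := by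
  have hadj : (⊤ : SimpleGraph (Fin n)).Adj u v := by rw [SimpleGraph.top_adj]; exact h
  unfold RT R0
  rw [sum_split h]
  have e0 : U1T 0 = 0 := by
    have := U1T_neg 0
    rw [neg_zero] at this
    linarith
  rw [sub_self, sub_self, e0]
  have e1 : U1T ((li ξ + ln u v (a : TT)) u - (li ξ + ln u v (a : TT)) v) =
      U1 0 (2 * π * (ξ u - ξ v) + 2 * (2 * π * a)) := by
    rw [ln_u h, ln_v h]
    unfold li
    rw [← AddCircle.coe_add, ← AddCircle.coe_sub, ← AddCircle.coe_sub, U1T_coe]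
    congr 1
    ring
  have e1' : U1T ((li ξ + ln u v (a : TT)) v - (li ξ + ln u v (a : TT)) u) =
      -U1 0 (2 * π * (ξ u - ξ v) + 2 * (2 * π * a)) := by
    rw [← e1, ← U1T_neg, neg_sub]
  rw [e1, e1']
  have e2 : ∑ i, U1 0 (cuv (⊤ : SimpleGraph (Fin n)) ξ u v i + 2 * π * a) =
      ∑ w ∈ (Finset.univ.erase u).erase v,
        (U1T ((li ξ + ln u v (a : TT)) u - (li ξ + ln u v (a : TT)) w) -
          U1T ((li ξ + ln u v (a : TT)) v - (li ξ + ln u v (a : TT)) w)) := by
    have h1 : ∑ i, U1 0 (cuv (⊤ : SimpleGraph (Fin n)) ξ u v i + 2 * π * a) =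
        ∑ w ∈ nb (⊤ : SimpleGraph (Fin n)) u v, U1 0 (2 * π * (ξ u - ξ w) + 2 * π * a) +
        ∑ w ∈ nb (⊤ : SimpleGraph (Fin n)) v u, U1 0 (2 * π * (ξ w - ξ v) + 2 * π * a) := by
      rw [← sum_Iuv (⊤ : SimpleGraph (Fin n)) (u := u) (v := v)
        (fun w => U1 0 (2 * π * (ξ u - ξ w) + 2 * π * a))
        (fun w => U1 0 (2 * π * (ξ w - ξ v) + 2 * π * a))]
      apply Finset.sum_congr rfl
      intro i _
      unfold cuv
      rcases i with i | i
      · rfl
      · rfl
    rw [h1, nb_top, nb_top, Finset.erase_right_comm, ← Finset.sum_add_distrib]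
    apply Finset.sum_congr rfl
    intro w hw
    rw [Finset.mem_erase, Finset.mem_erase] at hw
    have hwu : w ≠ u := hw.1
    have hwv : w ≠ v := hw.2.1
    rw [ln_u h, ln_v h, ln_w hwu hwv]
    unfold li
    rw [← AddCircle.coe_add, ← AddCircle.coe_sub, ← AddCircle.coe_sub, ← AddCircle.coe_sub,
      U1T_coe, U1T_coe]
    have e3 : 2 * π * (ξ v - a - ξ w) = -(2 * π * (ξ w - ξ v) + 2 * π * a) := by ring
    have e4 : ∀ z, U1 0 (-z) = -U1 0 z := by
      intro z
      unfold U1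
      rw [sin_neg, cos_neg, neg_sq]
      ring
    rw [e3, e4]
    have e5 : 2 * π * (ξ u + a - ξ w) = 2 * π * (ξ u - ξ w) + 2 * π * a := by ring
    rw [e5]
    ring
  rw [e2]
  ring

/-- Integration by parts on the clique, for powers of `g`. -/
lemma clique_ibp {u v : Fin n} (h : u ≠ v) (k : ℕ) :
    GI (⊤ : SimpleGraph (Fin n)) 0 (fun x => (k + 1) * gT (x u - x v) ^ k *
      (2 * (1 - 2 * yT (x u - x v)))) =
      GI (⊤ : SimpleGraph (Fin n)) 0 (fun x => gT (x u - x v) ^ (k + 1) * RT u v x) := by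
  have hadj : (⊤ : SimpleGraph (Fin n)).Adj u v := by rw [SimpleGraph.top_adj]; exact h
  have cy : Continuous (fun x : Fin n → TT => yT (x u - x v)) :=
    continuous_yT.comp ((continuous_apply u).sub (continuous_apply v))
  have cg : Continuous (fun x : Fin n → TT => gT (x u - x v)) :=
    continuous_gT.comp ((continuous_apply u).sub (continuous_apply v))
  have cR := continuous_RT u v
  have cH := continuous_HG (⊤ : SimpleGraph (Fin n)) 0
  unfold GI
  have hA := integral_line (F := fun x : Fin n → TT => (k + 1) * gT (x u - x v) ^ k *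
      (2 * (1 - 2 * yT (x u - x v))) * exp (-(HG (⊤ : SimpleGraph (Fin n)) 0 x))) (by fun_prop)
      (continuous_ln u v)
  have hB := integral_line (F := fun x : Fin n → TT => gT (x u - x v) ^ (k + 1) * RT u v x *
      exp (-(HG (⊤ : SimpleGraph (Fin n)) 0 x))) (by fun_prop) (continuous_ln u v)
  rw [hA, hB]
  congr 1
  funext x
  obtain ⟨ξ, rfl⟩ := exists_li x
  set θ := 2 * π * (ξ u - ξ v) with hθ
  set c := cuv (⊤ : SimpleGraph (Fin n)) ξ u v with hc
  set r := rest (⊤ : SimpleGraph (Fin n)) (fun t => hW 0 (yT t)) u v (li ξ) with hr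
  have e1 : ∀ a : ℝ, HG (⊤ : SimpleGraph (Fin n)) 0 (li ξ + ln u v (a : TT)) =
      H0 θ c (2 * π * a) + r := by
    intro a
    unfold HG
    rw [line_sE (⊤ : SimpleGraph (Fin n)) (hW 0) ξ hadj]
    rfl
  have e2 : ∀ a : ℝ, RT u v (li ξ + ln u v (a : TT)) = R0 θ c (2 * π * a) :=
    fun a => line_RT ξ h a
  have e3 : ∀ a : ℝ, yT ((li ξ + ln u v (a : TT)) u - (li ξ + ln u v (a : TT)) v) =
      y2 θ (2 * π * a) := fun a => line_uv (⊤ : SimpleGraph (Fin n)) ξ hadj a
  have e4 : ∀ a : ℝ, gT ((li ξ + ln u v (a : TT)) u - (li ξ + ln u v (a : TT)) v) =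
      g2 θ (2 * π * a) := by
    intro a
    rw [ln_u h, ln_v h]
    unfold li g2
    rw [← AddCircle.coe_add, ← AddCircle.coe_sub, ← AddCircle.coe_sub, gT_coe]
    have e5 : 2 * π * (ξ u + a - (ξ v - a)) = θ + 2 * (2 * π * a) := by rw [hθ]; ring
    rw [e5]
  rw [integral_TT, integral_TT]
  simp_rw [e1, e2, e3, e4]
  rw [integral_period (fun s => (k + 1) * g2 θ s ^ k * (2 * (1 - 2 * y2 θ s)) *
      exp (-(H0 θ c s + r))),
    integral_period (fun s => g2 θ s ^ (k + 1) * R0 θ c s * exp (-(H0 θ c s + r)))]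
  congr 1
  have e6 : ∀ f : ℝ → ℝ, ∫ s in (0:ℝ)..(2 * π), f s * exp (-(H0 θ c s + r)) =
      exp (-r) * LL (H0 θ c) f := by
    intro f
    unfold LL
    rw [← intervalIntegral.integral_const_mul]
    congr 1
    funext s
    rw [neg_add, exp_add]
    ring
  rw [e6, e6]
  congr 1
  have cg2 := continuous_g2 θ
  have cy2 := continuous_y2 θ
  apply LL_ibp (continuous_H0 θ c) (hasDerivAt_H0 θ c) (f := fun s => g2 θ s ^ (k + 1))
    (fun s => ?_) (continuous_R0 θ c) (by fun_prop) (H0_periodic θ c) (fun s => ?_)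
  · refine ((hasDerivAt_g2 θ s).pow (k + 1)).congr_deriv ?_
    rw [Nat.add_sub_cancel]
    push_cast
    ring
  · have := g2_periodic θ s
    simp only [this]

end CliqueIBP

end Pool.Agent.MP_a3e05c_co
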