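import Pool.Agent.Lib.MP_a3e05c_co.Sharp.CliqueA

set_option autoImplicit false
set_option linter.unusedSectionVars false

/-! Third moments of the star energies on the clique. -/

namespace Pool.Agent.MP_a3e05c_co

open Real MeasureTheory Finset

section Split

variable {V : Type*} [Fintype V] [DecidableEq V] [LinearOrder V]
variable (G : SimpleGraph V) [DecidableRel G.Adj] {φ : TT → ℝ}

/-- The part of the edge sum that does not involve `u`. -/
noncomputable def rest1 (φ : TT → ℝ) (u : V) (x : V → TT) : ℝ :=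
  (∑ a ∈ Finset.univ.erase u, ∑ b ∈ Finset.univ.erase u,
    if G.Adj a b then φ (x a - x b) else 0) / 2

lemma sE_split1 (hφ : ∀ t, φ (-t) = φ t) (u : V) (x : V → TT) :
    sE G φ x = sV G φ u x + rest1 G φ u x := by
  have h2 := two_sE G hφ x
  rw [← Finset.add_sum_erase Finset.univ _ (Finset.mem_univ u)] at h2
  have h3 : ∑ a ∈ Finset.univ.erase u, sV G φ a x =
      (∑ a ∈ Finset.univ.erase u, if G.Adj a u then φ (x a - x u) else 0) +
      2 * rest1 G φ u x := by
    unfold sV rest1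
    have h4 : ∀ a, (∑ w, if G.Adj a w then φ (x a - x w) else 0) =
        (if G.Adj a u then φ (x a - x u) else 0) +
          ∑ w ∈ Finset.univ.erase u, if G.Adj a w then φ (x a - x w) else 0 := by
      intro a
      rw [← Finset.add_sum_erase Finset.univ _ (Finset.mem_univ u)]
    simp_rw [h4]
    rw [Finset.sum_add_distrib]
    ring
  have h5 : sV G φ u x = ∑ a ∈ Finset.univ.erase u, if G.Adj a u then φ (x a - x u) else 0 := by
    unfold sV
    rw [← Finset.add_sum_erase Finset.univ _ (Finset.mem_univ u),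
      if_neg (G.loopless.irrefl u), zero_add]
    apply Finset.sum_congr rfl
    intro a _
    by_cases hab : G.Adj u a
    · rw [if_pos hab, if_pos hab.symm, ← hφ, neg_sub]
    · rw [if_neg hab, if_neg (fun h' => hab h'.symm)]
  linarith

/-- The line in the direction of `u`. -/
noncomputable def lu (u : V) (t : TT) : V → TT := Pi.single u t

lemma lu_u (u : V) (x : V → TT) (t : TT) : (x + lu u t) u = x u + t := by
  unfold lu
  rw [Pi.add_apply, Pi.single_eq_same]

lemma lu_w {u w : V} (h : w ≠ u) (x : V → TT) (t : TT) : (x + lu u t) w = x w := by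
  unfold lu
  rw [Pi.add_apply, Pi.single_eq_of_ne h, add_zero]

lemma continuous_lu (u : V) : Continuous (lu u) := by
  unfold lu
  refine continuous_pi fun w => ?_
  by_cases h : w = u
  · subst h
    simp only [Pi.single_eq_same]
    exact continuous_id
  · simp only [Pi.single_eq_of_ne h]
    exact continuous_const

lemma rest1_lu (u : V) (x : V → TT) (t : TT) : rest1 G φ u (x + lu u t) = rest1 G φ u x := by
  unfold rest1
  congr 1
  apply Finset.sum_congr rfl
  intro a ha
  apply Finset.sum_congr rfl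
  intro b hb
  rw [lu_w (Finset.ne_of_mem_erase ha), lu_w (Finset.ne_of_mem_erase hb)]

end Split

section OneStar

variable {ι : Type*} [Fintype ι] (c : ι → ℝ)

noncomputable def H1 (s : ℝ) : ℝ := ∑ i, UW 0 (c i + s)

lemma continuous_H1 : Continuous (H1 c) := by
  unfold H1
  have := continuous_UW 0
  fun_prop

lemma H1_ge (s : ℝ) : AA c s / 2 ≤ H1 c s := by
  unfold H1 AA
  rw [Finset.sum_div]
  exact Finset.sum_le_sum fun i _ => UW_ge le_rfl _

lemma H1_le (s : ℝ) : H1 c s ≤ AA c s := by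
  unfold H1 AA
  exact Finset.sum_le_sum fun i _ => UW_le le_rfl (by norm_num) _

lemma exp_moment0 {m ρ φ : ℝ} (hm : 0 ≤ m) (hρ : 0 ≤ ρ)
    (h : ∀ s, AA c s = m + ρ * sin (s + φ) ^ 2) :
    LL (H1 c) (fun s => exp (AA c s / 4 - m)) ≤ 4 * LL (H1 c) (fun _ => 1) := by
  have cA := continuous_AA c
  have cH := continuous_H1 c
  have h1 : LL (H1 c) (fun s => exp (AA c s / 4 - m)) ≤
      exp (-m) * (exp (-(1 / 4 * m)) * JJ (1 / 4 * ρ)) := by
    rw [← int_exp_AA c h, ← intervalIntegral.integral_const_mul]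
    unfold LL
    apply intervalIntegral.integral_mono_on (by positivity)
    · exact Continuous.intervalIntegrable (by fun_prop) _ _
    · exact Continuous.intervalIntegrable (by fun_prop) _ _
    · intro s _
      rw [← exp_add, ← exp_add]
      apply exp_le_exp.mpr
      have := H1_ge c s
      linarith
  have h2 : exp (-(1 * m)) * JJ (1 * ρ) ≤ LL (H1 c) (fun _ => 1) := by
    rw [← int_exp_AA c h]
    unfold LL
    apply intervalIntegral.integral_mono_on (by positivity)
    · exact Continuous.intervalIntegrable (by fun_prop) _ _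
    · exact Continuous.intervalIntegrable (by fun_prop) _ _
    · intro s _
      simp only [one_mul]
      apply exp_le_exp.mpr
      have := H1_le c s
      linarith
  rw [one_mul, one_mul] at h2
  have h3 := JJ_doubling (l := 1 / 4 * ρ) (by positivity)
  have h4 := JJ_doubling (l := 1 / 2 * ρ) (by positivity)
  have e3 : 2 * (1 / 4 * ρ) = 1 / 2 * ρ := by ring
  have e4 : 2 * (1 / 2 * ρ) = ρ := by ring
  rw [e3] at h3
  rw [e4] at h4
  have h5 : JJ (1 / 4 * ρ) ≤ 4 * JJ ρ := by linarith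
  have h6 : exp (-(1 / 4 * m)) ≤ 1 := by
    rw [exp_le_one_iff]
    linarith
  have hJ := JJ_pos ρ
  have hE := exp_pos (-m)
  calc LL (H1 c) (fun s => exp (AA c s / 4 - m))
      ≤ exp (-m) * (exp (-(1 / 4 * m)) * JJ (1 / 4 * ρ)) := h1
    _ ≤ exp (-m) * (1 * (4 * JJ ρ)) := by
        apply mul_le_mul_of_nonneg_left _ hE.le
        exact mul_le_mul h6 h5 (JJ_pos _).le (by norm_num)
    _ = 4 * (exp (-m) * JJ ρ) := by ring
    _ ≤ _ := mul_le_mul_of_nonneg_left h2 (by norm_num)

end OneStar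

section Clique

variable {n : ℕ}



/-- The angles of the star at `u`. -/
noncomputable def cst (ξ : Fin n → ℝ) (u : Fin n) : ↥(Finset.univ.erase u : Finset (Fin n)) → ℝ :=
  fun w => 2 * π * (ξ u - ξ w)

lemma sum_cst (ξ : Fin n → ℝ) (u : Fin n) (f : ℝ → ℝ) :
    ∑ w, f (cst ξ u w) = ∑ w ∈ Finset.univ.erase u, f (2 * π * (ξ u - ξ w)) := by
  unfold cst
  exact Finset.sum_coe_sort (Finset.univ.erase u) (fun w => f (2 * π * (ξ u - ξ w)))

lemma sV_top (φ : TT → ℝ) (u : Fin n) (x : Fin n → TT) :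
    sV (⊤ : SimpleGraph (Fin n)) φ u x = ∑ w ∈ Finset.univ.erase u, φ (x u - x w) := by
  unfold sV
  rw [← Finset.add_sum_erase Finset.univ _ (Finset.mem_univ u),
    if_neg (SimpleGraph.loopless (⊤ : SimpleGraph (Fin n)) |>.irrefl u), zero_add]
  apply Finset.sum_congr rfl
  intro j hj
  rw [if_pos]
  rw [SimpleGraph.top_adj]
  exact (Finset.ne_of_mem_erase hj).symm

lemma star_line (f : ℝ → ℝ) (ξ : Fin n → ℝ) (u : Fin n) (a : ℝ) :
    sV (⊤ : SimpleGraph (Fin n)) (fun t => f (yT t)) u (li ξ + lu u (a : TT)) =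
      ∑ w, f (sin (cst ξ u w + 2 * π * a) ^ 2) := by
  rw [sV_top, sum_cst ξ u (fun z => f (sin (z + 2 * π * a) ^ 2))]
  apply Finset.sum_congr rfl
  intro w hw
  rw [lu_u, lu_w (Finset.ne_of_mem_erase hw)]
  unfold li
  rw [← AddCircle.coe_add, ← AddCircle.coe_sub, yT_coe]
  have e : 2 * π * (ξ u + a - ξ w) = 2 * π * (ξ u - ξ w) + 2 * π * a := by ring
  rw [e]

/-- The minimum of the star energy is at most `2 T / n`. -/
lemma min_le_Tn (ξ : Fin n → ℝ) (u : Fin n) (a : ℝ) {m ρ φ : ℝ} (hρ : 0 ≤ ρ)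
    (h : ∀ s, AA (cst ξ u) s = m + ρ * sin (s + φ) ^ 2) :
    n * m ≤ 2 * Tn (li ξ + lu u (a : TT)) := by
  rw [two_Tn]
  have hge : ∀ s, m ≤ AA (cst ξ u) s := by
    intro s
    rw [h s]
    have : 0 ≤ ρ * sin (s + φ) ^ 2 := by positivity
    linarith
  have key : ∀ i ∈ (Finset.univ : Finset (Fin n)), m ≤ Rn i (li ξ + lu u (a : TT)) := by
    intro i _
    by_cases hi : i = u
    · subst hi
      have h2 := star_line (fun y => y) ξ i a
      refine (hge (2 * π * a)).trans (le_of_eq ?_)
      exact h2.symm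
    · refine (hge (2 * π * (ξ i - ξ u))).trans ?_
      have h3 : AA (cst ξ u) (2 * π * (ξ i - ξ u)) =
          ∑ w ∈ Finset.univ.erase u, yT (li ξ i - li ξ w) := by
        unfold AA
        rw [sum_cst ξ u (fun z => sin (z + 2 * π * (ξ i - ξ u)) ^ 2)]
        apply Finset.sum_congr rfl
        intro w _
        unfold li
        rw [← AddCircle.coe_sub, yT_coe]
        have e : 2 * π * (ξ u - ξ w) + 2 * π * (ξ i - ξ u) = 2 * π * (ξ i - ξ w) := by ring
        rw [e]
      rw [h3, Rn_eq', ← Finset.add_sum_erase Finset.univ _ (Finset.mem_univ u)]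
      have h4 : ∑ w ∈ Finset.univ.erase u,
          yT ((li ξ + lu u (a : TT)) i - (li ξ + lu u (a : TT)) w) =
          ∑ w ∈ Finset.univ.erase u, yT (li ξ i - li ξ w) := by
        apply Finset.sum_congr rfl
        intro w hw
        rw [lu_w hi, lu_w (Finset.ne_of_mem_erase hw)]
      rw [h4]
      have := yT_nonneg ((li ξ + lu u (a : TT)) i - (li ξ + lu u (a : TT)) u)
      linarith
  have h5 := Finset.sum_le_sum key
  rw [Finset.sum_const, Finset.card_univ, Fintype.card_fin, nsmul_eq_mul] at h5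
  exact h5

/-- Exponential moment of the star energy relative to the total energy. -/
lemma star_exp (hn : 0 < n) (u : Fin n) :
    GI (⊤ : SimpleGraph (Fin n)) 0 (fun x => exp (Rn u x / 4 - 2 * Tn x / n)) ≤ 4 * GI (⊤ : SimpleGraph (Fin n)) 0 (fun _ => 1) := by
  have hnR : (0:ℝ) < n := by exact_mod_cast hn
  have cR := continuous_Rn u
  have cT := continuous_Tn (n := n)
  have cH := continuous_HG (⊤ : SimpleGraph (Fin n)) 0
  rw [← GI_mul]
  unfold GI
  apply integral_line_mono (ι := lu u) (by fun_prop) (by fun_prop) (continuous_lu u)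
  intro x
  obtain ⟨ξ, rfl⟩ := exists_li x
  set c := cst ξ u with hc
  set r := rest1 (⊤ : SimpleGraph (Fin n)) (fun t => hW 0 (yT t)) u (li ξ) with hr
  obtain ⟨m, ρ, φ, hm, hρ, h⟩ := star_repr c
  have e1 : ∀ a : ℝ, HG (⊤ : SimpleGraph (Fin n)) 0 (li ξ + lu u (a : TT)) = H1 c (2 * π * a) + r := by
    intro a
    unfold HG
    rw [sE_split1 (⊤ : SimpleGraph (Fin n)) (fun t => by rw [yT_neg]) u, rest1_lu, star_line (hW 0) ξ u a]
    rfl
  have e2 : ∀ a : ℝ, Rn u (li ξ + lu u (a : TT)) = AA c (2 * π * a) :=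
    fun a => star_line (fun y => y) ξ u a
  have hcl : Continuous (fun a : ℝ => (li ξ + lu u (a : TT) : Fin n → TT)) := by
    have h1 := continuous_lu u
    have h2 : Continuous (fun a : ℝ => (a : TT)) := AddCircle.continuous_mk' 1
    exact continuous_const.add (h1.comp h2)
  rw [integral_TT, integral_TT]
  have h3 : ∫ a in (0:ℝ)..1, exp (Rn u (li ξ + lu u (a : TT)) / 4 -
        2 * Tn (li ξ + lu u (a : TT)) / n) * exp (-(HG (⊤ : SimpleGraph (Fin n)) 0 (li ξ + lu u (a : TT)))) ≤
      ∫ a in (0:ℝ)..1, exp (AA c (2 * π * a) / 4 - m) * exp (-(H1 c (2 * π * a) + r)) := by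
    apply intervalIntegral.integral_mono_on (by norm_num)
    · apply Continuous.intervalIntegrable
      have h5 := cR.comp hcl
      have h6 := cT.comp hcl
      have h7 := cH.comp hcl
      simp only [Function.comp_def] at h5 h6 h7
      fun_prop
    · apply Continuous.intervalIntegrable
      have h5 := continuous_AA c
      have h6 := continuous_H1 c
      fun_prop
    · intro a _
      rw [e1, e2]
      apply mul_le_mul_of_nonneg_right _ (exp_pos _).le
      apply exp_le_exp.mpr
      have h4 := min_le_Tn ξ u a hρ h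
      have h5 : m ≤ 2 * Tn (li ξ + lu u (a : TT)) / n := by
        rw [le_div_iff₀ hnR]
        linarith
      linarith
  refine h3.trans ?_
  simp_rw [e1]
  rw [integral_period (fun s => exp (AA c s / 4 - m) * exp (-(H1 c s + r))),
    integral_period (fun s => 4 * 1 * exp (-(H1 c s + r)))]
  apply mul_le_mul_of_nonneg_left _ (by positivity)
  have e4 : ∀ f : ℝ → ℝ, ∫ s in (0:ℝ)..(2 * π), f s * exp (-(H1 c s + r)) =
      exp (-r) * LL (H1 c) f := by
    intro f
    unfold LL
    rw [← intervalIntegral.integral_const_mul]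
    congr 1
    funext s
    rw [neg_add, exp_add]
    ring
  rw [e4 (fun s => exp (AA c s / 4 - m)), e4 (fun _ => 4 * 1), LL_mul]
  exact mul_le_mul_of_nonneg_left (exp_moment0 c hm hρ h) (exp_pos _).le

/-- Exponential moment of the total energy. -/
lemma total_exp (hn : 0 < n) :
    GI (⊤ : SimpleGraph (Fin n)) 0 (fun x => exp (Tn x / 4)) ≤ n * 16 ^ n * GI (⊤ : SimpleGraph (Fin n)) 0 (fun _ => 1) := by
  have hnR : (0:ℝ) < n := by exact_mod_cast hn
  have cT := continuous_Tn (n := n)
  have cH := continuous_HG (⊤ : SimpleGraph (Fin n)) 0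
  have h1 : GI (⊤ : SimpleGraph (Fin n)) 0 (fun x => exp (Tn x / 4)) ≤ ∫ x : Fin n → TT, exp (-(1 / 4 * Tn x)) := by
    unfold GI
    apply integral_mono (integrable_cont (by fun_prop)) (integrable_cont (by fun_prop))
    intro x
    simp only
    rw [← exp_add]
    apply exp_le_exp.mpr
    have := HG_ge (⊤ : SimpleGraph (Fin n)) (s := 0) le_rfl x
    have e : sE (⊤ : SimpleGraph (Fin n)) yT x = Tn x := rfl
    rw [e] at this
    linarith
  have h2 := int_exp_Tn_le hn (l := 1 / 4) (by norm_num)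
  have h3 : II (2 * n) ^ (n - 1) ≤ GI (⊤ : SimpleGraph (Fin n)) 0 (fun _ => 1) := by
    rw [← int_exp_Rn (2 * n) ⟨0, hn⟩]
    unfold GI
    have cR := continuous_Rn (⟨0, hn⟩ : Fin n)
    apply integral_mono (integrable_cont (by fun_prop)) (integrable_cont (by fun_prop))
    intro x
    simp only [one_mul]
    apply exp_le_exp.mpr
    have h4 := HG_le (⊤ : SimpleGraph (Fin n)) (s := 0) le_rfl (by norm_num) x
    have e : sE (⊤ : SimpleGraph (Fin n)) yT x = Tn x := rfl
    rw [e] at h4
    have h5 := Tn_le (⟨0, hn⟩ : Fin n) x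
    linarith
  have h4 : II (1 / 4 * n / 2) ≤ 16 * II (2 * n) := by
    have a1 := II_doubling (l := 1 / 4 * (n:ℝ) / 2) (by positivity)
    have a2 := II_doubling (l := 2 * (1 / 4 * (n:ℝ) / 2)) (by positivity)
    have a3 := II_doubling (l := 2 * (2 * (1 / 4 * (n:ℝ) / 2))) (by positivity)
    have a4 := II_doubling (l := 2 * (2 * (2 * (1 / 4 * (n:ℝ) / 2)))) (by positivity)
    have e : 2 * (2 * (2 * (2 * (1 / 4 * (n:ℝ) / 2)))) = 2 * n := by ring
    rw [e] at a4
    linarith
  have h5 : II (1 / 4 * n / 2) ^ (n - 1) ≤ 16 ^ n * II (2 * n) ^ (n - 1) := by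
    have h6 := pow_le_pow_left₀ (II_pos _).le h4 (n - 1)
    rw [mul_pow] at h6
    refine h6.trans ?_
    apply mul_le_mul_of_nonneg_right _ (pow_nonneg (II_pos _).le _)
    exact pow_le_pow_right₀ (by norm_num) (by omega)
  refine h1.trans (h2.trans ?_)
  rw [mul_assoc]
  apply mul_le_mul_of_nonneg_left _ hnR.le
  refine h5.trans ?_
  exact mul_le_mul_of_nonneg_left h3 (by positivity)

/-- Exponential moment of the energy per vertex. -/
lemma total_exp' (hn : 0 < n) :
    GI (⊤ : SimpleGraph (Fin n)) 0 (fun x => exp (Tn x / (4 * n))) ≤ 32 * GI (⊤ : SimpleGraph (Fin n)) 0 (fun _ => 1) := by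
  have hnR : (0:ℝ) < n := by exact_mod_cast hn
  have cT := continuous_Tn (n := n)
  have h1 := total_exp hn
  have hp := (GI_one_pos (⊤ : SimpleGraph (Fin n)) 0).le
  have h2 : GI (⊤ : SimpleGraph (Fin n)) 0 (fun x => exp (Tn x / (4 * n))) ≤
      GI (⊤ : SimpleGraph (Fin n)) 0 (fun x => 16 / (n * 16 ^ n) * exp (Tn x / 4) + 16) := by
    apply GI_mono (⊤ : SimpleGraph (Fin n)) 0 (by fun_prop) (by fun_prop)
    intro x
    set r := exp (Tn x / (4 * n)) / 16 with hr
    have hr0 : 0 < r := by positivity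
    have hb := one_add_mul_le_pow (a := r - 1) (by linarith) n
    rw [add_sub_cancel] at hb
    have e1 : r ^ n = exp (Tn x / 4) / 16 ^ n := by
      rw [hr, div_pow, ← exp_nat_mul]
      congr 2
      field_simp
    have e2 : exp (Tn x / (4 * n)) = 16 * r := by rw [hr]; ring
    rw [e2]
    have e3 : 16 / (n * 16 ^ n) * exp (Tn x / 4) = 16 / n * r ^ n := by
      rw [e1]
      field_simp
    rw [e3]
    have h3 : n * r ≤ r ^ n + n := by linarith
    have h4 : r ≤ r ^ n / n + 1 := by
      rw [← sub_le_iff_le_add, le_div_iff₀ hnR]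
      linarith
    calc 16 * r ≤ 16 * (r ^ n / n + 1) := mul_le_mul_of_nonneg_left h4 (by norm_num)
      _ = _ := by ring
  refine h2.trans ?_
  rw [GI_add (⊤ : SimpleGraph (Fin n)) 0 (by fun_prop) continuous_const, GI_mul]
  have h5 : GI (⊤ : SimpleGraph (Fin n)) 0 (fun _ => (16:ℝ)) = 16 * GI (⊤ : SimpleGraph (Fin n)) 0 (fun _ => 1) := by
    have := GI_mul (⊤ : SimpleGraph (Fin n)) 0 16 (fun _ => 1)
    simpa using this
  rw [h5]
  have h6 : 16 / (n * 16 ^ n) * GI (⊤ : SimpleGraph (Fin n)) 0 (fun x => exp (Tn x / 4)) ≤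
      16 / (n * 16 ^ n) * (n * 16 ^ n * GI (⊤ : SimpleGraph (Fin n)) 0 (fun _ => 1)) :=
    mul_le_mul_of_nonneg_left h1 (by positivity)
  have h7 : 16 / (n * 16 ^ n) * (n * 16 ^ n * GI (⊤ : SimpleGraph (Fin n)) 0 (fun _ => 1)) =
      16 * GI (⊤ : SimpleGraph (Fin n)) 0 (fun _ => 1) := by
    field_simp
  rw [h7] at h6
  linarith

lemma cube_le_exp {z : ℝ} (hz : 0 ≤ z) : z ^ 3 ≤ 6 * exp z := by
  have h := Real.pow_div_factorial_le_exp z hz 3
  have e : ((Nat.factorial 3 : ℕ) : ℝ) = 6 := by norm_num [Nat.factorial]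
  rw [e, div_le_iff₀ (by norm_num)] at h
  linarith

lemma cube_add_le {a b : ℝ} (ha : 0 ≤ a) (hb : 0 ≤ b) : (a + b) ^ 3 ≤ 4 * (a ^ 3 + b ^ 3) := by
  nlinarith [mul_nonneg (add_nonneg ha hb) (sq_nonneg (a - b))]

/-- Third moment of the star energy. -/
lemma star_cube (hn : 0 < n) (u : Fin n) :
    GI (⊤ : SimpleGraph (Fin n)) 0 (fun x => Rn u x ^ 3) ≤ 26000000 * GI (⊤ : SimpleGraph (Fin n)) 0 (fun _ => 1) := by
  have hnR : (0:ℝ) < n := by exact_mod_cast hn
  have cR := continuous_Rn u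
  have cT := continuous_Tn (n := n)
  have h1 := star_exp hn u
  have h2 := total_exp' hn
  have hp := (GI_one_pos (⊤ : SimpleGraph (Fin n)) 0).le
  have h3 : GI (⊤ : SimpleGraph (Fin n)) 0 (fun x => Rn u x ^ 3) ≤
      GI (⊤ : SimpleGraph (Fin n)) 0 (fun x => 1536 * exp (Rn u x / 4 - 2 * Tn x / n) +
        786432 * exp (Tn x / (4 * n))) := by
    apply GI_mono (⊤ : SimpleGraph (Fin n)) 0 (by fun_prop) (by fun_prop)
    intro x
    set A := Rn u x / 4 - 2 * Tn x / n with hA
    set B := Tn x / (4 * n) with hB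
    have hB0 : 0 ≤ B := div_nonneg (Tn_nonneg x) (by positivity)
    have hR0 := Rn_nonneg u x
    have e : Rn u x = 4 * A + 32 * B := by
      rw [hA, hB]
      field_simp
      ring
    have b1 := cube_le_exp hB0
    rcases le_or_gt 0 A with h | h
    · have b2 := cube_le_exp h
      have b3 := cube_add_le (a := 4 * A) (b := 32 * B) (by linarith) (by linarith)
      rw [e]
      nlinarith
    · have b3 : Rn u x ^ 3 ≤ (32 * B) ^ 3 := pow_le_pow_left₀ hR0 (by linarith) 3
      have b4 := exp_pos A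
      have b5 := exp_pos B
      have e9 : (32 * B) ^ 3 = 32768 * B ^ 3 := by ring
      rw [e9] at b3
      linarith
  refine h3.trans ?_
  rw [GI_add (⊤ : SimpleGraph (Fin n)) 0 (by fun_prop) (by fun_prop), GI_mul, GI_mul]
  linarith

end Clique

end Pool.Agent.MP_a3e05c_co
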