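import Pool.Agent.Lib.MP_a3e05c_co.Sharp.CliqueB

set_option autoImplicit false
set_option linter.unusedSectionVars false

/-! Fourth and sixth moments of an edge on the clique, and the comparison of the integral of the
cosines with the integral of the majorant. -/

namespace Pool.Agent.MP_a3e05c_co

open Real MeasureTheory Finset

section Clique

variable {n : ℕ}



/-- The third moment of `Y_u + Y_v`. -/
lemma pair_cube (hn : 0 < n) (u v : Fin n) :
    GI (⊤ : SimpleGraph (Fin n)) 0 (fun x => (Rn u x + Rn v x) ^ 3) ≤ 208000000 * GI (⊤ : SimpleGraph (Fin n)) 0 (fun _ => 1) := by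
  have cu := continuous_Rn u
  have cv := continuous_Rn v
  have h1 := star_cube hn u
  have h2 := star_cube hn v
  have h3 : GI (⊤ : SimpleGraph (Fin n)) 0 (fun x => (Rn u x + Rn v x) ^ 3) ≤
      GI (⊤ : SimpleGraph (Fin n)) 0 (fun x => 4 * (Rn u x ^ 3 + Rn v x ^ 3)) := by
    apply GI_mono (⊤ : SimpleGraph (Fin n)) 0 (by fun_prop) (by fun_prop)
    intro x
    exact cube_add_le (Rn_nonneg u x) (Rn_nonneg v x)
  rw [GI_mul, GI_add (⊤ : SimpleGraph (Fin n)) 0 (by fun_prop) (by fun_prop)] at h3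
  linarith

/-- The second moment of `Y_u + Y_v`. -/
lemma pair_sq (hn : 0 < n) (u v : Fin n) :
    GI (⊤ : SimpleGraph (Fin n)) 0 (fun x => (Rn u x + Rn v x) ^ 2) ≤ 208000001 * GI (⊤ : SimpleGraph (Fin n)) 0 (fun _ => 1) := by
  have cu := continuous_Rn u
  have cv := continuous_Rn v
  have h1 := pair_cube hn u v
  have h3 : GI (⊤ : SimpleGraph (Fin n)) 0 (fun x => (Rn u x + Rn v x) ^ 2) ≤
      GI (⊤ : SimpleGraph (Fin n)) 0 (fun x => (Rn u x + Rn v x) ^ 3 + 1) := by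
    apply GI_mono (⊤ : SimpleGraph (Fin n)) 0 (by fun_prop) (by fun_prop)
    intro x
    have h0 : 0 ≤ Rn u x + Rn v x := add_nonneg (Rn_nonneg u x) (Rn_nonneg v x)
    set z := Rn u x + Rn v x
    nlinarith [mul_nonneg h0 (sq_nonneg (z - 1)), sq_nonneg (z - 1)]
  rw [GI_add (⊤ : SimpleGraph (Fin n)) 0 (by fun_prop) continuous_const] at h3
  linarith

/-- Sixth moment of an edge (third moment of `y`). -/
lemma edge_cube (hn : 0 < n) (u v : Fin n) :
    (n:ℝ) ^ 3 * GI (⊤ : SimpleGraph (Fin n)) 0 (fun x => yT (x u - x v) ^ 3) ≤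
      1664000000 * GI (⊤ : SimpleGraph (Fin n)) 0 (fun _ => 1) := by
  have cu := continuous_Rn u
  have cv := continuous_Rn v
  have cy : Continuous (fun x : Fin n → TT => yT (x u - x v)) :=
    continuous_yT.comp ((continuous_apply u).sub (continuous_apply v))
  have h1 := pair_cube hn u v
  have h3 : GI (⊤ : SimpleGraph (Fin n)) 0 (fun x => (n:ℝ) ^ 3 * yT (x u - x v) ^ 3) ≤
      GI (⊤ : SimpleGraph (Fin n)) 0 (fun x => 8 * (Rn u x + Rn v x) ^ 3) := by
    apply GI_mono (⊤ : SimpleGraph (Fin n)) 0 (by fun_prop) (by fun_prop)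
    intro x
    have h2 := n_yT_le u v x
    have h0 : 0 ≤ (n:ℝ) * yT (x u - x v) := mul_nonneg (Nat.cast_nonneg n) (yT_nonneg _)
    have h4 := pow_le_pow_left₀ h0 h2 3
    rw [mul_pow, mul_pow] at h4
    linarith
  rw [GI_mul, GI_mul] at h3
  linarith

/-- Fourth moment of an edge (second moment of `y`), with the sharp leading constant. -/
lemma edge_sq (hn : 0 < n) {u v : Fin n} (huv : u ≠ v) :
    (n:ℝ) ^ 3 * GI (⊤ : SimpleGraph (Fin n)) 0 (fun x => yT (x u - x v) ^ 2) ≤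
      (12 * n + 15000000000) * GI (⊤ : SimpleGraph (Fin n)) 0 (fun _ => 1) := by
  have hnR : (0:ℝ) < n := by exact_mod_cast hn
  have cu := continuous_Rn u
  have cv := continuous_Rn v
  have cR := continuous_RT u v
  have cy : Continuous (fun x : Fin n → TT => yT (x u - x v)) :=
    continuous_yT.comp ((continuous_apply u).sub (continuous_apply v))
  have cg : Continuous (fun x : Fin n → TT => gT (x u - x v)) :=
    continuous_gT.comp ((continuous_apply u).sub (continuous_apply v))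
  have hp := (GI_one_pos (⊤ : SimpleGraph (Fin n)) 0).le
  set P := GI (⊤ : SimpleGraph (Fin n)) 0 (fun _ => 1) with hP
  set Y1 := GI (⊤ : SimpleGraph (Fin n)) 0 (fun x => yT (x u - x v)) with hY1
  set Y2 := GI (⊤ : SimpleGraph (Fin n)) 0 (fun x => yT (x u - x v) ^ 2) with hY2
  set S2 := GI (⊤ : SimpleGraph (Fin n)) 0 (fun x => (Rn u x + Rn v x) ^ 2) with hS2
  set S3 := GI (⊤ : SimpleGraph (Fin n)) 0 (fun x => (Rn u x + Rn v x) ^ 3) with hS3
  have b2 := pair_sq hn u v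
  have b3 := pair_cube hn u v
  rw [← hS2, ← hP] at b2
  rw [← hS3, ← hP] at b3
  -- first moment
  have i1 := clique_ibp huv 0
  have i3 := clique_ibp huv 2
  have f1 : n * Y1 - 4 * GI (⊤ : SimpleGraph (Fin n)) 0 (fun x => yT (x u - x v) * (Rn u x + Rn v x)) ≤ 2 * P := by
    have h1 : GI (⊤ : SimpleGraph (Fin n)) 0 (fun x => n * yT (x u - x v) - 4 * (yT (x u - x v) * (Rn u x + Rn v x))) ≤
        GI (⊤ : SimpleGraph (Fin n)) 0 (fun x => gT (x u - x v) ^ (0 + 1) * RT u v x) := by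
      apply GI_mono (⊤ : SimpleGraph (Fin n)) 0 (by fun_prop) (by fun_prop)
      intro x
      have := (abs_le.mp (gR_bound u v x)).1
      rw [zero_add, pow_one]
      linarith
    rw [← i1] at h1
    have h2 : GI (⊤ : SimpleGraph (Fin n)) 0 (fun x => (((0:ℕ):ℝ) + 1) * gT (x u - x v) ^ 0 *
        (2 * (1 - 2 * yT (x u - x v)))) ≤ GI (⊤ : SimpleGraph (Fin n)) 0 (fun _ => 2 * 1) := by
      apply GI_mono (⊤ : SimpleGraph (Fin n)) 0 (by fun_prop) continuous_const
      intro x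
      have := yT_nonneg (x u - x v)
      push_cast
      linarith
    rw [GI_mul] at h2
    rw [GI_sub (⊤ : SimpleGraph (Fin n)) 0 (by fun_prop) (by fun_prop), GI_mul, GI_mul] at h1
    linarith
  have f2 : n * GI (⊤ : SimpleGraph (Fin n)) 0 (fun x => yT (x u - x v) * (Rn u x + Rn v x)) ≤ 2 * S2 := by
    rw [← GI_mul, hS2, ← GI_mul]
    apply GI_mono (⊤ : SimpleGraph (Fin n)) 0 (by fun_prop) (by fun_prop)
    intro x
    have h0 : 0 ≤ Rn u x + Rn v x := add_nonneg (Rn_nonneg u x) (Rn_nonneg v x)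
    have := mul_le_mul_of_nonneg_right (n_yT_le u v x) h0
    linarith
  have f3 : (n:ℝ) ^ 2 * GI (⊤ : SimpleGraph (Fin n)) 0 (fun x => yT (x u - x v) ^ 2 * (Rn u x + Rn v x)) ≤
      4 * S3 := by
    rw [← GI_mul, hS3, ← GI_mul]
    apply GI_mono (⊤ : SimpleGraph (Fin n)) 0 (by fun_prop) (by fun_prop)
    intro x
    have h0 : 0 ≤ Rn u x + Rn v x := add_nonneg (Rn_nonneg u x) (Rn_nonneg v x)
    have h1 : 0 ≤ (n:ℝ) * yT (x u - x v) := mul_nonneg (Nat.cast_nonneg n) (yT_nonneg _)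
    have h2 := pow_le_pow_left₀ h1 (n_yT_le u v x) 2
    have h3 := mul_le_mul_of_nonneg_right h2 h0
    linarith
  -- second moment
  have f4 : n * Y2 ≤ 6 * Y1 +
      6 * GI (⊤ : SimpleGraph (Fin n)) 0 (fun x => yT (x u - x v) ^ 2 * (Rn u x + Rn v x)) := by
    have h1 : GI (⊤ : SimpleGraph (Fin n)) 0 (fun x => n * yT (x u - x v) ^ 2 -
        6 * (yT (x u - x v) ^ 2 * (Rn u x + Rn v x))) ≤
        GI (⊤ : SimpleGraph (Fin n)) 0 (fun x => gT (x u - x v) ^ (2 + 1) * RT u v x) := by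
      apply GI_mono (⊤ : SimpleGraph (Fin n)) 0 (by fun_prop) (by fun_prop)
      intro x
      have a1 := (abs_le.mp (gR_bound u v x)).1
      have a2 := n_yT_le u v x
      have a3 := yT_nonneg (x u - x v)
      have h0 : 0 ≤ Rn u x + Rn v x := add_nonneg (Rn_nonneg u x) (Rn_nonneg v x)
      have a4 := gT_sq (x u - x v)
      set y := yT (x u - x v)
      set S := Rn u x + Rn v x
      have e1 : gT (x u - x v) ^ (2 + 1) * RT u v x =
          gT (x u - x v) ^ 2 * (gT (x u - x v) * RT u v x) := by ring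
      rw [e1, a4]
      have a5 : 0 ≤ y - y ^ 2 := by rw [← a4]; exact sq_nonneg _
      have a6 : (y - y ^ 2) * (n * y - 4 * y * S) ≤ (y - y ^ 2) * (gT (x u - x v) * RT u v x) :=
        mul_le_mul_of_nonneg_left (by linarith) a5
      refine le_trans ?_ a6
      have a7 : y ^ 2 * (n * y) ≤ y ^ 2 * (2 * S) := mul_le_mul_of_nonneg_left a2 (sq_nonneg y)
      have a8 : 0 ≤ y ^ 3 * S := by positivity
      nlinarith
    rw [← i3] at h1
    have h2 : GI (⊤ : SimpleGraph (Fin n)) 0 (fun x => (((2:ℕ):ℝ) + 1) * gT (x u - x v) ^ 2 *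
        (2 * (1 - 2 * yT (x u - x v)))) ≤ GI (⊤ : SimpleGraph (Fin n)) 0 (fun x => 6 * yT (x u - x v)) := by
      apply GI_mono (⊤ : SimpleGraph (Fin n)) 0 (by fun_prop) (by fun_prop)
      intro x
      have a3 := yT_nonneg (x u - x v)
      have a4 := gT_sq (x u - x v)
      rw [a4]
      push_cast
      have a5 : 0 ≤ yT (x u - x v) - yT (x u - x v) ^ 2 := by rw [← a4]; exact sq_nonneg _
      nlinarith [mul_nonneg a5 a3, sq_nonneg (yT (x u - x v))]
    rw [GI_mul] at h2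
    rw [GI_sub (⊤ : SimpleGraph (Fin n)) 0 (by fun_prop) (by fun_prop), GI_mul, GI_mul] at h1
    linarith
  -- combination
  have g1 : n ^ 2 * Y1 ≤ 2 * n * P + 8 * S2 := by
    have := mul_le_mul_of_nonneg_left f1 hnR.le
    nlinarith
  have g2 : (n:ℝ) ^ 3 * Y2 ≤ 6 * (n ^ 2 * Y1) + 24 * S3 := by
    have := mul_le_mul_of_nonneg_left f4 (by positivity : (0:ℝ) ≤ n ^ 2)
    nlinarith
  nlinarith

/-- Number of pairs. -/
lemma card_pairs (n : ℕ) : ((Edg (⊤ : SimpleGraph (Fin n))).card : ℝ) ≤ (n:ℝ) ^ 2 / 2 := by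
  have h := card_Edg_top n
  have h2 : ((Edg (⊤ : SimpleGraph (Fin n))).card : ℝ) * 2 ≤ (n:ℝ) ^ 2 := by
    have h3 : (Edg (⊤ : SimpleGraph (Fin n))).card * 2 ≤ n ^ 2 := by
      rw [h, pow_two]
      exact Nat.mul_le_mul_left n (Nat.sub_le n 1)
    exact_mod_cast h3
  linarith

/-- The sum of the cubes. -/
noncomputable def C3 (x : Fin n → TT) : ℝ := ∑ p ∈ Edg (⊤ : SimpleGraph (Fin n)), yT (x p.1 - x p.2) ^ 3

/-- The exponent. -/
noncomputable def PhiC (x : Fin n → TT) : ℝ :=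
  ∑ p ∈ Edg (⊤ : SimpleGraph (Fin n)), (yT (x p.1 - x p.2) ^ 2 / 8 + yT (x p.1 - x p.2) ^ 3 / 4)

lemma cont_y (u v : Fin n) : Continuous (fun x : Fin n → TT => yT (x u - x v)) :=
  continuous_yT.comp ((continuous_apply u).sub (continuous_apply v))

lemma continuous_C3 : Continuous (C3 (n := n)) := by
  unfold C3
  refine continuous_finsetSum _ fun p _ => ?_
  have := cont_y p.1 p.2
  fun_prop

lemma continuous_PhiC : Continuous (PhiC (n := n)) := by
  unfold PhiC
  refine continuous_finsetSum _ fun p _ => ?_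
  have := cont_y p.1 p.2
  fun_prop

lemma ne_of_mem {p : Fin n × Fin n} (hp : p ∈ Edg (⊤ : SimpleGraph (Fin n))) : p.1 ≠ p.2 := by
  have := adj_of_mem_Edg (⊤ : SimpleGraph (Fin n)) hp
  rwa [SimpleGraph.top_adj] at this

lemma GI_C3 (hn : 0 < n) :
    n * GI (⊤ : SimpleGraph (Fin n)) 0 (C3 (n := n)) ≤ 832000000 * GI (⊤ : SimpleGraph (Fin n)) 0 (fun _ => 1) := by
  have hnR : (0:ℝ) < n := by exact_mod_cast hn
  have hp := (GI_one_pos (⊤ : SimpleGraph (Fin n)) 0).le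
  set P := GI (⊤ : SimpleGraph (Fin n)) 0 (fun _ => 1)
  have h1 : GI (⊤ : SimpleGraph (Fin n)) 0 (C3 (n := n)) =
      ∑ p ∈ Edg (⊤ : SimpleGraph (Fin n)), GI (⊤ : SimpleGraph (Fin n)) 0 (fun x => yT (x p.1 - x p.2) ^ 3) :=
    GI_sum (⊤ : SimpleGraph (Fin n)) 0 (Edg (⊤ : SimpleGraph (Fin n))) (F := fun p x => yT (x p.1 - x p.2) ^ 3) (fun p _ => by
      have := cont_y p.1 p.2
      fun_prop)
  have h2 : (n:ℝ) ^ 3 * GI (⊤ : SimpleGraph (Fin n)) 0 (C3 (n := n)) ≤ (n:ℝ) ^ 2 / 2 * (1664000000 * P) := by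
    rw [h1, Finset.mul_sum]
    have h3 : ∀ p ∈ Edg (⊤ : SimpleGraph (Fin n)), (n:ℝ) ^ 3 * GI (⊤ : SimpleGraph (Fin n)) 0 (fun x => yT (x p.1 - x p.2) ^ 3) ≤
        1664000000 * P := fun p _ => edge_cube hn p.1 p.2
    refine (Finset.sum_le_sum h3).trans ?_
    rw [Finset.sum_const, nsmul_eq_mul]
    exact mul_le_mul_of_nonneg_right (card_pairs n) (by positivity)
  have h4 : (n:ℝ) ^ 2 * (n * GI (⊤ : SimpleGraph (Fin n)) 0 (C3 (n := n))) ≤ (n:ℝ) ^ 2 * (832000000 * P) := by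
    calc (n:ℝ) ^ 2 * (n * GI (⊤ : SimpleGraph (Fin n)) 0 (C3 (n := n))) = (n:ℝ) ^ 3 * GI (⊤ : SimpleGraph (Fin n)) 0 (C3 (n := n)) := by ring
      _ ≤ _ := h2
      _ = _ := by ring
  exact le_of_mul_le_mul_left h4 (by positivity)

lemma GI_PhiC (hn : 0 < n) :
    n * GI (⊤ : SimpleGraph (Fin n)) 0 (PhiC (n := n)) ≤ (3 / 4 * n + 1200000000) * GI (⊤ : SimpleGraph (Fin n)) 0 (fun _ => 1) := by
  have hnR : (0:ℝ) < n := by exact_mod_cast hn
  have hp := (GI_one_pos (⊤ : SimpleGraph (Fin n)) 0).le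
  set P := GI (⊤ : SimpleGraph (Fin n)) 0 (fun _ => 1) with hP
  have h1 : GI (⊤ : SimpleGraph (Fin n)) 0 (PhiC (n := n)) =
      (∑ p ∈ Edg (⊤ : SimpleGraph (Fin n)), GI (⊤ : SimpleGraph (Fin n)) 0 (fun x => yT (x p.1 - x p.2) ^ 2)) / 8 +
        GI (⊤ : SimpleGraph (Fin n)) 0 (C3 (n := n)) / 4 := by
    have e : (PhiC (n := n)) = fun x => 1 / 8 * (∑ p ∈ Edg (⊤ : SimpleGraph (Fin n)), yT (x p.1 - x p.2) ^ 2) +
        1 / 4 * C3 x := by
      funext x
      unfold PhiC C3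
      rw [Finset.sum_add_distrib, ← Finset.sum_div, ← Finset.sum_div]
      ring
    have c1 : Continuous (fun x : Fin n → TT => ∑ p ∈ Edg (⊤ : SimpleGraph (Fin n)), yT (x p.1 - x p.2) ^ 2) := by
      refine continuous_finsetSum _ fun p _ => ?_
      have := cont_y p.1 p.2
      fun_prop
    have c2 := continuous_C3 (n := n)
    rw [e, GI_add (⊤ : SimpleGraph (Fin n)) 0 (by fun_prop) (by fun_prop), GI_mul, GI_mul,
      GI_sum (⊤ : SimpleGraph (Fin n)) 0 (Edg (⊤ : SimpleGraph (Fin n))) (F := fun p x => yT (x p.1 - x p.2) ^ 2) (fun p _ => by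
      have := cont_y p.1 p.2
      fun_prop)]
    ring
  have h2 : (n:ℝ) ^ 3 * (∑ p ∈ Edg (⊤ : SimpleGraph (Fin n)), GI (⊤ : SimpleGraph (Fin n)) 0 (fun x => yT (x p.1 - x p.2) ^ 2)) ≤
      (n:ℝ) ^ 2 / 2 * ((12 * n + 15000000000) * P) := by
    rw [Finset.mul_sum]
    have h3 : ∀ p ∈ Edg (⊤ : SimpleGraph (Fin n)), (n:ℝ) ^ 3 * GI (⊤ : SimpleGraph (Fin n)) 0 (fun x => yT (x p.1 - x p.2) ^ 2) ≤
        (12 * n + 15000000000) * P := fun p hp => edge_sq hn (ne_of_mem hp)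
    refine (Finset.sum_le_sum h3).trans ?_
    rw [Finset.sum_const, nsmul_eq_mul]
    exact mul_le_mul_of_nonneg_right (card_pairs n) (by positivity)
  have h3 := GI_C3 hn
  rw [← hP] at h3
  have h4 : (n:ℝ) ^ 2 * (n * (∑ p ∈ Edg (⊤ : SimpleGraph (Fin n)), GI (⊤ : SimpleGraph (Fin n)) 0 (fun x => yT (x p.1 - x p.2) ^ 2))) ≤
      (n:ℝ) ^ 2 * ((6 * n + 7500000000) * P) := by
    refine le_trans (le_of_eq ?_) (h2.trans (le_of_eq ?_)) <;> ring
  have h5 := le_of_mul_le_mul_left h4 (by positivity)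
  rw [h1]
  nlinarith

/-- The sign lemma on the circle. -/
lemma sign_lemma_T (hn : Odd n) (x : Fin n → TT) (hx : ∀ i j, yT (x i - x j) ≤ 1 / 8) :
    ∏ p ∈ Edg (⊤ : SimpleGraph (Fin n)), |cT (x p.1 - x p.2)| = ∏ p ∈ Edg (⊤ : SimpleGraph (Fin n)), cT (x p.1 - x p.2) := by
  set z : Fin n := ⟨0, hn.pos⟩ with hz
  set ε : Fin n → ℝ := fun i => if 0 ≤ cT (x i - x z) then 1 else -1 with hε
  have hε1 : ∀ i, ε i = 1 ∨ ε i = -1 := by
    intro i
    rw [hε]
    dsimp only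
    split_ifs
    · exact Or.inl rfl
    · exact Or.inr rfl
  have hε2 : ∀ i, ε i * cT (x i - x z) = |cT (x i - x z)| := by
    intro i
    rw [hε]
    dsimp only
    split_ifs with h
    · rw [abs_of_nonneg h, one_mul]
    · rw [abs_of_neg (not_le.mp h)]; ring
  have hε3 : ∀ i j, |cT (x i - x j)| = (ε i * ε j) * cT (x i - x j) := by
    intro i j
    have h0 : cT (x i - x j) = cT (x i - x z) * cT (x j - x z) + sT (x i - x z) * sT (x j - x z) := by
      rw [← cT_sub, sub_sub_sub_cancel_right]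
    have h1 : (ε i * ε j) * cT (x i - x j) = |cT (x i - x z)| * |cT (x j - x z)| +
        (ε i * ε j) * (sT (x i - x z) * sT (x j - x z)) := by
      rw [h0, ← hε2 i, ← hε2 j]
      ring
    have h2 : |ε i * ε j| = 1 := by
      rcases hε1 i with h | h <;> rcases hε1 j with h' | h' <;> rw [h, h'] <;> norm_num
    have a1 := hx i z
    have a2 := hx j z
    unfold yT at a1 a2
    have h3 : |(ε i * ε j) * (sT (x i - x z) * sT (x j - x z))| ≤ 1 / 8 := by
      rw [abs_mul, h2, one_mul, abs_mul]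
      rw [← sq_abs] at a1 a2
      nlinarith [sq_nonneg (|sT (x i - x z)| - |sT (x j - x z)|)]
    have h4 : 7 / 8 ≤ |cT (x i - x z)| * |cT (x j - x z)| := by
      have b1 := cT_sq_add (x i - x z)
      have b2 := cT_sq_add (x j - x z)
      apply le_of_sq_le_sq _ (mul_nonneg (abs_nonneg _) (abs_nonneg _))
      rw [mul_pow, sq_abs, sq_abs]
      nlinarith
    have h5 : 0 ≤ (ε i * ε j) * cT (x i - x j) := by
      rw [h1]
      rw [abs_le] at h3
      linarith [h3.1]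
    rw [← abs_of_nonneg h5, abs_mul, h2, one_mul]
  have h6 : ∏ p ∈ Edg (⊤ : SimpleGraph (Fin n)), (ε p.1 * ε p.2) = 1 := by
    rw [← prod_pairs (fun i _ => ε i)]
    apply Finset.prod_eq_one
    intro i _
    obtain ⟨k, hk⟩ := hn
    have h7 : ∏ j, (if i = j then (1:ℝ) else ε i) = ε i ^ (2 * k) := by
      rw [Finset.prod_ite, Finset.prod_const_one, one_mul, Finset.prod_const]
      congr 1
      have h8 : (Finset.univ.filter (fun j => ¬ i = j)) = Finset.univ.erase i := by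
        ext j
        simp [eq_comm]
      rw [h8, Finset.card_erase_of_mem (Finset.mem_univ _), Finset.card_univ, Fintype.card_fin]
      omega
    rw [h7, pow_mul]
    have : ε i ^ 2 = 1 := by
      rcases hε1 i with h | h <;> rw [h] <;> norm_num
    rw [this, one_pow]
  calc ∏ p ∈ Edg (⊤ : SimpleGraph (Fin n)), |cT (x p.1 - x p.2)|
      = ∏ p ∈ Edg (⊤ : SimpleGraph (Fin n)), ((ε p.1 * ε p.2) * cT (x p.1 - x p.2)) :=
        Finset.prod_congr rfl fun p _ => hε3 p.1 p.2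
    _ = _ := by rw [Finset.prod_mul_distrib, h6, one_mul]

/-- Lower bound of the cosine. -/
lemma cos_lower {y : ℝ} (h0 : 0 ≤ y) (h1 : y ≤ 1 / 8) :
    ((1 - y / 2) * exp (-(y ^ 2 / 8 + y ^ 3 / 4))) ^ 2 ≤ 1 - y := by
  set z := y ^ 2 / 4 + y ^ 3 / 2 with hz
  have hz0 : 0 ≤ z := by positivity
  have hy2 : y ^ 2 ≤ y / 8 := by nlinarith
  have hy3 : y ^ 3 ≤ y ^ 2 / 8 := by nlinarith [sq_nonneg y]
  have hz1 : z ≤ y ^ 2 / 3 := by rw [hz]; nlinarith [sq_nonneg y]
  have h2 : exp (-z) ≤ 1 - z + z ^ 2 / 2 := by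
    have h3 := quadratic_le_exp_of_nonneg hz0
    rw [exp_neg, inv_le_comm₀ (exp_pos _) (by nlinarith)]
    refine le_trans ?_ h3
    rw [inv_le_iff_one_le_mul₀ (by nlinarith)]
    nlinarith [sq_nonneg (z ^ 2)]
  have e : ((1 - y / 2) * exp (-(y ^ 2 / 8 + y ^ 3 / 4))) ^ 2 = (1 - y / 2) ^ 2 * exp (-z) := by
    rw [mul_pow, ← exp_nat_mul]
    congr 2
    rw [hz]
    push_cast
    ring
  rw [e]
  have h3 : (1 - y / 2) ^ 2 * exp (-z) ≤ (1 - y / 2) ^ 2 * (1 - z + z ^ 2 / 2) :=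
    mul_le_mul_of_nonneg_left h2 (sq_nonneg _)
  refine h3.trans ?_
  -- it remains to show (1 - y + y²/4)(1 - z + z²/2) ≤ 1 - y
  have h4 : z ^ 2 / 2 ≤ z * (y ^ 2 / 6) := by nlinarith
  have h5 : y ^ 2 / 4 ≤ (1 - y + y ^ 2 / 4) * (z - z * (y ^ 2 / 6)) := by
    have h6 : 1 - y ≤ 1 - y + y ^ 2 / 4 := by nlinarith [sq_nonneg y]
    have h7 : 0 ≤ z - z * (y ^ 2 / 6) := by nlinarith [mul_nonneg hz0 (by nlinarith : (0:ℝ) ≤ 1 - y ^ 2 / 6)]
    have h8 : y ^ 2 / 4 ≤ (1 - y) * (z - z * (y ^ 2 / 6)) := by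
      have e2 : (1 - y) * (z - z * (y ^ 2 / 6)) =
          y ^ 2 / 4 * ((1 - y) * (1 + 2 * y) * (1 - y ^ 2 / 6)) := by rw [hz]; ring
      rw [e2]
      have h9 : 1 ≤ (1 - y) * (1 + 2 * y) * (1 - y ^ 2 / 6) := by
        have e3 : (1 - y) * (1 + 2 * y) = 1 + y - 2 * y ^ 2 := by ring
        rw [e3]
        nlinarith
      have h10 : 0 ≤ y ^ 2 / 4 := by positivity
      nlinarith
    exact h8.trans (mul_le_mul_of_nonneg_right h6 h7)
  nlinarith [sq_nonneg y]

lemma prod_MT_eq (x : Fin n → TT) :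
    exp (-(HG (⊤ : SimpleGraph (Fin n)) 0 x)) = ∏ p ∈ Edg (⊤ : SimpleGraph (Fin n)), (1 - yT (x p.1 - x p.2) / 2) := by
  unfold HG sE
  rw [← Finset.sum_neg_distrib, exp_sum]
  apply Finset.prod_congr rfl
  intro p _
  rw [exp_neg_hW (yT_le_one _), zero_mul, zero_div, neg_zero, exp_zero, mul_one]

/-- The pointwise comparison. -/
lemma pointwise_T (hn : Odd n) (x : Fin n → TT) :
    (exp (-(PhiC x)) - 1024 * C3 x) * exp (-(HG (⊤ : SimpleGraph (Fin n)) 0 x)) ≤
      ∏ p ∈ Edg (⊤ : SimpleGraph (Fin n)), cT (x p.1 - x p.2) := by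
  have hC3 : 0 ≤ C3 x := Finset.sum_nonneg fun p _ => pow_nonneg (yT_nonneg _) 3
  have hPhi : 0 ≤ PhiC x := Finset.sum_nonneg fun p _ => by
    have := yT_nonneg (x p.1 - x p.2)
    positivity
  have hexp := exp_pos (-(HG (⊤ : SimpleGraph (Fin n)) 0 x))
  by_cases hx : ∀ p ∈ Edg (⊤ : SimpleGraph (Fin n)), yT (x p.1 - x p.2) ≤ 1 / 8
  · have hx' : ∀ i j, yT (x i - x j) ≤ 1 / 8 := by
      intro i j
      rcases lt_trichotomy i j with h | h | h
      · exact hx (i, j) (by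
          unfold Edg
          rw [Finset.mem_filter]
          exact ⟨Finset.mem_univ _, h, h.ne⟩)
      · rw [h, sub_self, yT_zero]
        norm_num
      · rw [yT_sub_comm]
        exact hx (j, i) (by
          unfold Edg
          rw [Finset.mem_filter]
          exact ⟨Finset.mem_univ _, h, h.ne⟩)
    rw [← sign_lemma_T hn x hx']
    have h1 : (exp (-(PhiC x)) - 1024 * C3 x) * exp (-(HG (⊤ : SimpleGraph (Fin n)) 0 x)) ≤
        exp (-(PhiC x)) * exp (-(HG (⊤ : SimpleGraph (Fin n)) 0 x)) :=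
      mul_le_mul_of_nonneg_right (by linarith) hexp.le
    refine h1.trans ?_
    rw [prod_MT_eq]
    unfold PhiC
    rw [← Finset.sum_neg_distrib, exp_sum, ← Finset.prod_mul_distrib]
    apply Finset.prod_le_prod
    · intro p _
      have := yT_le_one (x p.1 - x p.2)
      exact mul_nonneg (exp_pos _).le (by linarith)
    · intro p hp
      apply abs_le_of_sq_le_sq' _ (abs_nonneg _) |>.2
      rw [sq_abs, cT_sq, mul_comm]
      exact cos_lower (yT_nonneg _) (hx p hp)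
  · push Not at hx
    obtain ⟨p, hp, hlt⟩ := hx
    have h1 : 1 / 512 ≤ C3 x := by
      have h2 : yT (x p.1 - x p.2) ^ 3 ≤ C3 x :=
        Finset.single_le_sum (f := fun p : Fin n × Fin n => yT (x p.1 - x p.2) ^ 3)
          (fun q _ => pow_nonneg (yT_nonneg _) 3) hp
      have h3 : (1 / 8 : ℝ) ^ 3 ≤ yT (x p.1 - x p.2) ^ 3 :=
        pow_le_pow_left₀ (by norm_num) hlt.le 3
      norm_num at h3
      linarith
    have h2 : exp (-(PhiC x)) ≤ 1 := by
      rw [exp_le_one_iff]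
      linarith
    have h3 : (exp (-(PhiC x)) - 1024 * C3 x) * exp (-(HG (⊤ : SimpleGraph (Fin n)) 0 x)) ≤
        (-1) * exp (-(HG (⊤ : SimpleGraph (Fin n)) 0 x)) := mul_le_mul_of_nonneg_right (by linarith) hexp.le
    refine h3.trans ?_
    have h4 : |∏ p ∈ Edg (⊤ : SimpleGraph (Fin n)), cT (x p.1 - x p.2)| ≤ exp (-(HG (⊤ : SimpleGraph (Fin n)) 0 x)) := by
      rw [Finset.abs_prod]
      unfold HG sE
      rw [← Finset.sum_neg_distrib, exp_sum]
      apply Finset.prod_le_prod (fun _ _ => abs_nonneg _)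
      intro q _
      refine (abs_cT_le _).trans ?_
      apply exp_le_exp.mpr
      unfold hW
      have : 0 ≤ yT (x q.1 - x q.2) ^ 2 := sq_nonneg _
      linarith
    have := (abs_le.mp h4).1
    linarith

/-- **The clique comparison**: the integral of the product of cosines over the clique. -/
theorem clique_lower (hn : Odd n) :
    ZK (MT (1 / 2)) n * (exp (-(3 / 4)) * (1 - 4000000000000 / n)) ≤ ZK cT n := by
  have hn0 : 0 < n := hn.pos
  have hnR : (0:ℝ) < n := by exact_mod_cast hn0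
  have cP := continuous_PhiC (n := n)
  have cC := continuous_C3 (n := n)
  have cH := continuous_HG (⊤ : SimpleGraph (Fin n)) 0
  have hp := GI_one_pos (⊤ : SimpleGraph (Fin n)) 0
  have e0 : ZK (MT (1 / 2)) n = GI (⊤ : SimpleGraph (Fin n)) 0 (fun _ => 1) := (GI_zero_eq (⊤ : SimpleGraph (Fin n))).symm
  rw [e0]
  set P := GI (⊤ : SimpleGraph (Fin n)) 0 (fun _ => 1) with hP
  have h1 : GI (⊤ : SimpleGraph (Fin n)) 0 (fun x => exp (-(PhiC x)) - 1024 * C3 x) ≤ ZK cT n := by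
    unfold GI ZK ZG
    apply integral_mono (integrable_cont (by fun_prop))
      (integrable_cont (continuous_prodE _ continuous_cT))
    intro x
    exact pointwise_T hn x
  rw [GI_sub (⊤ : SimpleGraph (Fin n)) 0 (by fun_prop) (by fun_prop), GI_mul] at h1
  -- Jensen
  set a := GI (⊤ : SimpleGraph (Fin n)) 0 (PhiC (n := n)) / P with ha
  have h2 : exp (-a) * P ≤ GI (⊤ : SimpleGraph (Fin n)) 0 (fun x => exp (-(PhiC x))) := by
    have h3 : GI (⊤ : SimpleGraph (Fin n)) 0 (fun x => exp (-a) * ((1 + a) - 1 * PhiC x)) ≤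
        GI (⊤ : SimpleGraph (Fin n)) 0 (fun x => exp (-(PhiC x))) := by
      apply GI_mono (⊤ : SimpleGraph (Fin n)) 0 (by fun_prop) (by fun_prop)
      intro x
      have h3 := add_one_le_exp (a - PhiC x)
      have h4 : exp (-(PhiC x)) = exp (-a) * exp (a - PhiC x) := by
        rw [← exp_add]; congr 1; ring
      rw [h4]
      apply mul_le_mul_of_nonneg_left _ (exp_pos _).le
      linarith
    refine le_trans (le_of_eq ?_) h3
    rw [GI_mul, GI_sub (⊤ : SimpleGraph (Fin n)) 0 continuous_const (by fun_prop), GI_mul]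
    have h5 : GI (⊤ : SimpleGraph (Fin n)) 0 (fun _ => 1 + a) = (1 + a) * P := by
      have := GI_mul (⊤ : SimpleGraph (Fin n)) 0 (1 + a) (fun _ => 1)
      simpa using this
    have h6 : GI (⊤ : SimpleGraph (Fin n)) 0 (PhiC (n := n)) = a * P := by
      rw [ha]; field_simp
    rw [h5]
    have h7 : GI (⊤ : SimpleGraph (Fin n)) 0 (fun x => PhiC x) = a * P := h6
    rw [h7]
    ring
  have h3 := GI_C3 hn0
  have h4 := GI_PhiC hn0
  rw [← hP] at h3 h4
  have ha1 : a ≤ 3 / 4 + 1200000000 / n := by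
    rw [ha, div_le_iff₀ hp]
    have h5 : GI (⊤ : SimpleGraph (Fin n)) 0 (PhiC (n := n)) ≤ (3 / 4 * n + 1200000000) * P / n := by
      rw [le_div_iff₀ hnR]
      linarith
    refine h5.trans (le_of_eq ?_)
    field_simp
  have hC : GI (⊤ : SimpleGraph (Fin n)) 0 (C3 (n := n)) ≤ 832000000 / n * P := by
    rw [div_mul_eq_mul_div, le_div_iff₀ hnR]
    linarith
  have hC' : GI (⊤ : SimpleGraph (Fin n)) 0 (fun x => C3 x) ≤ 832000000 / n * P := hC
  have h5 : exp (-(3 / 4)) * (1 - 1200000000 / n) ≤ exp (-a) := by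
    have h6 : exp (-(3 / 4)) * exp (-(1200000000 / n)) ≤ exp (-a) := by
      rw [← exp_add]
      apply exp_le_exp.mpr
      linarith
    have h7 := add_one_le_exp (-(1200000000 / (n:ℝ)))
    refine le_trans ?_ h6
    apply mul_le_mul_of_nonneg_left _ (exp_pos _).le
    linarith
  have h6 : 1 / 3 ≤ exp (-(3 / 4)) := by
    rw [exp_neg, one_div]
    apply inv_anti₀ (exp_pos _)
    have h7 : exp (3 / 4) ≤ exp 1 := exp_le_exp.mpr (by norm_num)
    linarith [exp_one_lt_three']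
  have h7 : P * (exp (-(3 / 4)) * (1 - 4000000000000 / n)) ≤
      exp (-a) * P - 1024 * (832000000 / n * P) := by
    have h8 : exp (-(3 / 4)) * (1 - 4000000000000 / n) ≤ exp (-a) - 1024 * (832000000 / n) := by
      have h9 : exp (-(3 / 4)) * (1 - 4000000000000 / n) =
          exp (-(3 / 4)) * (1 - 1200000000 / n) - exp (-(3 / 4)) * (3998800000000 / n) := by ring
      have h10 : 1 / 3 * (3998800000000 / (n:ℝ)) ≤ exp (-(3 / 4)) * (3998800000000 / n) :=
        mul_le_mul_of_nonneg_right h6 (by positivity)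
      have h11 : 1024 * (832000000 / (n:ℝ)) ≤ 1 / 3 * (3998800000000 / n) := by
        have e1 : 1024 * (832000000 / (n:ℝ)) = 851968000000 / n := by ring
        have e2 : 1 / 3 * (3998800000000 / (n:ℝ)) = (3998800000000 / 3) / n := by ring
        rw [e1, e2]
        exact div_le_div_of_nonneg_right (by norm_num) hnR.le
      linarith
    have := mul_le_mul_of_nonneg_left h8 hp.le
    linarith
  linarith

end Clique

end Pool.Agent.MP_a3e05c_co
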