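import Pool.Agent.Lib.MP_a3e05c_co.Sharp.Limit

set_option autoImplicit false

/-! The counting formula for Eulerian orientations and the clique theorem for integrals over
products of circles. -/

namespace Pool.Agent.MP_a3e05c_co

open MeasureTheory Finset Filter Topology
open scoped Real NNReal

lemma cT_toAddCircle {m : ℕ} [NeZero m] (a b : ZMod m) :
    cT (ZMod.toAddCircle a - ZMod.toAddCircle b) = kc a b := by
  unfold cT kc ch
  rw [← map_sub, ZMod.stdAddChar_apply]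
  rfl

lemma sT_toAddCircle {m : ℕ} [NeZero m] (a b : ZMod m) :
    sT (ZMod.toAddCircle a - ZMod.toAddCircle b) = ks a b := by
  unfold sT ks ch
  rw [← map_sub, ZMod.stdAddChar_apply]
  rfl

/-- The kernel `1 - τ sin²`. -/
noncomputable def WT {m : ℕ} [NeZero m] (τ : ℝ≥0) (a b : ZMod m) : ℝ≥0 :=
  Real.toNNReal (1 - τ * ks a b ^ 2)

lemma ks_sq_le_one {m : ℕ} [NeZero m] (a b : ZMod m) : ks a b ^ 2 ≤ 1 := by
  nlinarith [kc_sq_add_ks_sq a b, sq_nonneg (kc a b)]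

lemma WT_coe {m : ℕ} [NeZero m] {τ : ℝ≥0} (hτ : τ ≤ 1) (a b : ZMod m) :
    ((WT τ a b : ℝ≥0) : ℝ) = (1 - τ) + τ * kc a b ^ 2 := by
  unfold WT
  have h1 : (τ:ℝ) ≤ 1 := by exact_mod_cast hτ
  have h2 := ks_sq_le_one a b
  have h3 := sq_nonneg (ks a b)
  have h4 : (0:ℝ) ≤ τ := τ.coe_nonneg
  rw [Real.coe_toNNReal _ (by nlinarith)]
  have := kc_sq_add_ks_sq a b
  nlinarith

lemma WT_form {m : ℕ} [NeZero m] {τ : ℝ≥0} (hτ : τ ≤ 1) (F G : ZMod m → ℝ≥0) :
    ((av fun x => av fun y => F x * G y * WT τ x y : ℝ≥0) : ℝ) =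
      (1 - τ) * (avR (fun x => (F x : ℝ)) * avR (fun y => (G y : ℝ))) +
        τ * (avR (fun x => (F x : ℝ) * (ch x).re ^ 2) * avR (fun y => (G y : ℝ) * (ch y).re ^ 2) +
        2 * (avR (fun x => (F x : ℝ) * ((ch x).re * (ch x).im)) *
          avR (fun y => (G y : ℝ) * ((ch y).re * (ch y).im))) +
        avR (fun x => (F x : ℝ) * (ch x).im ^ 2) * avR (fun y => (G y : ℝ) * (ch y).im ^ 2)) := by
  rw [av_coe]
  have h1 : ∀ x : ZMod m, ((av fun y => F x * G y * WT τ x y : ℝ≥0) : ℝ) =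
      (1 - τ) * ((F x : ℝ) * avR (fun y => (G y : ℝ))) +
        τ * (((F x : ℝ) * (ch x).re ^ 2) * avR (fun y => (G y : ℝ) * (ch y).re ^ 2) +
        2 * (((F x : ℝ) * ((ch x).re * (ch x).im)) *
          avR (fun y => (G y : ℝ) * ((ch y).re * (ch y).im))) +
        ((F x : ℝ) * (ch x).im ^ 2) * avR (fun y => (G y : ℝ) * (ch y).im ^ 2)) := by
    intro x
    rw [av_coe, ← avR_mul_left (F x : ℝ), ← avR_mul_left ((F x : ℝ) * (ch x).re ^ 2),
      ← avR_mul_left ((F x : ℝ) * ((ch x).re * (ch x).im)),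
      ← avR_mul_left ((F x : ℝ) * (ch x).im ^ 2), ← avR_mul_left 2, ← avR_add, ← avR_add,
      ← avR_mul_left (1 - (τ:ℝ)), ← avR_mul_left (τ:ℝ), ← avR_add]
    apply avR_congr
    intro y
    push_cast
    rw [WT_coe hτ, kc_eq]
    ring
  simp_rw [h1]
  rw [avR_add, avR_mul_left, avR_mul_left, avR_add, avR_add, avR_mul_left]
  have h2 : ∀ (f : ZMod m → ℝ) (c : ℝ), avR (fun x => f x * c) = avR f * c := by
    intro f c
    have : (fun x => f x * c) = fun x => c * f x := by funext x; ring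
    rw [this, avR_mul_left]; ring
  rw [h2, h2, h2, h2]

lemma form_cs {p q : ℝ} (hp : 0 ≤ p) (hq : 0 ≤ q) (a0 a1 a2 a3 b0 b1 b2 b3 : ℝ) :
    (p * (a0 * b0) + q * (a1 * b1 + 2 * (a2 * b2) + a3 * b3)) ^ 2 ≤
      (p * (a0 * a0) + q * (a1 * a1 + 2 * (a2 * a2) + a3 * a3)) *
        (p * (b0 * b0) + q * (b1 * b1 + 2 * (b2 * b2) + b3 * b3)) := by
  have h : (p * (a0 * a0) + q * (a1 * a1 + 2 * (a2 * a2) + a3 * a3)) *
        (p * (b0 * b0) + q * (b1 * b1 + 2 * (b2 * b2) + b3 * b3)) -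
      (p * (a0 * b0) + q * (a1 * b1 + 2 * (a2 * b2) + a3 * b3)) ^ 2 =
      p * q * ((a0 * b1 - a1 * b0) ^ 2 + 2 * (a0 * b2 - a2 * b0) ^ 2 + (a0 * b3 - a3 * b0) ^ 2) +
      q * q * (2 * (a1 * b2 - a2 * b1) ^ 2 + (a1 * b3 - a3 * b1) ^ 2 +
        2 * (a2 * b3 - a3 * b2) ^ 2) := by
    ring
  have h2 : 0 ≤ p * q * ((a0 * b1 - a1 * b0) ^ 2 + 2 * (a0 * b2 - a2 * b0) ^ 2 +
      (a0 * b3 - a3 * b0) ^ 2) +
      q * q * (2 * (a1 * b2 - a2 * b1) ^ 2 + (a1 * b3 - a3 * b1) ^ 2 +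
        2 * (a2 * b3 - a3 * b2) ^ 2) := by positivity
  linarith

lemma isPos_WT {m : ℕ} [NeZero m] {τ : ℝ≥0} (hτ : τ ≤ 1) :
    IsPos (WT τ : ZMod m → ZMod m → ℝ≥0) where
  symm x y := by
    apply NNReal.eq
    rw [WT_coe hτ, WT_coe hτ, kc_comm]
  cs F G := by
    rw [← NNReal.coe_le_coe]
    push_cast
    rw [WT_form hτ, WT_form hτ, WT_form hτ]
    have h1 : (τ:ℝ) ≤ 1 := by exact_mod_cast hτ
    exact form_cs (by linarith) τ.coe_nonneg _ _ _ _ _ _ _ _

section Graph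

variable {V : Type*} [Fintype V] [DecidableEq V] [LinearOrder V]
variable (G : SimpleGraph V) [DecidableRel G.Adj]

/-- Integral of the product over the edges of a function of the difference. -/
noncomputable def ZG (f : TT → ℝ) : ℝ := ∫ x : V → TT, ∏ p ∈ Edg G, f (x p.1 - x p.2)

/-- The clique integral. -/
noncomputable def ZK (f : TT → ℝ) (n : ℕ) : ℝ := ZG (⊤ : SimpleGraph (Fin n)) f

variable {f : TT → ℝ}

lemma continuous_prodE (hf : Continuous f) :
    Continuous (fun x : V → TT => ∏ p ∈ Edg G, f (x p.1 - x p.2)) :=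
  continuous_finsetProd _ fun p _ =>
    hf.comp ((continuous_apply p.1).sub (continuous_apply p.2))

/-- The number of Eulerian orientations as an integral. -/
theorem EO_eq_integral : (EO V G : ℝ) = 2 ^ (Edg G).card * ZG G cT := by
  have h1 := tendsto_avR (continuous_prodE G continuous_cT)
  have h2 : Tendsto (fun m : ℕ => avR (fun j : V → ZMod (m + 1) =>
      ∏ p ∈ Edg G, cT (tau (m + 1) j p.1 - tau (m + 1) j p.2))) atTop
      (𝓝 ((EO V G : ℝ) / 2 ^ (Edg G).card)) := by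
    apply tendsto_const_nhds.congr'
    rw [Filter.EventuallyEq, eventually_atTop]
    refine ⟨Finset.univ.sup (fun v => G.degree v), fun m hm => ?_⟩
    have hdeg : ∀ v, G.degree v < m + 1 := by
      intro v
      have := Finset.le_sup (f := fun v => G.degree v) (Finset.mem_univ v)
      omega
    rw [← avR_prod_kc G hdeg]
    apply avR_congr
    intro j
    apply Finset.prod_congr rfl
    intro p _
    unfold tau
    rw [cT_toAddCircle]
  have h3 := tendsto_nhds_unique h1 h2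
  unfold ZG
  rw [h3]
  field_simp

/-- The kernel `1 - τ sin²` on the circle. -/
noncomputable def MT (τ : ℝ) (t : TT) : ℝ := 1 - τ * yT t

lemma continuous_MT (τ : ℝ) : Continuous (MT τ) :=
  continuous_const.sub (continuous_const.mul continuous_yT)

lemma MT_nonneg {τ : ℝ} (h1 : τ ≤ 1) (t : TT) : 0 ≤ MT τ t := by
  unfold MT
  have := yT_nonneg t
  have := yT_le_one t
  rcases le_or_gt 0 τ with h | h <;> nlinarith

lemma WT_tau {m : ℕ} [NeZero m] {τ : ℝ≥0} (hτ : τ ≤ 1) (a b : ZMod m) :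
    ((WT τ a b : ℝ≥0) : ℝ) = MT τ (ZMod.toAddCircle a - ZMod.toAddCircle b) := by
  rw [WT_coe hτ]
  unfold MT yT
  rw [sT_toAddCircle]
  have := kc_sq_add_ks_sq a b
  nlinarith

lemma hom_coe {m : ℕ} [NeZero m] {τ : ℝ≥0} (hτ : τ ≤ 1) :
    ((hom G (WT τ : ZMod m → ZMod m → ℝ≥0) Finset.univ (fun _ _ => 1) : ℝ≥0) : ℝ) =
      avR (fun j : V → ZMod m => ∏ p ∈ Edg G, MT τ (tau m j p.1 - tau m j p.2)) := by
  unfold hom
  rw [av_coe]
  apply avR_congr
  intro x
  have h1 : ham G (WT τ : ZMod m → ZMod m → ℝ≥0) Finset.univ x =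
      ∏ p ∈ Edg G, WT τ (x p.1) (x p.2) := by
    unfold ham Edg
    rw [Finset.prod_filter, ← Finset.univ_product_univ, Finset.prod_product]
  rw [h1, Finset.prod_const_one, one_mul]
  push_cast
  apply Finset.prod_congr rfl
  intro p _
  rw [WT_tau hτ]
  rfl

lemma N_coe {m : ℕ} [NeZero m] {τ : ℝ≥0} (hτ : τ ≤ 1) (n : ℕ) :
    ((N (WT τ : ZMod m → ZMod m → ℝ≥0) n (fun _ => 1) : ℝ≥0) : ℝ) =
      avR (fun j : Fin n → ZMod m => ∏ p ∈ Edg (⊤ : SimpleGraph (Fin n)),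
        MT τ (tau m j p.1 - tau m j p.2)) := by
  have h := hom_top (isPos_WT hτ) (Finset.univ : Finset (Fin n)) (fun _ : ZMod m => 1)
  rw [Finset.card_univ, Fintype.card_fin] at h
  rw [← h]
  exact hom_coe (⊤ : SimpleGraph (Fin n)) hτ

/-- **Clique theorem** for the kernel `1 - τ sin²` on the circle. -/
theorem clique_integral {τ : ℝ} (h0 : 0 ≤ τ) (h1 : τ ≤ 1) :
    ZG G (MT τ) ≤ ∏ v, ZK (MT τ) (G.degree v + 1) ^ (1 / ((G.degree v : ℝ) + 1)) := by
  lift τ to ℝ≥0 using h0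
  have hτ : τ ≤ 1 := by exact_mod_cast h1
  have hL := tendsto_avR (continuous_prodE G (continuous_MT τ))
  have hR : Tendsto (fun m : ℕ => ∏ v : V, (avR (fun j : Fin (G.degree v + 1) → ZMod (m + 1) =>
      ∏ p ∈ Edg (⊤ : SimpleGraph (Fin (G.degree v + 1))),
        MT τ (tau (m + 1) j p.1 - tau (m + 1) j p.2))) ^ (1 / ((G.degree v : ℝ) + 1))) atTop
      (𝓝 (∏ v, ZK (MT τ) (G.degree v + 1) ^ (1 / ((G.degree v : ℝ) + 1)))) := by
    apply tendsto_finsetProd
    intro v _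
    have h := tendsto_avR (continuous_prodE (⊤ : SimpleGraph (Fin (G.degree v + 1)))
      (continuous_MT τ))
    exact h.rpow_const (Or.inr (by positivity))
  refine le_of_tendsto_of_tendsto' hL hR fun m => ?_
  have h := clique_theorem G (isPos_WT (m := m + 1) hτ) _ Finset.univ rfl (fun _ _ => 1)
  have h' := NNReal.coe_le_coe.mpr h
  rw [hom_coe G hτ] at h'
  refine h'.trans (le_of_eq ?_)
  push_cast
  apply Finset.prod_congr rfl
  intro v _
  rw [degIn_univ, N_coe hτ]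

end Graph

end Pool.Agent.MP_a3e05c_co
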