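import Pool.Agent.Lib.MP_a3e05c_co.Sharp.Split

set_option autoImplicit false

/-!
# MP_a3e05c_co: reduction to regular graphs without complete components
-/

namespace Pool.Agent.MP_a3e05c_co

open Finset

/-- `G` is a disjoint union of complete graphs. -/
def IsCliqueUnion {V : Type*} (G : SimpleGraph V) : Prop :=
  ∀ u v w, G.Adj u v → G.Adj v w → u ≠ w → G.Adj u w

section

variable {V : Type} [Fintype V] [DecidableEq V] {G : SimpleGraph V} [DecidableRel G.Adj] {d : ℕ}

theorem degree_sub (p : V → Prop) [DecidablePred p] (hp : ∀ u w, G.Adj u w → (p u ↔ p w))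
    (a : {v // p v}) : (sub G p).degree a = G.degree a.1 := by
  rw [← SimpleGraph.card_neighborFinset_eq_degree, ← SimpleGraph.card_neighborFinset_eq_degree]
  refine Finset.card_bij (fun b _ => b.1) ?_ ?_ ?_
  · intro b hb
    rw [SimpleGraph.mem_neighborFinset] at hb ⊢
    exact hb
  · intro b _ c _ hbc
    exact Subtype.ext hbc
  · intro b hb
    rw [SimpleGraph.mem_neighborFinset] at hb
    refine ⟨⟨b, (hp _ _ hb).1 a.2⟩, ?_, rfl⟩
    rw [SimpleGraph.mem_neighborFinset]
    exact hb

theorem neighborFinset_of_clique (hG : ∀ v, G.degree v = d) {S : Finset V} (hS : S.card = d + 1)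
    (hcl : G.IsClique (S : Set V)) {u : V} (hu : u ∈ S) : G.neighborFinset u = S.erase u := by
  symm
  apply Finset.eq_of_subset_of_card_le
  · intro w hw
    obtain ⟨h1, h2⟩ := Finset.mem_erase.1 hw
    rw [SimpleGraph.mem_neighborFinset]
    exact hcl hu h2 h1.symm
  · rw [SimpleGraph.card_neighborFinset_eq_degree, hG u, Finset.card_erase_of_mem hu, hS]
    simp

theorem EO_sub_clique (p : V → Prop) [DecidablePred p]
    (hcl : ∀ u w, p u → p w → u ≠ w → G.Adj u w) (hcard : Fintype.card {v // p v} = d + 1) :
    EO {v // p v} (sub G p) = EO (Fin (d + 1)) ⊤ := by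
  refine EO_congr (Fintype.equivFinOfCardEq hcard) fun u w => ?_
  rw [SimpleGraph.top_adj, sub_adj]
  constructor
  · intro h h1
    exact h.ne (congrArg Subtype.val ((Fintype.equivFinOfCardEq hcard).injective h1))
  · intro h
    refine hcl _ _ u.2 w.2 fun h1 => h ?_
    rw [Subtype.ext h1]

theorem EO_empty [IsEmpty V] (G : SimpleGraph V) [DecidableRel G.Adj] : EO V G = 1 := by
  unfold EO
  rw [Finset.filter_true_of_mem]
  · simp
  · intro o _
    exact ⟨fun u => isEmptyElim u, fun u => isEmptyElim u, fun u => isEmptyElim u⟩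

end

/-- From graphs without complete components to all regular graphs. -/
theorem exact_of_noClique {d : ℕ} (hR : 0 < EO (Fin (d + 1)) ⊤)
    (hcore : ∀ (V : Type) [Fintype V] [DecidableEq V] (G : SimpleGraph V) [DecidableRel G.Adj],
      (∀ v, G.degree v = d) → (∀ S : Finset V, S.card = d + 1 → ¬ G.IsClique (S : Set V)) →
      Nonempty V →
      (EO V G : ℝ) < (EO (Fin (d + 1)) ⊤ : ℝ) ^ ((Fintype.card V : ℝ) / (d + 1))) :
    ∀ (n : ℕ) (V : Type) [Fintype V] [DecidableEq V] (G : SimpleGraph V) [DecidableRel G.Adj],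
      Fintype.card V = n → (∀ v, G.degree v = d) →
      (EO V G : ℝ) ≤ (EO (Fin (d + 1)) ⊤ : ℝ) ^ ((Fintype.card V : ℝ) / (d + 1)) ∧
      ((EO V G : ℝ) = (EO (Fin (d + 1)) ⊤ : ℝ) ^ ((Fintype.card V : ℝ) / (d + 1)) ↔
        IsCliqueUnion G) := by
  classical
  intro n
  induction n using Nat.strong_induction_on with
  | _ n ih =>
    intro V _ _ G _ hn hG
    by_cases hcl : ∃ S : Finset V, S.card = d + 1 ∧ G.IsClique (S : Set V)
    · obtain ⟨S, hS, hSc⟩ := hcl
      obtain ⟨p, hp⟩ : ∃ p : V → Prop, ∀ v, p v ↔ v ∈ S := ⟨fun v => v ∈ S, fun v => Iff.rfl⟩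
      have hpp : ∀ u w, G.Adj u w → (p u ↔ p w) := by
        have h1 : ∀ u w, G.Adj u w → p u → p w := by
          intro u w hadj hu
          have h2 := neighborFinset_of_clique hG hS hSc ((hp u).1 hu)
          have h3 : w ∈ G.neighborFinset u := by rwa [SimpleGraph.mem_neighborFinset]
          rw [h2] at h3
          exact (hp w).2 (Finset.mem_erase.1 h3).2
        exact fun u w hadj => ⟨h1 u w hadj, h1 w u hadj.symm⟩
      have hcard1 : Fintype.card {v // p v} = d + 1 := by
        rw [Fintype.card_subtype, ← hS]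
        congr 1
        ext v
        simp [hp]
      have hcard2 : Fintype.card {v // ¬ p v} + (d + 1) = n := by
        rw [Fintype.card_subtype_compl, hcard1, hn]
        have : d + 1 ≤ n := by
          rw [← hS, ← hn]
          exact Finset.card_le_univ S
        omega
      have hsplit := EO_split (G := G) p hpp
      rw [EO_sub_clique p (fun u w hu hw hne => hSc ((hp u).1 hu) ((hp w).1 hw) hne) hcard1]
        at hsplit
      have hG' : ∀ a : {v // ¬ p v}, (sub G fun v => ¬ p v).degree a = d := by
        intro a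
        rw [degree_sub _ (fun u w h => not_congr (hpp u w h)) a]
        exact hG a.1
      obtain ⟨ih1, ih2⟩ := ih (Fintype.card {v // ¬ p v}) (by omega) {v // ¬ p v}
        (sub G fun v => ¬ p v) rfl hG'
      have hR' : (0 : ℝ) < (EO (Fin (d + 1)) ⊤ : ℝ) := by exact_mod_cast hR
      have hexp : (EO (Fin (d + 1)) ⊤ : ℝ) ^ ((Fintype.card V : ℝ) / (d + 1)) =
          (EO (Fin (d + 1)) ⊤ : ℝ) *
            (EO (Fin (d + 1)) ⊤ : ℝ) ^ ((Fintype.card {v // ¬ p v} : ℝ) / (d + 1)) := by
        have h1 : ((Fintype.card V : ℝ) / (d + 1)) =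
            1 + ((Fintype.card {v // ¬ p v} : ℝ) / (d + 1)) := by
          have h2 : (Fintype.card V : ℝ) = (Fintype.card {v // ¬ p v} : ℝ) + (d + 1) := by
            rw [hn, ← hcard2]
            push_cast
            ring
          rw [h2]
          field_simp
          ring
        rw [h1, Real.rpow_add hR', Real.rpow_one]
      rw [hexp, hsplit]
      push_cast
      refine ⟨mul_le_mul_of_nonneg_left ih1 hR'.le, ?_⟩
      rw [mul_right_inj' hR'.ne', ih2]
      constructor
      · intro h u v w huv hvw huw
        by_cases hu : p u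
        · have hw : p w := (hpp v w hvw).1 ((hpp u v huv).1 hu)
          exact hSc ((hp u).1 hu) ((hp w).1 hw) huw
        · have hv : ¬ p v := fun hv => hu ((hpp u v huv).2 hv)
          have hw : ¬ p w := fun hw => hv ((hpp v w hvw).2 hw)
          exact h ⟨u, hu⟩ ⟨v, hv⟩ ⟨w, hw⟩ huv hvw fun h1 => huw (congrArg Subtype.val h1)
      · intro h u v w huv hvw huw
        exact h u.1 v.1 w.1 huv hvw fun h1 => huw (Subtype.ext h1)
    · push Not at hcl
      rcases isEmpty_or_nonempty V with hV | hV
      · rw [EO_empty, Fintype.card_eq_zero]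
        simp only [Nat.cast_one, Nat.cast_zero, zero_div, Real.rpow_zero, le_refl, true_and,
          true_iff]
        exact fun u => isEmptyElim u
      · have h1 := hcore V G hG (fun S hS => hcl S hS) hV
        refine ⟨h1.le, ⟨fun h => absurd h h1.ne, fun h => ?_⟩⟩
        exfalso
        obtain ⟨v⟩ := hV
        refine hcl (insert v (G.neighborFinset v)) ?_ ?_
        · rw [Finset.card_insert_of_notMem (by simp), SimpleGraph.card_neighborFinset_eq_degree,
            hG v]
        · intro a ha b hb hab
          simp only [Finset.coe_insert, Set.mem_insert_iff, SetLike.mem_coe,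
            SimpleGraph.mem_neighborFinset] at ha hb
          rcases ha with rfl | ha
          · rcases hb with rfl | hb
            · exact absurd rfl hab
            · exact hb
          · rcases hb with rfl | hb
            · exact ha.symm
            · exact h a v b ha.symm hb hab

end Pool.Agent.MP_a3e05c_co
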