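import Pool.Agent.Lib.MP_a3e05c_co.Sharp.Upper
import Pool.Agent.Lib.MP_a3e05c_co.Sharp.CliqueC
import Pool.Agent.Lib.MP_a3e05c_co.Q.Gain

set_option autoImplicit false
set_option linter.unusedSectionVars false

/-! The exact bound for regular graphs without complete components, from Theorem Q. -/

namespace Pool.Agent.MP_a3e05c_co

open Real MeasureTheory Finset Filter Topology
open scoped NNReal

lemma WQ_eq_WT {m : ℕ} [NeZero m] : (WQ : ZMod m → ZMod m → ℝ≥0) = WT (1 / 2) := by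
  funext a b
  apply NNReal.eq
  rw [WQ_coe, WT_coe (by rw [div_le_iff₀ (by norm_num)]; norm_num)]
  push_cast
  ring

section Passage

variable {V : Type} [Fintype V] [DecidableEq V] [LinearOrder V]
variable (G : SimpleGraph V) [DecidableRel G.Adj]

lemma half_le_one : (1 / 2 : ℝ≥0) ≤ 1 := by
  rw [div_le_iff₀ (by norm_num)]; norm_num

/-- Passage to the limit in Theorem Q. -/
lemma ZG_le_of_discrete {d M : ℕ} {s : ℝ}
    (h : ∀ m : ℕ, M ≤ m → ∀ [NeZero m],
      (hom G (WQ : ZMod m → ZMod m → ℝ≥0) univ (fun _ _ => 1) : ℝ) ≤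
        s * (NQ m (d + 1) : ℝ) ^ ((Fintype.card V : ℝ) / (d + 1))) :
    ZG G (MT (1 / 2)) ≤ s * ZK (MT (1 / 2)) (d + 1) ^ ((Fintype.card V : ℝ) / (d + 1)) := by
  have hL := tendsto_avR (continuous_prodE G (continuous_MT (1 / 2)))
  have hR : Tendsto (fun m : ℕ => s * (avR (fun j : Fin (d + 1) → ZMod (m + 1) =>
      ∏ p ∈ Edg (⊤ : SimpleGraph (Fin (d + 1))),
        MT (1 / 2) (tau (m + 1) j p.1 - tau (m + 1) j p.2))) ^
          ((Fintype.card V : ℝ) / (d + 1))) atTop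
      (𝓝 (s * ZK (MT (1 / 2)) (d + 1) ^ ((Fintype.card V : ℝ) / (d + 1)))) := by
    have h := tendsto_avR (continuous_prodE (⊤ : SimpleGraph (Fin (d + 1)))
      (continuous_MT (1 / 2)))
    exact (h.rpow_const (Or.inr (by positivity))).const_mul s
  refine le_of_tendsto_of_tendsto hL hR ?_
  rw [Filter.EventuallyLE, eventually_atTop]
  refine ⟨M, fun m hm => ?_⟩
  have h1 := h (m + 1) (by omega)
  have h2 := hom_coe (m := m + 1) G half_le_one
  have h3 := N_coe (m := m + 1) half_le_one (d + 1)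
  unfold NQ at h1
  rw [WQ_eq_WT] at h1
  rw [h2, h3] at h1
  have e : (((1 / 2 : ℝ≥0) : ℝ≥0) : ℝ) = 1 / 2 := by push_cast; rfl
  rw [e] at h1
  exact h1

end Passage

/-- The number of Eulerian orientations of the complete graph, from below. -/
lemma EO_top_ge {d : ℕ} (hd : Even d) :
    (2:ℝ) ^ ((d:ℝ) * (d + 1) / 2) * (ZK (MT (1 / 2)) (d + 1) *
      (exp (-(3 / 4)) * (1 - 4000000000000 / ((d:ℝ) + 1)))) ≤ (EO (Fin (d + 1)) ⊤ : ℝ) := by
  have h1 := EO_eq_integral (⊤ : SimpleGraph (Fin (d + 1)))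
  have h2 : ((Edg (⊤ : SimpleGraph (Fin (d + 1)))).card : ℝ) = (d:ℝ) * (d + 1) / 2 := by
    have h3 := card_Edg_top (d + 1)
    have h4 : ((Edg (⊤ : SimpleGraph (Fin (d + 1)))).card : ℝ) * 2 = ((d + 1 : ℕ) : ℝ) * (d : ℝ) := by
      have : (Edg (⊤ : SimpleGraph (Fin (d + 1)))).card * 2 = (d + 1) * d := by
        rw [h3, Nat.add_sub_cancel]
      exact_mod_cast this
    push_cast at h4
    linarith
  have h3 := clique_lower (n := d + 1) (by exact hd.add_one)
  rw [← Real.rpow_natCast, h2] at h1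
  rw [h1]
  apply mul_le_mul_of_nonneg_left _ (by positivity)
  push_cast at h3
  exact h3

lemma ZK_pos (n : ℕ) : 0 < ZK (MT (1 / 2)) n := by
  have h := GI_one_pos (⊤ : SimpleGraph (Fin n)) 0
  rw [GI_zero_eq] at h
  exact h

lemma exp_le_one_sub {z : ℝ} (h0 : 0 ≤ z) (h1 : z ≤ 1 / 2) : exp (-(2 * z)) ≤ 1 - z := by
  rw [exp_neg]
  have h2 := add_one_le_exp (2 * z)
  have h3 : (exp (2 * z))⁻¹ ≤ (2 * z + 1)⁻¹ := inv_anti₀ (by linarith) h2
  refine h3.trans ?_
  rw [inv_le_iff_one_le_mul₀ (by linarith)]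
  nlinarith

/-- The number of Eulerian orientations of the complete graph, from below, second form. -/
lemma EO_top_ge' {d : ℕ} (hd : Even d) (hd1 : (8000000000000 : ℝ) ≤ d) :
    (2:ℝ) ^ ((d:ℝ) * (d + 1) / 2) * (ZK (MT (1 / 2)) (d + 1) *
      exp (-(3 / 4 + 8000000000000 / ((d:ℝ) + 1)))) ≤ (EO (Fin (d + 1)) ⊤ : ℝ) := by
  refine le_trans ?_ (EO_top_ge hd)
  apply mul_le_mul_of_nonneg_left _ (by positivity)
  apply mul_le_mul_of_nonneg_left _ (ZK_pos _).le
  have h1 : exp (-(3 / 4 + 8000000000000 / ((d:ℝ) + 1))) =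
      exp (-(3 / 4)) * exp (-(2 * (4000000000000 / ((d:ℝ) + 1)))) := by
    rw [← exp_add]; congr 1; ring
  rw [h1]
  apply mul_le_mul_of_nonneg_left _ (exp_pos _).le
  apply exp_le_one_sub (by positivity)
  rw [div_le_iff₀ (by positivity)]
  linarith

lemma EO_top_pos_large {d : ℕ} (hd : Even d) (hd1 : (8000000000000 : ℝ) ≤ d) :
    0 < EO (Fin (d + 1)) ⊤ := by
  have h := EO_top_ge' hd hd1
  have h2 : 0 < (2:ℝ) ^ ((d:ℝ) * (d + 1) / 2) * (ZK (MT (1 / 2)) (d + 1) *
      exp (-(3 / 4 + 8000000000000 / ((d:ℝ) + 1)))) :=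
    mul_pos (by positivity) (mul_pos (ZK_pos _) (exp_pos _))
  exact_mod_cast h2.trans_le h

/-- The exact bound for a regular graph whose majorant integral has a gain. -/
theorem EO_lt_of_gain {V : Type*} [Fintype V] [DecidableEq V] [LinearOrder V] [Nonempty V]
    (G : SimpleGraph V) [DecidableRel G.Adj] {d : ℕ} (hd : Even d)
    (hd1 : (8000000000000 : ℝ) ≤ d) (hG : ∀ v, G.degree v = d)
    (h : ZG G (MT (1 / 2)) ≤ exp (-(9000000000000 * Fintype.card V / (d:ℝ) ^ 2)) *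
      ZK (MT (1 / 2)) (d + 1) ^ ((Fintype.card V : ℝ) / (d + 1))) :
    (EO V G : ℝ) < (EO (Fin (d + 1)) ⊤ : ℝ) ^ ((Fintype.card V : ℝ) / (d + 1)) := by
  have hdpos : (0:ℝ) < d := by linarith
  have hn : (0:ℝ) < Fintype.card V := by exact_mod_cast Fintype.card_pos
  set n : ℝ := (Fintype.card V : ℝ) with hndef
  set P := ZK (MT (1 / 2)) (d + 1) with hP
  have hPpos : 0 < P := ZK_pos _
  -- lower bound of the right side
  have hlow := EO_top_ge' hd hd1
  rw [← hP] at hlow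
  have hlow2 := Real.rpow_le_rpow (by positivity) hlow (by positivity : 0 ≤ n / ((d:ℝ) + 1))
  refine lt_of_lt_of_le ?_ hlow2
  rw [Real.mul_rpow (by positivity) (by positivity), Real.mul_rpow hPpos.le (exp_pos _).le,
    ← Real.rpow_mul (by norm_num), ← Real.exp_mul]
  have he : (d:ℝ) * (d + 1) / 2 * (n / ((d:ℝ) + 1)) = n * d / 2 := by
    field_simp
  rw [he]
  -- upper bound of the left side
  have hup := EO_le_ZG G (δ := d) (Δ := d) (by linarith) (by linarith)
    (fun v => by rw [hG v]) (fun v => by rw [hG v])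
  have hcard : ((Edg G).card : ℝ) = n * d / 2 := by
    have h3 := sum_degree_eq G
    simp only [hG] at h3
    rw [Finset.sum_const, Finset.card_univ, smul_eq_mul] at h3
    have h4 : n * (d:ℝ) = 2 * ((Edg G).card : ℝ) := by
      rw [hndef]; exact_mod_cast h3
    linarith
  have hsum : ∑ v, 1 / ((G.degree v : ℝ) + 1) *
      (3 / 4 - 9 / 8 * (1 - (d:ℝ) / d) ^ 2 - 1600000 / d) =
      n / ((d:ℝ) + 1) * (3 / 4 - 1600000 / d) := by
    simp only [hG]
    rw [Finset.sum_const, Finset.card_univ, nsmul_eq_mul, div_self hdpos.ne']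
    rw [hndef]
    ring
  rw [hsum, ← Real.rpow_natCast, hcard] at hup
  refine lt_of_le_of_lt hup ?_
  apply mul_lt_mul_of_pos_left _ (by positivity)
  refine lt_of_le_of_lt (mul_le_mul_of_nonneg_left h (exp_pos _).le) ?_
  rw [← mul_assoc, ← exp_add, mul_comm]
  apply mul_lt_mul_of_pos_left _ (by positivity)
  apply exp_lt_exp.mpr
  have h5 : n / ((d:ℝ) + 1) * (1600000 / d) ≤ 1600000 * n / d ^ 2 := by
    rw [div_mul_div_comm, div_le_div_iff₀ (by positivity) (by positivity)]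
    nlinarith [mul_pos hn hdpos]
  have h6 : n / ((d:ℝ) + 1) * (8000000000000 / ((d:ℝ) + 1)) ≤ 8000000000000 * n / d ^ 2 := by
    rw [div_mul_div_comm, div_le_div_iff₀ (by positivity) (by positivity)]
    nlinarith [mul_pos hn hdpos]
  have h7 : 1600000 * n / (d:ℝ) ^ 2 + 8000000000000 * n / d ^ 2 < 9000000000000 * n / d ^ 2 := by
    rw [← add_div]
    apply div_lt_div_of_pos_right _ (by positivity)
    linarith
  nlinarith

/-- From Theorem Q to the exact bound for graphs without complete components. -/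
theorem core_of_TheoremQ (hQ : TheoremQ) : ∃ d₀ : ℕ, ∀ d : ℕ, d₀ ≤ d → Even d →
    0 < EO (Fin (d + 1)) ⊤ ∧
    ∀ (V : Type) [Fintype V] [DecidableEq V] (G : SimpleGraph V) [DecidableRel G.Adj],
      (∀ v, G.degree v = d) → (∀ S : Finset V, S.card = d + 1 → ¬ G.IsClique (S : Set V)) →
      Nonempty V →
      (EO V G : ℝ) < (EO (Fin (d + 1)) ⊤ : ℝ) ^ ((Fintype.card V : ℝ) / (d + 1)) := by
  obtain ⟨d₁, h⟩ := hQ 9000000000000 (by norm_num)
  refine ⟨max d₁ 8000000000000, fun d hd hev => ?_⟩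
  have hd1 : (8000000000000 : ℝ) ≤ d := by exact_mod_cast (le_max_right _ _).trans hd
  obtain ⟨M, hM⟩ := h d ((le_max_left _ _).trans hd)
  refine ⟨EO_top_pos_large hev hd1, ?_⟩
  intro V _ _ G _ hG hK hV
  let _ : LinearOrder V := LinearOrder.lift' (Fintype.equivFin V) (Fintype.equivFin V).injective
  exact EO_lt_of_gain G hev hd1 hG
    (ZG_le_of_discrete G fun m hm _ => hM m hm V G hG hK)

end Pool.Agent.MP_a3e05c_co
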