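import Pool.Agent.Lib.MP_a3e05c_co.Sharp.Graph

set_option autoImplicit false
set_option linter.unusedSectionVars false

/-! The lower bound of the fourth moment of an edge in a graph. -/

namespace Pool.Agent.MP_a3e05c_co

open Real MeasureTheory Finset

lemma continuousOn_hW (s : ℝ) : ContinuousOn (hW s) (Set.Iio 2) :=
  fun _ hy => (hasDerivAt_hW s hy).continuousAt.continuousWithinAt

lemma continuous_hWy (s : ℝ) : Continuous (fun t => hW s (yT t)) :=
  (continuousOn_hW s).comp_continuous continuous_yT fun t =>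
    lt_of_le_of_lt (yT_le_one t) (by norm_num)

section G

variable {V : Type*} [Fintype V] [DecidableEq V] [LinearOrder V]
variable (G : SimpleGraph V) [DecidableRel G.Adj]

/-- The Hamiltonian of the graph. -/
noncomputable def HG (s : ℝ) (x : V → TT) : ℝ := sE G (fun t => hW s (yT t)) x

lemma continuous_HG (s : ℝ) : Continuous (HG G s) := continuous_sE G (continuous_hWy s)

/-- The Gibbs integral. -/
noncomputable def GI (s : ℝ) (F : (V → TT) → ℝ) : ℝ := ∫ x, F x * exp (-(HG G s x))

lemma GI_int (s : ℝ) {F : (V → TT) → ℝ} (hF : Continuous F) :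
    Integrable (fun x => F x * exp (-(HG G s x))) :=
  integrable_cont (hF.mul (continuous_exp.comp (continuous_HG G s).neg))

lemma GI_add (s : ℝ) {F K : (V → TT) → ℝ} (hF : Continuous F) (hK : Continuous K) :
    GI G s (fun x => F x + K x) = GI G s F + GI G s K := by
  unfold GI
  rw [← integral_add (GI_int G s hF) (GI_int G s hK)]
  congr 1
  funext x
  ring

lemma GI_sub (s : ℝ) {F K : (V → TT) → ℝ} (hF : Continuous F) (hK : Continuous K) :
    GI G s (fun x => F x - K x) = GI G s F - GI G s K := by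
  unfold GI
  rw [← integral_sub (GI_int G s hF) (GI_int G s hK)]
  congr 1
  funext x
  ring

lemma GI_mul (s a : ℝ) (F : (V → TT) → ℝ) : GI G s (fun x => a * F x) = a * GI G s F := by
  unfold GI
  rw [← integral_const_mul]
  congr 1
  funext x
  ring

lemma GI_mono (s : ℝ) {F K : (V → TT) → ℝ} (hF : Continuous F) (hK : Continuous K)
    (h : ∀ x, F x ≤ K x) : GI G s F ≤ GI G s K := by
  unfold GI
  apply integral_mono (GI_int G s hF) (GI_int G s hK)
  intro x
  exact mul_le_mul_of_nonneg_right (h x) (exp_pos _).le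

lemma GI_nonneg (s : ℝ) {F : (V → TT) → ℝ} (h : ∀ x, 0 ≤ F x) : 0 ≤ GI G s F :=
  integral_nonneg fun x => mul_nonneg (h x) (exp_pos _).le

lemma GI_one_pos (s : ℝ) : 0 < GI G s (fun _ => 1) := by
  unfold GI
  simp only [one_mul]
  apply integral_exp_pos
  exact integrable_cont (continuous_exp.comp (continuous_HG G s).neg)

lemma GI_sum {ι : Type*} (s : ℝ) (A : Finset ι) {F : ι → (V → TT) → ℝ}
    (hF : ∀ i ∈ A, Continuous (F i)) :
    GI G s (fun x => ∑ i ∈ A, F i x) = ∑ i ∈ A, GI G s (F i) := by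
  unfold GI
  rw [← integral_finsetSum A fun i hi => GI_int G s (hF i hi)]
  congr 1
  funext x
  rw [Finset.sum_mul]

/-- The energy at a vertex. -/
noncomputable def Yv (u : V) (x : V → TT) : ℝ := sV G yT u x

lemma continuous_Yv (u : V) : Continuous (Yv G u) := continuous_sV G continuous_yT u

lemma NN_Iuv {u v : V} (h : G.Adj u v) :
    NN (Iuv G u v) = (G.degree u : ℝ) + G.degree v + 2 := by
  unfold NN Iuv
  rw [Fintype.card_sum, Fintype.card_coe, Fintype.card_coe]
  have h1 := card_nb G h
  have h2 := card_nb G h.symm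
  rw [← h1, ← h2]
  push_cast
  ring

lemma integral_period (f : ℝ → ℝ) :
    ∫ a in (0:ℝ)..1, f (2 * π * a) = (2 * π)⁻¹ * ∫ s in (0:ℝ)..(2 * π), f s := by
  rw [intervalIntegral.integral_comp_mul_left f (by positivity : (2 * π : ℝ) ≠ 0), smul_eq_mul,
    mul_zero, mul_one]

/-- Fourth moment of an edge. -/
theorem edge_bound {u v : V} (h : G.Adj u v) {N : ℝ}
    (hN : N = (G.degree u : ℝ) + G.degree v + 2) :
    48 / N ^ 2 * (GI G 1 (fun _ => 1) - 3400 / N * (GI G 1 (fun _ => 1) +
      GI G 1 (fun x => Yv G u x + Yv G v x + 2 * yT (x u - x v)))) ≤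
      GI G 1 (fun x => yT (x u - x v) ^ 2) := by
  have cy : Continuous (fun x : V → TT => yT (x u - x v)) :=
    continuous_yT.comp ((continuous_apply u).sub (continuous_apply v))
  have cu := continuous_Yv G u
  have cv := continuous_Yv G v
  have cH := continuous_HG G 1
  have hNN : NN (Iuv G u v) = N := by rw [NN_Iuv G h, hN]
  set A : ℝ := 48 / N ^ 2 with hA
  set B : ℝ := 3400 / N with hB
  have hA0 : 0 ≤ A := by positivity
  -- rewriting the left side
  have hL : A * (GI G 1 (fun _ => 1) - B * (GI G 1 (fun _ => 1) +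
      GI G 1 (fun x => Yv G u x + Yv G v x + 2 * yT (x u - x v)))) =
      GI G 1 (fun x => A * (1 - B * (1 + (Yv G u x + Yv G v x + 2 * yT (x u - x v))))) := by
    rw [GI_mul, GI_sub G 1 continuous_const (by fun_prop), GI_mul,
      GI_add G 1 continuous_const (by fun_prop)]
  rw [hL]
  unfold GI
  apply integral_line_mono (ι := ln u v) (by fun_prop) (by fun_prop) (continuous_ln u v)
  intro x
  obtain ⟨ξ, rfl⟩ := exists_li x
  set θ := 2 * π * (ξ u - ξ v) with hθ
  set c := cuv G ξ u v with hc
  set r := rest G (fun t => hW 1 (yT t)) u v (li ξ) with hr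
  have e1 : ∀ a : ℝ, HG G 1 (li ξ + ln u v (a : TT)) = HH θ c (2 * π * a) + r := by
    intro a
    unfold HG
    rw [line_sE G (hW 1) ξ h]
    rfl
  have e2 : ∀ a : ℝ, Yv G u (li ξ + ln u v (a : TT)) + Yv G v (li ξ + ln u v (a : TT)) +
      2 * yT ((li ξ + ln u v (a : TT)) u - (li ξ + ln u v (a : TT)) v) = SS θ c (2 * π * a) := by
    intro a
    have h2 := line_sV G (fun y => y) ξ h a
    have h3 := line_uv G ξ h a
    unfold Yv
    rw [h3]
    have h4 : sV G yT u (li ξ + ln u v (a : TT)) + sV G yT v (li ξ + ln u v (a : TT)) =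
        2 * y2 (2 * π * (ξ u - ξ v)) (2 * π * a) +
        ∑ i, sin (cuv G ξ u v i + 2 * π * a) ^ 2 := h2
    rw [h4]
    unfold SS AA
    ring
  have e3 : ∀ a : ℝ, yT ((li ξ + ln u v (a : TT)) u - (li ξ + ln u v (a : TT)) v) =
      y2 θ (2 * π * a) := fun a => line_uv G ξ h a
  rw [integral_TT, integral_TT]
  simp_rw [e1, e2, e3]
  rw [integral_period (fun s => A * (1 - B * (1 + SS θ c s)) * exp (-(HH θ c s + r))),
    integral_period (fun s => y2 θ s ^ 2 * exp (-(HH θ c s + r)))]
  apply mul_le_mul_of_nonneg_left _ (by positivity)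
  have e4 : ∀ f : ℝ → ℝ, ∫ s in (0:ℝ)..(2 * π), f s * exp (-(HH θ c s + r)) =
      exp (-r) * LL (HH θ c) f := by
    intro f
    unfold LL
    rw [← intervalIntegral.integral_const_mul]
    congr 1
    funext s
    rw [neg_add, exp_add]
    ring
  rw [e4, e4]
  apply mul_le_mul_of_nonneg_left _ (exp_pos _).le
  have h5 := one_dim θ c
  have cS := continuous_SS θ c
  have cHH := continuous_HH θ c
  have hp := LL_one_pos cHH
  rw [hNN, ← hA, ← hB] at h5
  rw [LL_mul, LL_sub cHH continuous_const (by fun_prop), LL_mul,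
    LL_add cHH continuous_const (by fun_prop)]
  unfold EE at h5
  rw [le_div_iff₀ hp] at h5
  refine le_trans (le_of_eq ?_) h5
  field_simp

end G

end Pool.Agent.MP_a3e05c_co
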