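import Pool.Agent.Lib.MP_a3e05c_co.Sharp.Star

set_option autoImplicit false
set_option linter.unusedSectionVars false

/-! The energy bound. -/

namespace Pool.Agent.MP_a3e05c_co

open Real MeasureTheory Finset

section Clique

variable {n : ℕ}

/-- The total energy on the clique. -/
noncomputable def Tn (x : Fin n → TT) : ℝ := sE (⊤ : SimpleGraph (Fin n)) yT x

/-- The star energies on the clique. -/
noncomputable def Rn (i : Fin n) (x : Fin n → TT) : ℝ := sV (⊤ : SimpleGraph (Fin n)) yT i x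

lemma continuous_Tn : Continuous (Tn (n := n)) := continuous_sE _ continuous_yT

lemma continuous_Rn (i : Fin n) : Continuous (Rn i) := continuous_sV _ continuous_yT i

lemma two_Tn (x : Fin n → TT) : 2 * Tn x = ∑ i, Rn i x := two_sE _ yT_neg x

lemma Rn_eq (i : Fin n) (x : Fin n → TT) : Rn i x = ∑ j ∈ Finset.univ.erase i, yT (x i - x j) := by
  unfold Rn sV
  rw [← Finset.add_sum_erase Finset.univ _ (Finset.mem_univ i)]
  rw [if_neg (SimpleGraph.loopless (⊤ : SimpleGraph (Fin n)) |>.irrefl i), zero_add]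
  apply Finset.sum_congr rfl
  intro j hj
  rw [if_pos]
  rw [SimpleGraph.top_adj]
  exact (Finset.ne_of_mem_erase hj).symm

lemma Rn_eq' (i : Fin n) (x : Fin n → TT) : Rn i x = ∑ j, yT (x i - x j) := by
  rw [Rn_eq, ← Finset.add_sum_erase Finset.univ _ (Finset.mem_univ i), sub_self, yT_zero, zero_add]

lemma Rn_nonneg (i : Fin n) (x : Fin n → TT) : 0 ≤ Rn i x := by
  rw [Rn_eq']
  exact Finset.sum_nonneg fun _ _ => yT_nonneg _

lemma Tn_nonneg (x : Fin n → TT) : 0 ≤ Tn x := by
  have h1 := two_Tn x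
  have h2 : 0 ≤ ∑ i, Rn i x := Finset.sum_nonneg fun i _ => Rn_nonneg i x
  linarith

lemma exists_small_Rn (hn : 0 < n) (x : Fin n → TT) : ∃ i, n * Rn i x ≤ 2 * Tn x := by
  have : Nonempty (Fin n) := ⟨⟨0, hn⟩⟩
  obtain ⟨i, -, hi⟩ := Finset.exists_min_image (Finset.univ : Finset (Fin n))
    (fun i => Rn i x) Finset.univ_nonempty
  refine ⟨i, ?_⟩
  rw [two_Tn]
  have : ∑ _j : Fin n, Rn i x ≤ ∑ j, Rn j x := Finset.sum_le_sum fun j hj => hi j hj
  rw [Finset.sum_const, Finset.card_univ, Fintype.card_fin, nsmul_eq_mul] at this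
  exact this

lemma Tn_le (i : Fin n) (x : Fin n → TT) : Tn x ≤ 2 * n * Rn i x := by
  have h1 := two_Tn x
  simp_rw [Rn_eq'] at h1
  have h2 : ∑ j, ∑ k, yT (x j - x k) ≤
      ∑ j, ∑ k, 2 * (yT (x i - x j) + yT (x i - x k)) :=
    Finset.sum_le_sum fun j _ => Finset.sum_le_sum fun k _ => yT_tri _ _ _
  have h3 : ∑ j, ∑ k, 2 * (yT (x i - x j) + yT (x i - x k)) = 4 * n * Rn i x := by
    rw [Rn_eq']
    simp_rw [← Finset.mul_sum, Finset.sum_add_distrib, Finset.sum_const, Finset.card_univ,
      Fintype.card_fin, nsmul_eq_mul, ← Finset.mul_sum]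
    ring
  rw [h3, ← h1] at h2
  linarith

lemma int_exp_Rn (l : ℝ) (i : Fin n) :
    ∫ x : Fin n → TT, exp (-(l * Rn i x)) = II l ^ (n - 1) := by
  have h := star_integral (g := fun t => exp (-(l * yT t))) (continuous_exp_yT l) i
  unfold II
  rw [← h]
  congr 1
  funext x
  rw [← exp_sum, Rn_eq, Finset.mul_sum, Finset.sum_neg_distrib]

/-- The integral of `exp (- l T)` over the clique. -/
lemma int_exp_Tn_le (hn : 0 < n) {l : ℝ} (hl : 0 ≤ l) :
    ∫ x : Fin n → TT, exp (-(l * Tn x)) ≤ n * II (l * n / 2) ^ (n - 1) := by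
  have h1 : ∀ x : Fin n → TT, exp (-(l * Tn x)) ≤
      ∑ i : Fin n, exp (-(l * n / 2 * Rn i x)) := by
    intro x
    obtain ⟨i, hi⟩ := exists_small_Rn hn x
    refine le_trans ?_ (Finset.single_le_sum (f := fun i : Fin n =>
      exp (-(l * n / 2 * Rn i x))) (fun j _ => (exp_pos _).le) (Finset.mem_univ i))
    apply exp_le_exp.mpr
    have := mul_le_mul_of_nonneg_left hi hl
    linarith
  have hc : ∀ i : Fin n, Continuous (fun x : Fin n → TT => exp (-(l * n / 2 * Rn i x))) := by
    intro i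
    have := continuous_Rn i
    fun_prop
  have hcT : Continuous (fun x : Fin n → TT => exp (-(l * Tn x))) := by
    have := continuous_Tn (n := n)
    fun_prop
  have h2 := integral_mono (integrable_cont hcT) (integrable_cont
    (continuous_finsetSum (Finset.univ : Finset (Fin n)) fun i _ => hc i))
    (μ := (volume : Measure (Fin n → TT))) h1
  refine h2.trans (le_of_eq ?_)
  rw [integral_finsetSum _ fun i _ => integrable_cont (hc i)]
  simp_rw [int_exp_Rn]
  rw [Finset.sum_const, Finset.card_univ, Fintype.card_fin, nsmul_eq_mul]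

lemma ZK_le (hn : 0 < n) : ZK (MT (1 / 5)) n ≤ n * II (n / 10) ^ (n - 1) := by
  have h := int_exp_Tn_le hn (l := 1 / 5) (by norm_num)
  have e : 1 / 5 * (n:ℝ) / 2 = n / 10 := by ring
  rw [e] at h
  refine le_trans ?_ h
  unfold ZK ZG
  apply integral_mono (integrable_cont (continuous_prodE _ (continuous_MT _)))
    (integrable_cont (by have := continuous_Tn (n := n); fun_prop))
  intro x
  have e2 : exp (-(1 / 5 * Tn x)) =
      ∏ p ∈ Edg (⊤ : SimpleGraph (Fin n)), exp (-(1 / 5 * yT (x p.1 - x p.2))) := by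
    rw [← exp_sum]
    unfold Tn sE
    rw [Finset.mul_sum, Finset.sum_neg_distrib]
  simp only
  rw [e2]
  apply Finset.prod_le_prod
  · intro p _
    exact MT_nonneg (by norm_num) _
  · intro p _
    unfold MT
    have := add_one_le_exp (-(1 / 5 * yT (x p.1 - x p.2)))
    linarith

end Clique

section Energy

variable {V : Type*} [Fintype V] [DecidableEq V] [LinearOrder V]
variable (G : SimpleGraph V) [DecidableRel G.Adj]

lemma HG_le {s : ℝ} (hs0 : 0 ≤ s) (hs : s ≤ 1) (x : V → TT) : HG G s x ≤ sE G yT x := by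
  unfold HG sE
  exact Finset.sum_le_sum fun p _ => hW_le hs0 hs (yT_nonneg _) (yT_le_one _)

lemma HG_ge {s : ℝ} (hs0 : 0 ≤ s) (x : V → TT) : sE G yT x / 2 ≤ HG G s x := by
  unfold HG sE
  rw [Finset.sum_div]
  exact Finset.sum_le_sum fun p _ => hW_ge hs0 (yT_nonneg _) (yT_le_one _)

lemma sE_le_vertex (x : V → TT) : sE G yT x ≤ ∑ v, 2 * (G.degree v : ℝ) * yT (x v) := by
  have h1 := two_sE G yT_neg x
  have h2 : ∀ u v, yT (x u - x v) ≤ 2 * (yT (x u) + yT (x v)) := by
    intro u v
    have := yT_add_le (x u) (-(x v))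
    rwa [← sub_eq_add_neg, yT_neg] at this
  have h3 : ∑ u, sV G yT u x ≤ ∑ u, ∑ w, if G.Adj u w then 2 * (yT (x u) + yT (x w)) else 0 := by
    unfold sV
    apply Finset.sum_le_sum
    intro u _
    apply Finset.sum_le_sum
    intro w _
    split_ifs
    · exact h2 u w
    · exact le_rfl
  have h4 : ∑ u, ∑ w, (if G.Adj u w then 2 * (yT (x u) + yT (x w)) else 0) =
      2 * ∑ v, 2 * (G.degree v : ℝ) * yT (x v) := by
    have e1 : ∀ u w, (if G.Adj u w then 2 * (yT (x u) + yT (x w)) else 0) =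
        (if G.Adj u w then 2 * yT (x u) else 0) + (if G.Adj w u then 2 * yT (x w) else 0) := by
      intro u w
      by_cases h : G.Adj u w
      · rw [if_pos h, if_pos h, if_pos h.symm]; ring
      · rw [if_neg h, if_neg h, if_neg (fun h' => h h'.symm)]; ring
    simp_rw [e1, Finset.sum_add_distrib]
    rw [Finset.sum_comm (f := fun u w => if G.Adj w u then 2 * yT (x w) else 0), ← two_mul]
    congr 1
    apply Finset.sum_congr rfl
    intro u _
    rw [← Finset.sum_filter, Finset.sum_const, nsmul_eq_mul,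
      ← SimpleGraph.card_neighborFinset_eq_degree]
    have e2 : (Finset.univ.filter fun a => G.Adj u a) = G.neighborFinset u := by
      ext a
      simp
    rw [e2]
    ring
  linarith

lemma prod_II_le : ∏ v, II (2 * (G.degree v : ℝ)) ≤ GI G 1 (fun _ => 1) := by
  have h1 := integral_fintype_prod_volume_eq_prod (ι := V) (E := fun _ => TT)
    (fun (v : V) (t : TT) => exp (-(2 * (G.degree v : ℝ) * yT t)))
  have h2 : ∏ v, II (2 * (G.degree v : ℝ)) =
      ∫ x : V → TT, ∏ v, exp (-(2 * (G.degree v : ℝ) * yT (x v))) := h1.symm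
  rw [h2]
  unfold GI
  apply integral_mono
  · apply integrable_cont
    refine continuous_finsetProd _ fun v _ => ?_
    have := continuous_yT.comp (continuous_apply (A := fun _ : V => TT) v)
    have h3 : Continuous (fun x : V → TT => yT (x v)) := this
    fun_prop
  · exact GI_int G 1 continuous_const
  · intro x
    simp only [one_mul]
    rw [← exp_sum]
    apply exp_le_exp.mpr
    rw [Finset.sum_neg_distrib]
    have h3 := sE_le_vertex G x
    have h4 := HG_le G (s := 1) (by norm_num) le_rfl x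
    linarith

lemma root_bound (d : ℕ) :
    (((d + 1 : ℕ) : ℝ) * II (((d + 1 : ℕ) : ℝ) / 10) ^ (d + 1 - 1)) ^ (1 / ((d : ℝ) + 1)) ≤
      64 * exp 2 * II (2 * (d : ℝ)) := by
  have hI := II_pos (2 * (d : ℝ))
  have hIge := II_ge (l := 2 * (d:ℝ)) (by positivity)
  have h1 : II (((d + 1 : ℕ) : ℝ) / 10) ≤ 32 * II (2 * (d:ℝ)) := by
    refine (II_le_32 (a := ((d + 1 : ℕ) : ℝ)) (by positivity)).trans ?_
    have := II_anti (l := 2 * (d:ℝ)) (l' := 2 * ((d + 1 : ℕ) : ℝ)) (by push_cast; linarith)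
    linarith
  have h2 : (((d + 1 : ℕ) : ℝ) * II (((d + 1 : ℕ) : ℝ) / 10) ^ (d + 1 - 1)) ≤
      (64 * exp 2 * II (2 * (d : ℝ))) ^ (d + 1) := by
    have h3 : ((d + 1 : ℕ) : ℝ) ≤ 2 ^ (d + 1) := by
      have := Nat.lt_two_pow_self (n := d + 1)
      exact_mod_cast this.le
    have h4 : II (((d + 1 : ℕ) : ℝ) / 10) ^ (d + 1 - 1) ≤ (32 * II (2 * (d:ℝ))) ^ d := by
      rw [Nat.add_sub_cancel]
      exact pow_le_pow_left₀ (II_pos _).le h1 d
    have h5 : 1 ≤ exp 2 ^ (d + 1) * II (2 * (d:ℝ)) := by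
      have h6 : exp 2 ^ (d + 1) = exp (2 * d + 2) := by
        rw [← exp_nat_mul]
        congr 1
        push_cast
        ring
      rw [h6]
      calc (1:ℝ) ≤ exp (2 * d + 2) * exp (-(2 * d)) := by
            rw [← exp_add]
            apply one_le_exp
            linarith
        _ ≤ _ := mul_le_mul_of_nonneg_left hIge (exp_pos _).le
    calc (((d + 1 : ℕ) : ℝ) * II (((d + 1 : ℕ) : ℝ) / 10) ^ (d + 1 - 1))
        ≤ 2 ^ (d + 1) * (32 * II (2 * (d:ℝ))) ^ d := by
          apply mul_le_mul h3 h4 (by have := II_pos (((d + 1 : ℕ) : ℝ) / 10); positivity)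
            (by positivity)
      _ ≤ 2 ^ (d + 1) * (32 * II (2 * (d:ℝ))) ^ d * (32 * (exp 2 ^ (d + 1) * II (2 * (d:ℝ)))) := by
          apply le_mul_of_one_le_right (by positivity)
          linarith
      _ = (64 * exp 2 * II (2 * (d : ℝ))) ^ (d + 1) := by
          rw [mul_pow, mul_pow, mul_pow, pow_succ (II (2 * (d:ℝ))) d,
            show (64:ℝ) = 2 * 32 by norm_num, mul_pow, pow_succ (32:ℝ) d]
          ring
  have h7 : (1 / ((d : ℝ) + 1)) = (((d + 1 : ℕ) : ℝ))⁻¹ := by
    push_cast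
    rw [one_div]
  rw [h7]
  refine (rpow_le_rpow (by have := II_pos (((d + 1 : ℕ) : ℝ) / 10); positivity) h2
    (by positivity)).trans (le_of_eq ?_)
  rw [pow_rpow_inv_natCast (by positivity) (by omega)]

lemma exp_quarter_le {y : ℝ} (h0 : 0 ≤ y) (h1 : y ≤ 1) : exp (-(y / 4)) ≤ 1 - 1 / 5 * y := by
  have h2 : exp (-(y / 4)) ≤ 1 - y / 4 + (y / 4) ^ 2 / 2 := by
    have h3 := quadratic_le_exp_of_nonneg (by positivity : 0 ≤ y / 4)
    rw [exp_neg, inv_le_comm₀ (exp_pos _) (by nlinarith)]
    refine le_trans ?_ h3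
    rw [inv_le_iff_one_le_mul₀ (by nlinarith)]
    nlinarith [sq_nonneg ((y / 4) ^ 2)]
  nlinarith

/-- **The energy bound.** -/
theorem energy_bound : GI G 1 (fun x => sE G yT x) ≤ 25 * Fintype.card V * GI G 1 (fun _ => 1) := by
  have cE := continuous_sE G continuous_yT
  have cH := continuous_HG G 1
  have hp := GI_one_pos G 1
  set p := GI G 1 (fun _ => 1) with hpdef
  set a := GI G 1 (fun x => sE G yT x) / p with ha
  -- Jensen
  have h1 : exp (a / 4) * p ≤ GI G 1 (fun x => exp (sE G yT x / 4)) := by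
    have h2 : GI G 1 (fun x => exp (a / 4) * ((1 - a / 4) + 1 / 4 * sE G yT x)) ≤
        GI G 1 (fun x => exp (sE G yT x / 4)) := by
      apply GI_mono G 1 (by fun_prop) (by fun_prop)
      intro x
      have h3 := add_one_le_exp (sE G yT x / 4 - a / 4)
      have h4 : exp (sE G yT x / 4) = exp (a / 4) * exp (sE G yT x / 4 - a / 4) := by
        rw [← exp_add]; congr 1; ring
      rw [h4]
      apply mul_le_mul_of_nonneg_left _ (exp_pos _).le
      linarith
    refine le_trans (le_of_eq ?_) h2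
    rw [GI_mul, GI_add G 1 continuous_const (by fun_prop), GI_mul]
    have h5 : GI G 1 (fun _ => 1 - a / 4) = (1 - a / 4) * p := by
      have := GI_mul G 1 (1 - a / 4) (fun _ => 1)
      simpa using this
    rw [h5]
    have h6 : GI G 1 (fun x => sE G yT x) = a * p := by
      rw [ha]; field_simp
    have h6' : GI G 1 (sE G yT) = a * p := h6
    rw [h6']
    ring
  have h2 : GI G 1 (fun x => exp (sE G yT x / 4)) ≤ ZG G (MT (1 / 5)) := by
    unfold GI ZG
    apply integral_mono (GI_int G 1 (by fun_prop))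
      (integrable_cont (continuous_prodE G (continuous_MT _)))
    intro x
    have h3 := HG_ge G (s := 1) (by norm_num) x
    have h4 : exp (sE G yT x / 4) * exp (-(HG G 1 x)) ≤ exp (-(sE G yT x / 4)) := by
      rw [← exp_add]
      apply exp_le_exp.mpr
      linarith
    refine h4.trans ?_
    have e2 : exp (-(sE G yT x / 4)) = ∏ q ∈ Edg G, exp (-(yT (x q.1 - x q.2) / 4)) := by
      rw [← exp_sum]
      unfold sE
      rw [Finset.sum_div, Finset.sum_neg_distrib]
    simp only
    rw [e2]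
    apply Finset.prod_le_prod
    · intro q _
      exact (exp_pos _).le
    · intro q _
      exact exp_quarter_le (yT_nonneg _) (yT_le_one _)
  have h3 := clique_integral G (τ := 1 / 5) (by norm_num) (by norm_num)
  have h4 : ∏ v, ZK (MT (1 / 5)) (G.degree v + 1) ^ (1 / ((G.degree v : ℝ) + 1)) ≤
      ∏ v, (64 * exp 2 * II (2 * (G.degree v : ℝ))) := by
    apply Finset.prod_le_prod
    · intro v _
      apply rpow_nonneg
      unfold ZK ZG
      apply integral_nonneg
      intro x
      exact Finset.prod_nonneg fun q _ => MT_nonneg (by norm_num) _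
    · intro v _
      refine le_trans ?_ (root_bound (G.degree v))
      apply rpow_le_rpow
      · unfold ZK ZG
        apply integral_nonneg
        intro x
        exact Finset.prod_nonneg fun q _ => MT_nonneg (by norm_num) _
      · exact ZK_le (Nat.succ_pos _)
      · positivity
  rw [Finset.prod_mul_distrib, Finset.prod_const, Finset.card_univ] at h4
  have h5 := prod_II_le G
  have h6 : exp (a / 4) * p ≤ (64 * exp 2) ^ Fintype.card V * p := by
    refine h1.trans (h2.trans (h3.trans (h4.trans ?_)))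
    exact mul_le_mul_of_nonneg_left h5 (by positivity)
  have h7 : exp (a / 4) ≤ (64 * exp 2) ^ Fintype.card V := le_of_mul_le_mul_right h6 hp
  have h8 : 64 * exp 2 ≤ exp (25 / 4) := by
    have h9 : exp (25 / 4) = exp 2 * exp (17 / 4) := by
      rw [← exp_add]; norm_num
    have h10 : (64:ℝ) ≤ exp (17 / 4) := by
      have h11 : exp (17 / 4) = exp 1 ^ 4 * exp (1 / 4) := by
        rw [← exp_nat_mul, ← exp_add]; norm_num
      have h12 := exp_one_gt_d9
      have h13 : (2.718:ℝ) ^ 4 ≤ exp 1 ^ 4 := pow_le_pow_left₀ (by norm_num) (by linarith) 4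
      have h14 := add_one_le_exp (1 / 4 : ℝ)
      rw [h11]
      calc (64:ℝ) ≤ 2.718 ^ 4 * (1 / 4 + 1) := by norm_num
        _ ≤ _ := mul_le_mul h13 h14 (by norm_num) (by positivity)
    rw [h9, mul_comm]
    exact mul_le_mul_of_nonneg_left h10 (exp_pos _).le
  have h9 : exp (a / 4) ≤ exp (25 / 4 * Fintype.card V) := by
    refine h7.trans ?_
    rw [mul_comm (25 / 4 : ℝ), exp_nat_mul]
    exact pow_le_pow_left₀ (by positivity) h8 _
  have h10 := exp_le_exp.mp h9
  have h11 : GI G 1 (fun x => sE G yT x) = a * p := by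
    rw [ha]; field_simp
  rw [h11]
  apply mul_le_mul_of_nonneg_right _ hp.le
  linarith

end Energy

end Pool.Agent.MP_a3e05c_co
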