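import Pool.Agent.Lib.MP_a3e05c_co.Sharp.Core
import Pool.Agent.Lib.MP_a3e05c_co.Sharp.Comp
import Pool.Agent.Lib.MP_a3e05c_co.Q.Comb

set_option autoImplicit false

/-! The exact theorem for regular graphs of large degree, from the analytic part of Theorem Q. -/

namespace Pool.Agent.MP_a3e05c_co

open Finset

/-- From the analytic part to the exact theorem for regular graphs of large degree. -/
theorem exact_of_AnalyticPart (hA : AnalyticPart) : ∃ d₀ : ℕ, ∀ d : ℕ, d₀ ≤ d → Even d →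
    ∀ (V : Type) [Fintype V] [DecidableEq V] (G : SimpleGraph V) [DecidableRel G.Adj],
      (∀ v, G.degree v = d) →
      (EO V G : ℝ) ≤ ∏ v : V, ((EO (Fin (G.degree v + 1)) ⊤ : ℝ) ^
        ((1 : ℝ) / ((G.degree v : ℝ) + 1))) ∧
      ((EO V G : ℝ) = ∏ v : V, ((EO (Fin (G.degree v + 1)) ⊤ : ℝ) ^
        ((1 : ℝ) / ((G.degree v : ℝ) + 1))) ↔
        ∀ u v w, G.Adj u v → G.Adj v w → u ≠ w → G.Adj u w) := by
  obtain ⟨d₀, h⟩ := core_of_TheoremQ (theoremQ_of hA combPart)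
  refine ⟨d₀, fun d hd hev V _ _ G _ hG => ?_⟩
  obtain ⟨hR, hcore⟩ := h d hd hev
  have h1 := exact_of_noClique hR hcore (Fintype.card V) V G rfl hG
  have h2 : ∏ v : V, ((EO (Fin (G.degree v + 1)) ⊤ : ℝ) ^ ((1 : ℝ) / ((G.degree v : ℝ) + 1))) =
      (EO (Fin (d + 1)) ⊤ : ℝ) ^ ((Fintype.card V : ℝ) / (d + 1)) := by
    rw [Finset.prod_congr rfl (fun v _ => by rw [hG v])]
    rw [Finset.prod_const, Finset.card_univ, ← Real.rpow_natCast, ← Real.rpow_mul (by positivity)]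
    congr 1
    ring
  rw [h2]
  exact h1

end Pool.Agent.MP_a3e05c_co
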