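import Pool.Agent.Lib.MP_a3e05c_co.Compare
import Pool.Agent.Lib.MP_a3e05c_co.Sharp.Core
import Pool.Agent.Lib.MP_a3e05c_co.Sharp.Comp

set_option autoImplicit false
set_option linter.unusedSectionVars false

/-! The bound for all graphs with degrees in an interval. -/

namespace Pool.Agent.MP_a3e05c_co

open Real MeasureTheory Finset Filter Topology
open scoped NNReal

/-- The bound up to a constant. -/
theorem EO_le_const : ∃ C : ℝ, 0 < C ∧
    ∀ (V : Type) [Fintype V] [DecidableEq V] (G : SimpleGraph V) [DecidableRel G.Adj],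
      (∀ v : V, Even (G.degree v)) →
      (EO V G : ℝ) ≤ ∏ v : V, ((C * (EO (Fin (G.degree v + 1)) ⊤ : ℝ)) ^
      ((1 : ℝ) / ((G.degree v : ℝ) + 1))) := by
  obtain ⟨C, hC, hcmp⟩ := compare
  refine ⟨C, hC, ?_⟩
  intro V _ _ G _ hev
  choose M hM using hcmp
  let _ : LinearOrder V := LinearOrder.lift' (Fintype.equivFin V) (Fintype.equivFin V).injective
  set m : ℕ := (∑ v : V, (M (G.degree v / 2) + G.degree v)) + 1 with hm
  have hmpos : 0 < m := Nat.succ_pos _
  have : NeZero m := ⟨hmpos.ne'⟩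
  have hle : ∀ v : V, M (G.degree v / 2) + G.degree v < m := by
    intro v
    have := Finset.single_le_sum (f := fun v : V => M (G.degree v / 2) + G.degree v)
      (fun _ _ => Nat.zero_le _) (Finset.mem_univ v)
    omega
  have h1 := EO_le_NQ (m := m) G (fun v => by have := hle v; omega)
  have key : ∀ v : V, (2 : ℝ) ^ ((G.degree v : ℝ) * ((G.degree v : ℝ) + 1) / 2) *
      (NQ m (G.degree v + 1) : ℝ) ≤ C * (EO (Fin (G.degree v + 1)) ⊤ : ℝ) := by
    intro v
    have hd : 2 * (G.degree v / 2) = G.degree v := Nat.two_mul_div_two_of_even (hev v)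
    have h2 := hM (G.degree v / 2) m (by have := hle v; omega)
    rw [hd] at h2
    have h3 := PK_eq (m := m) (n := G.degree v) (by have := hle v; omega)
    rw [← h3, mul_comm]
    have h4 : (0 : ℝ) ≤ (2 : ℝ) ^ ((G.degree v : ℝ) * ((G.degree v : ℝ) + 1) / 2) := by
      positivity
    have h5 := mul_le_mul_of_nonneg_right h2 h4
    rw [mul_assoc] at h5
    exact h5
  refine h1.trans ?_
  apply Finset.prod_le_prod
  · intro v _
    positivity
  · intro v _
    apply Real.rpow_le_rpow _ (key v) (by positivity)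
    positivity

/-- The bound for large degrees in an interval `[δ, Δ]` with `Δ ≤ 2 δ`. -/
theorem EO_le_interval {V : Type*} [Fintype V] [DecidableEq V] [LinearOrder V]
    (G : SimpleGraph V) [DecidableRel G.Adj] {δ Δ : ℝ} (hδ : 8000000000000 ≤ δ)
    (hΔ : Δ ≤ 2 * δ) (h1 : ∀ v, δ ≤ (G.degree v : ℝ)) (h2 : ∀ v, (G.degree v : ℝ) ≤ Δ)
    (hev : ∀ v, Even (G.degree v)) :
    (EO V G : ℝ) ≤ ∏ v, (exp (9 / 8 * (1 - δ / Δ) ^ 2 + 8000001600000 / δ) *
      (EO (Fin (G.degree v + 1)) ⊤ : ℝ)) ^ ((1 : ℝ) / ((G.degree v : ℝ) + 1)) := by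
  have hδ0 : 0 < δ := by linarith
  have hup := EO_le_ZG G (δ := δ) (Δ := Δ) (by linarith) hΔ h1 h2
  have hcl := clique_integral G (τ := 1 / 2) (by norm_num) (by norm_num)
  have hlow : ∀ v, (2:ℝ) ^ (((G.degree v : ℝ)) / 2) *
      (ZK (MT (1 / 2)) (G.degree v + 1) ^ ((1:ℝ) / ((G.degree v : ℝ) + 1)) *
        exp (-(1 / ((G.degree v : ℝ) + 1) * (3 / 4 + 8000000000000 / δ)))) ≤
      (EO (Fin (G.degree v + 1)) ⊤ : ℝ) ^ ((1 : ℝ) / ((G.degree v : ℝ) + 1)) := by
    intro v
    have h3 := EO_top_ge' (hev v) (hδ.trans (h1 v))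
    have h4 := Real.rpow_le_rpow (mul_nonneg (by positivity)
      (mul_nonneg (ZK_pos _).le (exp_pos _).le)) h3
      (by positivity : 0 ≤ (1:ℝ) / ((G.degree v : ℝ) + 1))
    refine le_trans ?_ h4
    rw [Real.mul_rpow (by positivity) (mul_nonneg (ZK_pos _).le (exp_pos _).le),
      Real.mul_rpow (ZK_pos _).le (exp_pos _).le,
      ← Real.rpow_mul (by norm_num), ← Real.exp_mul]
    have he : (G.degree v : ℝ) * ((G.degree v : ℝ) + 1) / 2 * (1 / ((G.degree v : ℝ) + 1)) =
        (G.degree v : ℝ) / 2 := by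
      field_simp
    rw [he]
    apply mul_le_mul_of_nonneg_left _ (by positivity)
    apply mul_le_mul_of_nonneg_left _ (Real.rpow_nonneg (ZK_pos _).le _)
    apply exp_le_exp.mpr
    have h5 : 8000000000000 / ((G.degree v : ℝ) + 1) ≤ 8000000000000 / δ := by
      apply div_le_div_of_nonneg_left (by norm_num) hδ0
      linarith [h1 v]
    have h6 : 0 ≤ 1 / ((G.degree v : ℝ) + 1) := by positivity
    nlinarith
  have hprod : ∏ v, (exp (9 / 8 * (1 - δ / Δ) ^ 2 + 8000001600000 / δ) ^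
      ((1 : ℝ) / ((G.degree v : ℝ) + 1)) * ((2:ℝ) ^ (((G.degree v : ℝ)) / 2) *
      (ZK (MT (1 / 2)) (G.degree v + 1) ^ ((1:ℝ) / ((G.degree v : ℝ) + 1)) *
        exp (-(1 / ((G.degree v : ℝ) + 1) * (3 / 4 + 8000000000000 / δ)))))) ≤
      ∏ v, (exp (9 / 8 * (1 - δ / Δ) ^ 2 + 8000001600000 / δ) *
      (EO (Fin (G.degree v + 1)) ⊤ : ℝ)) ^ ((1 : ℝ) / ((G.degree v : ℝ) + 1)) := by
    apply Finset.prod_le_prod
    · intro v _
      have := ZK_pos (G.degree v + 1)
      positivity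
    · intro v _
      rw [Real.mul_rpow (exp_pos _).le (Nat.cast_nonneg _)]
      exact mul_le_mul_of_nonneg_left (hlow v) (by positivity)
  refine le_trans ?_ hprod
  refine hup.trans ?_
  rw [Finset.prod_mul_distrib, Finset.prod_mul_distrib, Finset.prod_mul_distrib]
  have hcard : ((Edg G).card : ℝ) = ∑ v, (G.degree v : ℝ) / 2 := by
    have h3 := sum_degree_eq G
    have h4 : (∑ v, (G.degree v : ℝ)) = 2 * ((Edg G).card : ℝ) := by exact_mod_cast h3
    rw [← Finset.sum_div, h4]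
    ring
  have h2p : ∏ v, (2:ℝ) ^ (((G.degree v : ℝ)) / 2) = (2:ℝ) ^ (Edg G).card := by
    rw [← Real.rpow_natCast, hcard, Real.rpow_sum_of_pos (by norm_num)]
  rw [h2p]
  have hE1 : ∏ v, exp (9 / 8 * (1 - δ / Δ) ^ 2 + 8000001600000 / δ) ^
      ((1 : ℝ) / ((G.degree v : ℝ) + 1)) =
      exp (∑ v, (9 / 8 * (1 - δ / Δ) ^ 2 + 8000001600000 / δ) *
        ((1 : ℝ) / ((G.degree v : ℝ) + 1))) := by
    rw [exp_sum]
    apply Finset.prod_congr rfl
    intro v _
    rw [← Real.exp_mul]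
  have hE2 : ∏ v, exp (-(1 / ((G.degree v : ℝ) + 1) * (3 / 4 + 8000000000000 / δ))) =
      exp (∑ v, -(1 / ((G.degree v : ℝ) + 1) * (3 / 4 + 8000000000000 / δ))) := by
    rw [exp_sum]
  rw [hE1, hE2]
  have hkey : exp (-(∑ v, 1 / ((G.degree v : ℝ) + 1) *
      (3 / 4 - 9 / 8 * (1 - δ / Δ) ^ 2 - 1600000 / δ))) =
      exp (∑ v, (9 / 8 * (1 - δ / Δ) ^ 2 + 8000001600000 / δ) *
        ((1 : ℝ) / ((G.degree v : ℝ) + 1))) *
      exp (∑ v, -(1 / ((G.degree v : ℝ) + 1) * (3 / 4 + 8000000000000 / δ))) := by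
    rw [← exp_add]
    congr 1
    rw [← Finset.sum_add_distrib, ← Finset.sum_neg_distrib]
    apply Finset.sum_congr rfl
    intro v _
    ring
  rw [hkey]
  set E1 := exp (∑ v, (9 / 8 * (1 - δ / Δ) ^ 2 + 8000001600000 / δ) *
        ((1 : ℝ) / ((G.degree v : ℝ) + 1)))
  set E2 := exp (∑ v, -(1 / ((G.degree v : ℝ) + 1) * (3 / 4 + 8000000000000 / δ)))
  have h7 : (2:ℝ) ^ (Edg G).card * (E1 * E2 * ZG G (MT (1 / 2))) ≤
      (2:ℝ) ^ (Edg G).card * (E1 * E2 *
        ∏ v, ZK (MT (1 / 2)) (G.degree v + 1) ^ (1 / ((G.degree v : ℝ) + 1))) := by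
    apply mul_le_mul_of_nonneg_left _ (by positivity)
    exact mul_le_mul_of_nonneg_left hcl (mul_pos (exp_pos _) (exp_pos _)).le
  refine h7.trans (le_of_eq ?_)
  ring

lemma EO_eq_one_of_degree {V : Type*} [Fintype V] [DecidableEq V] (G : SimpleGraph V)
    [DecidableRel G.Adj] (h : ∀ v, G.degree v = 0) : EO V G = 1 := by
  let _ : LinearOrder V := LinearOrder.lift' (Fintype.equivFin V) (Fintype.equivFin V).injective
  have h1 := EO_eq_integral G
  have h2 : (Edg G).card = 0 := by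
    have h3 := sum_degree_eq G
    simp only [h] at h3
    rw [Finset.sum_const_zero] at h3
    omega
  rw [Finset.card_eq_zero] at h2
  unfold ZG at h1
  rw [h2] at h1
  simp only [Finset.card_empty, pow_zero, Finset.prod_empty, one_mul] at h1
  rw [integral_const] at h1
  simp at h1
  exact h1

/-- **Schrijver's inequality with an error that vanishes for large and nearly equal degrees.** -/
theorem EO_le_general : ∃ C : ℝ, 0 < C ∧
    ∀ (V : Type) [Fintype V] [DecidableEq V] (G : SimpleGraph V) [DecidableRel G.Adj] (δ Δ : ℝ),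
      0 < δ → δ ≤ Δ → (∀ v : V, Even (G.degree v)) →
      (∀ v : V, G.degree v ≠ 0 → δ ≤ (G.degree v : ℝ) ∧ (G.degree v : ℝ) ≤ Δ) →
      (EO V G : ℝ) ≤ ∏ v : V, ((exp (C * (1 / δ + (1 - δ / Δ) ^ 2)) *
        (EO (Fin (G.degree v + 1)) ⊤ : ℝ)) ^ ((1 : ℝ) / ((G.degree v : ℝ) + 1))) := by
  obtain ⟨C₀, hC₀, hconst⟩ := EO_le_const
  set L := log (max C₀ 1) with hL
  have hL0 : 0 ≤ L := log_nonneg (le_max_right _ _)
  have hLC : C₀ ≤ exp L := by
    rw [hL, exp_log (lt_of_lt_of_le one_pos (le_max_right _ _))]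
    exact le_max_left _ _
  refine ⟨8000001600000 * (L + 1), by positivity, ?_⟩
  intro V _ _ G _ δ Δ hδ hδΔ hev hdeg
  have hΔ : 0 < Δ := hδ.trans_le hδΔ
  set κ := 8000001600000 * (L + 1) * (1 / δ + (1 - δ / Δ) ^ 2) with hκ
  have hκ0 : 0 ≤ κ := by positivity
  -- comparison of the products
  have hmono : ∀ c : ℝ, 0 ≤ c → c ≤ exp κ →
      ∏ v : V, ((c * (EO (Fin (G.degree v + 1)) ⊤ : ℝ)) ^ ((1 : ℝ) / ((G.degree v : ℝ) + 1))) ≤
      ∏ v : V, ((exp κ * (EO (Fin (G.degree v + 1)) ⊤ : ℝ)) ^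
        ((1 : ℝ) / ((G.degree v : ℝ) + 1))) := by
    intro c hc0 hc
    apply Finset.prod_le_prod
    · intro v _
      positivity
    · intro v _
      apply Real.rpow_le_rpow (by positivity) _ (by positivity)
      exact mul_le_mul_of_nonneg_right hc (Nat.cast_nonneg _)
  by_cases hcase : 8000000000000 ≤ δ ∧ Δ ≤ 2 * δ
  · obtain ⟨hδ1, hΔ2⟩ := hcase
    -- split off the isolated vertices
    have hpp : ∀ u w, G.Adj u w → (G.degree u ≠ 0 ↔ G.degree w ≠ 0) := by
      intro u w h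
      have h1 : G.degree u ≠ 0 := by
        have : 0 < G.degree u := (G.degree_pos_iff_exists_adj u).mpr ⟨w, h⟩
        omega
      have h2 : G.degree w ≠ 0 := by
        have : 0 < G.degree w := (G.degree_pos_iff_exists_adj w).mpr ⟨u, h.symm⟩
        omega
      exact ⟨fun _ => h2, fun _ => h1⟩
    rw [EO_split (G := G) (fun v => G.degree v ≠ 0) hpp]
    have hz : EO {v // ¬ G.degree v ≠ 0} (sub G fun v => ¬ G.degree v ≠ 0) = 1 := by
      apply EO_eq_one_of_degree
      intro v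
      rw [degree_sub _ (fun u w h => not_congr (hpp u w h)) v]
      have := v.2
      simpa using this
    rw [hz, mul_one, ← Fintype.prod_subtype_mul_prod_subtype (fun v => G.degree v ≠ 0)]
    let _ : LinearOrder {v // G.degree v ≠ 0} := LinearOrder.lift'
      (Fintype.equivFin {v // G.degree v ≠ 0}) (Fintype.equivFin _).injective
    have hds : ∀ v : {v // G.degree v ≠ 0}, (sub G fun v => G.degree v ≠ 0).degree v =
        G.degree v.1 := fun v => degree_sub _ hpp v
    have h1 := EO_le_interval (sub G fun v => G.degree v ≠ 0) hδ1 hΔ2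
      (fun v => by rw [hds v]; exact (hdeg v.1 v.2).1)
      (fun v => by rw [hds v]; exact (hdeg v.1 v.2).2) (fun v => by rw [hds v]; exact hev v.1)
    have h2 : exp (9 / 8 * (1 - δ / Δ) ^ 2 + 8000001600000 / δ) ≤ exp κ := by
      apply exp_le_exp.mpr
      rw [hκ]
      have h3 : 8000001600000 / δ = 8000001600000 * (1 / δ) := by ring
      rw [h3]
      have h4 : 0 ≤ 1 / δ := by positivity
      have h5 := sq_nonneg (1 - δ / Δ)
      nlinarith [mul_nonneg hL0 h4, mul_nonneg hL0 h5]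
    have h3 : (EO {v // G.degree v ≠ 0} (sub G fun v => G.degree v ≠ 0) : ℝ) ≤
        ∏ v : {v // G.degree v ≠ 0}, (exp κ * (EO (Fin (G.degree v.1 + 1)) ⊤ : ℝ)) ^
          ((1 : ℝ) / ((G.degree v.1 : ℝ) + 1)) := by
      refine h1.trans ?_
      apply Finset.prod_le_prod
      · intro v _
        positivity
      · intro v _
        rw [hds v]
        apply Real.rpow_le_rpow (by positivity) _ (by positivity)
        exact mul_le_mul_of_nonneg_right h2 (Nat.cast_nonneg _)
    refine h3.trans ?_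
    have h4 : 1 ≤ ∏ v : {v // ¬ G.degree v ≠ 0}, (exp κ * (EO (Fin (G.degree v.1 + 1)) ⊤ : ℝ)) ^
          ((1 : ℝ) / ((G.degree v.1 : ℝ) + 1)) := by
      apply Finset.one_le_prod
      intro v
      have h5 : G.degree v.1 = 0 := by
        have := v.2
        simpa using this
      intro _
      apply Real.one_le_rpow _ (by positivity)
      have h6 : EO (Fin (G.degree v.1 + 1)) ⊤ = 1 := by
        apply EO_eq_one_of_degree
        intro w
        rw [SimpleGraph.complete_graph_degree, Fintype.card_fin, h5]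
      rw [h6]
      simpa using hκ0
    refine le_mul_of_one_le_right ?_ h4
    apply Finset.prod_nonneg
    intro v _
    positivity
  · refine (hconst V G hev).trans (hmono C₀ hC₀.le ?_)
    refine hLC.trans (exp_le_exp.mpr ?_)
    rw [hκ]
    by_cases h8 : 8000000000000 ≤ δ
    · have h9 : 2 * δ < Δ := by
        by_contra h
        exact hcase ⟨h8, not_lt.mp h⟩
      have h10 : δ / Δ < 1 / 2 := by
        rw [div_lt_div_iff₀ hΔ (by norm_num)]
        linarith
      have h11 : 1 / 4 ≤ (1 - δ / Δ) ^ 2 := by nlinarith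
      have h12 : 0 ≤ 1 / δ := by positivity
      have h13 : 1 / 4 ≤ 1 / δ + (1 - δ / Δ) ^ 2 := by linarith
      nlinarith
    · have h9 : δ < 8000000000000 := not_le.mp h8
      have h10 : 1 / 8000000000000 ≤ 1 / δ := by
        apply one_div_le_one_div_of_le hδ h9.le
      have h11 := sq_nonneg (1 - δ / Δ)
      have h13 : 1 / 8000000000000 ≤ 1 / δ + (1 - δ / Δ) ^ 2 := by linarith
      nlinarith

end Pool.Agent.MP_a3e05c_co
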