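import Pool.Agent.Lib.MP_a3e05c_co.Sharp.OneF
import Pool.Agent.Lib.MP_a3e05c_co.Sharp.CliqueInt

set_option autoImplicit false
set_option linter.unusedSectionVars false

/-! Edge sums on a graph and their restriction to the lines `x + t (e_u - e_v)`. -/

namespace Pool.Agent.MP_a3e05c_co

open Real MeasureTheory Finset

section Sums

variable {V : Type*} [Fintype V] [DecidableEq V] [LinearOrder V]
variable (G : SimpleGraph V) [DecidableRel G.Adj]

/-- Sum over the edges of a function of the difference. -/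
noncomputable def sE (φ : TT → ℝ) (x : V → TT) : ℝ := ∑ p ∈ Edg G, φ (x p.1 - x p.2)

/-- Sum over the star of `u`. -/
noncomputable def sV (φ : TT → ℝ) (u : V) (x : V → TT) : ℝ :=
  ∑ w, if G.Adj u w then φ (x u - x w) else 0

/-- The double sum over ordered adjacent pairs. -/
lemma sum_Edg_symm {A : V → V → ℝ} (hA : ∀ a b, A a b = A b a) :
    2 * ∑ p ∈ Edg G, A p.1 p.2 = ∑ a, ∑ b, if G.Adj a b then A a b else 0 := by
  have h2 : ∀ a b : V, (if G.Adj a b then A a b else 0 : ℝ) =
      (if a < b ∧ G.Adj a b then A a b else 0) + (if b < a ∧ G.Adj b a then A b a else 0) := by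
    intro a b
    by_cases h : G.Adj a b
    · have h' := h.symm
      have hne : a ≠ b := h.ne
      rcases lt_or_gt_of_ne hne with hlt | hlt
      · rw [if_pos h, if_pos ⟨hlt, h⟩, if_neg (fun h => lt_asymm hlt h.1), add_zero]
      · rw [if_pos h, if_neg (fun h => lt_asymm hlt h.1), if_pos ⟨hlt, h'⟩, zero_add, hA]
    · have h' : ¬ G.Adj b a := fun h' => h h'.symm
      rw [if_neg h, if_neg (fun h' => h h'.2), if_neg (fun h => h' h.2), add_zero]
  have h3 : ∑ p ∈ Edg G, A p.1 p.2 = ∑ a, ∑ b, if a < b ∧ G.Adj a b then A a b else 0 := by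
    unfold Edg
    rw [Finset.sum_filter, ← Finset.univ_product_univ, Finset.sum_product]
  simp_rw [h2, Finset.sum_add_distrib]
  rw [Finset.sum_comm (f := fun a b => if b < a ∧ G.Adj b a then A b a else 0), ← h3]
  ring

variable {φ : TT → ℝ}

lemma two_sE (hφ : ∀ t, φ (-t) = φ t) (x : V → TT) : 2 * sE G φ x = ∑ u, sV G φ u x := by
  unfold sE sV
  apply sum_Edg_symm G (A := fun a b => φ (x a - x b))
  intro a b
  rw [← hφ, neg_sub]

/-- Neighbours of `u` other than `v`. -/
def nb (u v : V) : Finset V := Finset.univ.filter fun w => G.Adj u w ∧ w ≠ v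

lemma card_nb {u v : V} (h : G.Adj u v) : (nb G u v).card + 1 = G.degree u := by
  rw [← SimpleGraph.card_neighborFinset_eq_degree]
  have h1 : G.neighborFinset u = insert v (nb G u v) := by
    ext w
    rw [SimpleGraph.mem_neighborFinset, Finset.mem_insert]
    unfold nb
    rw [Finset.mem_filter]
    constructor
    · intro hw
      by_cases hwv : w = v
      · exact Or.inl hwv
      · exact Or.inr ⟨Finset.mem_univ _, hw, hwv⟩
    · rintro (rfl | hw)
      · exact h
      · exact hw.2.1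
  rw [h1, Finset.card_insert_of_notMem]
  unfold nb
  simp

lemma sV_eq {u v : V} (h : G.Adj u v) (x : V → TT) :
    sV G φ u x = φ (x u - x v) + ∑ w ∈ nb G u v, φ (x u - x w) := by
  unfold sV nb
  rw [← Finset.add_sum_erase Finset.univ _ (Finset.mem_univ v), if_pos h, ← Finset.sum_filter]
  congr 1
  apply Finset.sum_congr _ (fun _ _ => rfl)
  ext w
  simp only [Finset.mem_filter, Finset.mem_erase, Finset.mem_univ, and_true, true_and]
  tauto

/-- The part of the edge sum that does not involve `u` and `v`. -/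
noncomputable def rest (φ : TT → ℝ) (u v : V) (x : V → TT) : ℝ :=
  (∑ a ∈ (Finset.univ.erase u).erase v, ∑ b ∈ (Finset.univ.erase u).erase v,
    if G.Adj a b then φ (x a - x b) else 0) / 2

lemma sum_split {u v : V} (huv : u ≠ v) (F : V → ℝ) :
    ∑ a, F a = F u + F v + ∑ a ∈ (Finset.univ.erase u).erase v, F a := by
  rw [← Finset.add_sum_erase Finset.univ F (Finset.mem_univ u),
    ← Finset.add_sum_erase (Finset.univ.erase u) F
      (Finset.mem_erase.mpr ⟨huv.symm, Finset.mem_univ v⟩)]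
  ring

lemma sE_split (hφ : ∀ t, φ (-t) = φ t) {u v : V} (h : G.Adj u v) (x : V → TT) :
    sE G φ x = sV G φ u x + sV G φ v x - φ (x u - x v) + rest G φ u v x := by
  have huv : u ≠ v := h.ne
  have hsymm : ∀ a b, (if G.Adj a b then φ (x a - x b) else 0) =
      if G.Adj b a then φ (x b - x a) else 0 := by
    intro a b
    by_cases hab : G.Adj a b
    · rw [if_pos hab, if_pos hab.symm, ← hφ, neg_sub]
    · rw [if_neg hab, if_neg (fun h' => hab h'.symm)]
  have h2 := two_sE G hφ x
  rw [sum_split huv] at h2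
  have h3 : ∑ a ∈ (Finset.univ.erase u).erase v, sV G φ a x =
      (∑ a ∈ (Finset.univ.erase u).erase v, if G.Adj a u then φ (x a - x u) else 0) +
      (∑ a ∈ (Finset.univ.erase u).erase v, if G.Adj a v then φ (x a - x v) else 0) +
      2 * rest G φ u v x := by
    unfold sV rest
    simp_rw [sum_split huv (fun b => if G.Adj _ b then φ (x _ - x b) else 0)]
    rw [Finset.sum_add_distrib, Finset.sum_add_distrib]
    ring
  have h4 : sV G φ u x = φ (x u - x v) +
      ∑ a ∈ (Finset.univ.erase u).erase v, if G.Adj a u then φ (x a - x u) else 0 := by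
    unfold sV
    rw [sum_split huv, if_neg (G.loopless.irrefl u), if_pos h, zero_add]
    congr 1
    apply Finset.sum_congr rfl
    intro a _
    exact hsymm u a
  have h5 : sV G φ v x = φ (x u - x v) +
      ∑ a ∈ (Finset.univ.erase u).erase v, if G.Adj a v then φ (x a - x v) else 0 := by
    unfold sV
    rw [sum_split huv, if_neg (G.loopless.irrefl v), if_pos h.symm, add_zero]
    congr 1
    · rw [← hφ, neg_sub]
    · apply Finset.sum_congr rfl
      intro a _
      exact hsymm v a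
  linarith

/-- The line through the origin in the direction `e_u - e_v`. -/
noncomputable def ln (u v : V) (t : TT) : V → TT := Pi.single u t - Pi.single v t

lemma ln_u {u v : V} (huv : u ≠ v) (x : V → TT) (t : TT) : (x + ln u v t) u = x u + t := by
  unfold ln
  rw [Pi.add_apply, Pi.sub_apply, Pi.single_eq_same, Pi.single_eq_of_ne huv, sub_zero]

lemma ln_v {u v : V} (huv : u ≠ v) (x : V → TT) (t : TT) : (x + ln u v t) v = x v - t := by
  unfold ln
  rw [Pi.add_apply, Pi.sub_apply, Pi.single_eq_same, Pi.single_eq_of_ne huv.symm, zero_sub,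
    sub_eq_add_neg]

lemma ln_w {u v w : V} (hu : w ≠ u) (hv : w ≠ v) (x : V → TT) (t : TT) :
    (x + ln u v t) w = x w := by
  unfold ln
  rw [Pi.add_apply, Pi.sub_apply, Pi.single_eq_of_ne hu, Pi.single_eq_of_ne hv, sub_zero,
    add_zero]

lemma continuous_ln (u v : V) : Continuous (ln u v) := by
  have h1 : ∀ u : V, Continuous (fun t : TT => (Pi.single u t : V → TT)) := by
    intro u
    refine continuous_pi fun w => ?_
    by_cases h : w = u
    · subst h
      simp only [Pi.single_eq_same]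
      exact continuous_id
    · simp only [Pi.single_eq_of_ne h]
      exact continuous_const
  exact (h1 u).sub (h1 v)

lemma rest_ln {u v : V} (x : V → TT) (t : TT) :
    rest G φ u v (x + ln u v t) = rest G φ u v x := by
  unfold rest
  congr 1
  apply Finset.sum_congr rfl
  intro a ha
  apply Finset.sum_congr rfl
  intro b hb
  rw [Finset.mem_erase, Finset.mem_erase] at ha hb
  rw [ln_w ha.2.1 ha.1, ln_w hb.2.1 hb.1]

lemma continuous_sE (hφ : Continuous φ) : Continuous (sE G φ) := by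
  unfold sE
  exact continuous_finsetSum _ fun p _ =>
    hφ.comp ((continuous_apply p.1).sub (continuous_apply p.2))

lemma continuous_sV (hφ : Continuous φ) (u : V) : Continuous (sV G φ u) := by
  unfold sV
  refine continuous_finsetSum _ fun w _ => ?_
  split_ifs
  · exact hφ.comp ((continuous_apply u).sub (continuous_apply w))
  · exact continuous_const

/-- Lift of a point to the line. -/
noncomputable def li (ξ : V → ℝ) : V → TT := fun w => ((ξ w : ℝ) : TT)

lemma exists_li (x : V → TT) : ∃ ξ : V → ℝ, x = li ξ := by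
  have h : ∀ w, ∃ r : ℝ, x w = ((r : ℝ) : TT) := by
    intro w
    obtain ⟨r, hr⟩ := QuotientAddGroup.mk_surjective (x w)
    exact ⟨r, hr.symm⟩
  choose ξ hξ using h
  exact ⟨ξ, funext hξ⟩

/-- The other edges at `u` and `v`. -/
abbrev Iuv (u v : V) : Type _ := (nb G u v) ⊕ (nb G v u)

/-- The angles of the other edges at `u` and `v`. -/
noncomputable def cuv (ξ : V → ℝ) (u v : V) : Iuv G u v → ℝ :=
  Sum.elim (fun w => 2 * π * (ξ u - ξ w)) (fun w => 2 * π * (ξ w - ξ v))

lemma yT_coe (r : ℝ) : yT (r : TT) = sin (2 * π * r) ^ 2 := by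
  unfold yT
  rw [sT_coe]

lemma line_uv (ξ : V → ℝ) {u v : V} (h : G.Adj u v) (a : ℝ) :
    yT ((li ξ + ln u v (a : TT)) u - (li ξ + ln u v (a : TT)) v) =
      y2 (2 * π * (ξ u - ξ v)) (2 * π * a) := by
  rw [ln_u h.ne, ln_v h.ne]
  unfold li y2
  rw [← AddCircle.coe_add, ← AddCircle.coe_sub, ← AddCircle.coe_sub, yT_coe]
  congr 2
  ring

lemma line_uw (ξ : V → ℝ) {u v w : V} (hu : w ≠ u) (hv : w ≠ v) (huv : u ≠ v) (a : ℝ) :
    yT ((li ξ + ln u v (a : TT)) u - (li ξ + ln u v (a : TT)) w) =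
      sin (2 * π * (ξ u - ξ w) + 2 * π * a) ^ 2 := by
  rw [ln_u huv, ln_w hu hv]
  unfold li
  rw [← AddCircle.coe_add, ← AddCircle.coe_sub, yT_coe]
  congr 2
  ring

lemma line_vw (ξ : V → ℝ) {u v w : V} (hu : w ≠ u) (hv : w ≠ v) (huv : u ≠ v) (a : ℝ) :
    yT ((li ξ + ln u v (a : TT)) v - (li ξ + ln u v (a : TT)) w) =
      sin (2 * π * (ξ w - ξ v) + 2 * π * a) ^ 2 := by
  rw [ln_v huv, ln_w hu hv]
  unfold li
  rw [← AddCircle.coe_sub, ← AddCircle.coe_sub, ← yT_neg, ← AddCircle.coe_neg, yT_coe]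
  congr 2
  ring

lemma sum_Iuv {u v : V} (F : V → ℝ) (F' : V → ℝ) :
    ∑ i : Iuv G u v, Sum.elim (fun w : nb G u v => F w) (fun w : nb G v u => F' w) i =
      ∑ w ∈ nb G u v, F w + ∑ w ∈ nb G v u, F' w := by
  rw [Fintype.sum_sum_type]
  simp only [Sum.elim_inl, Sum.elim_inr]
  rw [Finset.sum_coe_sort (nb G u v) F, Finset.sum_coe_sort (nb G v u) F']

lemma mem_nb {u v w : V} (h : w ∈ nb G u v) : G.Adj u w ∧ w ≠ v := by
  unfold nb at h
  exact (Finset.mem_filter.mp h).2

/-- Star sums at `u` and `v` on the line. -/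
lemma line_sV (f : ℝ → ℝ) (ξ : V → ℝ) {u v : V} (h : G.Adj u v) (a : ℝ) :
    sV G (fun t => f (yT t)) u (li ξ + ln u v (a : TT)) +
      sV G (fun t => f (yT t)) v (li ξ + ln u v (a : TT)) =
      2 * f (y2 (2 * π * (ξ u - ξ v)) (2 * π * a)) +
        ∑ i, f (sin (cuv G ξ u v i + 2 * π * a) ^ 2) := by
  rw [sV_eq G h, sV_eq G h.symm, yT_sub_comm ((li ξ + ln u v (a : TT)) v), line_uv G ξ h]
  have h1 : ∑ i, f (sin (cuv G ξ u v i + 2 * π * a) ^ 2) =
      ∑ w ∈ nb G u v, f (sin (2 * π * (ξ u - ξ w) + 2 * π * a) ^ 2) +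
      ∑ w ∈ nb G v u, f (sin (2 * π * (ξ w - ξ v) + 2 * π * a) ^ 2) := by
    rw [← sum_Iuv G (u := u) (v := v) (fun w => f (sin (2 * π * (ξ u - ξ w) + 2 * π * a) ^ 2))
      (fun w => f (sin (2 * π * (ξ w - ξ v) + 2 * π * a) ^ 2))]
    apply Finset.sum_congr rfl
    intro i _
    unfold cuv
    rcases i with i | i
    · rfl
    · rfl
  rw [h1]
  have h2 : ∑ w ∈ nb G u v, f (yT ((li ξ + ln u v (a : TT)) u - (li ξ + ln u v (a : TT)) w)) =
      ∑ w ∈ nb G u v, f (sin (2 * π * (ξ u - ξ w) + 2 * π * a) ^ 2) := by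
    apply Finset.sum_congr rfl
    intro w hw
    have hw' := mem_nb G hw
    rw [line_uw ξ hw'.1.ne.symm hw'.2 h.ne]
  have h3 : ∑ w ∈ nb G v u, f (yT ((li ξ + ln u v (a : TT)) v - (li ξ + ln u v (a : TT)) w)) =
      ∑ w ∈ nb G v u, f (sin (2 * π * (ξ w - ξ v) + 2 * π * a) ^ 2) := by
    apply Finset.sum_congr rfl
    intro w hw
    have hw' := mem_nb G hw
    rw [line_vw ξ hw'.2 hw'.1.ne.symm h.ne]
  rw [h2, h3]
  ring

/-- Edge sums on the line. -/
lemma line_sE (f : ℝ → ℝ) (ξ : V → ℝ) {u v : V} (h : G.Adj u v) (a : ℝ) :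
    sE G (fun t => f (yT t)) (li ξ + ln u v (a : TT)) =
      f (y2 (2 * π * (ξ u - ξ v)) (2 * π * a)) +
        ∑ i, f (sin (cuv G ξ u v i + 2 * π * a) ^ 2) +
          rest G (fun t => f (yT t)) u v (li ξ) := by
  rw [sE_split G (fun t => by rw [yT_neg]) h, line_sV G f ξ h, rest_ln, line_uv G ξ h]
  ring

end Sums

end Pool.Agent.MP_a3e05c_co
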