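import Pool.Agent.Lib.MP_a3e05c_co.Sharp.Base

set_option autoImplicit false

/-! Riemann sums over grids converge to integrals; the counting formula for Eulerian orientations
and the clique theorem for integrals. -/

namespace Pool.Agent.MP_a3e05c_co

open MeasureTheory Finset Filter Topology
open scoped Real NNReal

section Lim

variable {V : Type*} [Fintype V]

/-- The grid point with index `j`. -/
noncomputable def tau (m : ℕ) [NeZero m] (j : V → ZMod m) : V → TT :=
  fun v => ZMod.toAddCircle (j v)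

lemma tau_add (m : ℕ) [NeZero m] (j k : V → ZMod m) : tau m (j + k) = tau m j + tau m k := by
  funext v
  unfold tau
  rw [Pi.add_apply, Pi.add_apply, map_add]

lemma exists_grid (m : ℕ) [NeZero m] (x : V → TT) :
    ∃ k : V → ZMod m, ‖x - tau m k‖ ≤ 1 / (m : ℝ) := by
  have hm : (0:ℝ) < m := by exact_mod_cast Nat.pos_of_ne_zero (NeZero.ne m)
  have h : ∀ v, ∃ k : ZMod m, ‖x v - ZMod.toAddCircle k‖ ≤ 1 / (m : ℝ) := by
    intro v
    obtain ⟨a, ha⟩ := QuotientAddGroup.mk_surjective (x v)
    refine ⟨((⌊(m:ℝ) * a⌋ : ℤ) : ZMod m), ?_⟩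
    have h1 : x v - ZMod.toAddCircle ((⌊(m:ℝ) * a⌋ : ℤ) : ZMod m) =
        ((a - (⌊(m:ℝ) * a⌋ : ℝ) / m : ℝ) : TT) := by
      rw [ZMod.toAddCircle_intCast, AddCircle.coe_sub, ← ha]
    rw [h1, UnitAddCircle.norm_eq]
    have h2 := round_le (a - (⌊(m:ℝ) * a⌋ : ℝ) / m) 0
    refine h2.trans ?_
    rw [Int.cast_zero, sub_zero]
    have h3 := Int.floor_le ((m:ℝ) * a)
    have h4 := Int.lt_floor_add_one ((m:ℝ) * a)
    have e : a - (⌊(m:ℝ) * a⌋ : ℝ) / m = (m * a - (⌊(m:ℝ) * a⌋ : ℝ)) / m := by
      field_simp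
    rw [e, abs_div, abs_of_pos hm]
    apply div_le_div_of_nonneg_right _ hm.le
    rw [abs_le]
    constructor <;> linarith
  choose k hk using h
  refine ⟨k, ?_⟩
  rw [pi_norm_le_iff_of_nonneg (by positivity)]
  intro v
  exact hk v

variable [DecidableEq V]

lemma avR_shift (m : ℕ) [NeZero m] (k : V → ZMod m) (f : (V → ZMod m) → ℝ) :
    avR (fun j => f (k + j)) = avR f := by
  classical
  unfold avR
  rw [Equiv.sum_comp (Equiv.addLeft k) f |>.symm]
  rfl

lemma abs_avR_sub_le (m : ℕ) [NeZero m] (f g : (V → ZMod m) → ℝ) (ε : ℝ)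
    (h : ∀ j, |f j - g j| ≤ ε) : |avR f - avR g| ≤ ε := by
  classical
  have h1 : avR f - avR g = avR (fun j => f j - g j) := by
    unfold avR
    rw [Finset.sum_sub_distrib]
    ring
  rw [h1]
  refine (abs_avR_le _).trans ?_
  have h2 : avR (fun j : V → ZMod m => |f j - g j|) ≤ avR (fun _ : V → ZMod m => ε) := avR_mono h
  refine h2.trans (le_of_eq ?_)
  unfold avR
  rw [Finset.sum_const, Finset.card_univ, nsmul_eq_mul, ← mul_assoc]
  have : (Fintype.card (V → ZMod m) : ℝ) ≠ 0 := by exact_mod_cast Fintype.card_ne_zero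
  rw [inv_mul_cancel₀ this, one_mul]

/-- Riemann sums converge to the integral. -/
theorem tendsto_avR {F : (V → TT) → ℝ} (hF : Continuous F) :
    Tendsto (fun m : ℕ => avR (fun j : V → ZMod (m + 1) => F (tau (m + 1) j))) atTop
      (𝓝 (∫ x, F x)) := by
  classical
  rw [Metric.tendsto_atTop]
  intro ε hε
  have hu := CompactSpace.uniformContinuous_of_continuous hF
  rw [Metric.uniformContinuous_iff] at hu
  obtain ⟨δ, hδ, hu⟩ := hu (ε / 2) (by positivity)
  obtain ⟨N, hN⟩ := exists_nat_gt (1 / δ)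
  refine ⟨N, fun m hm => ?_⟩
  have hm' : (0:ℝ) < ((m + 1 : ℕ) : ℝ) := by positivity
  have hmδ : 1 / ((m + 1 : ℕ) : ℝ) < δ := by
    rw [div_lt_comm₀ hm' hδ]
    refine hN.trans_le ?_
    push_cast
    have : (N:ℝ) ≤ m := by exact_mod_cast hm
    linarith
  set c := avR (fun j : V → ZMod (m + 1) => F (tau (m + 1) j)) with hc
  have h1 : ∀ x : V → TT, |avR (fun j : V → ZMod (m + 1) => F (x + tau (m + 1) j)) - c| ≤ ε / 2 := by
    intro x
    obtain ⟨k, hk⟩ := exists_grid (m + 1) x
    have e : avR (fun j : V → ZMod (m + 1) => F (x + tau (m + 1) j)) =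
        avR (fun j : V → ZMod (m + 1) => F ((x - tau (m + 1) k) + tau (m + 1) j)) := by
      rw [← avR_shift (m + 1) k (fun j => F ((x - tau (m + 1) k) + tau (m + 1) j))]
      apply avR_congr
      intro j
      rw [tau_add]
      congr 1
      abel
    rw [e, hc]
    apply abs_avR_sub_le
    intro j
    have h2 := @hu ((x - tau (m + 1) k) + tau (m + 1) j) (tau (m + 1) j) (by
      rw [dist_eq_norm, add_sub_cancel_right]
      exact hk.trans_lt hmδ)
    rw [Real.dist_eq] at h2
    exact h2.le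
  have hcont : ∀ j : V → ZMod (m + 1), Continuous (fun x => F (x + tau (m + 1) j)) :=
    fun j => hF.comp (continuous_id.add continuous_const)
  have h3 : ∫ x, F x = ∫ x, avR (fun j : V → ZMod (m + 1) => F (x + tau (m + 1) j)) := by
    unfold avR
    rw [integral_const_mul, integral_finsetSum _ (fun j _ => integrable_cont (hcont j))]
    have h4 : ∀ j : V → ZMod (m + 1), ∫ x, F (x + tau (m + 1) j) = ∫ x, F x :=
      fun j => integral_add_right_eq_self F _
    simp_rw [h4]
    rw [Finset.sum_const, Finset.card_univ, nsmul_eq_mul, ← mul_assoc]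
    have : (Fintype.card (V → ZMod (m + 1)) : ℝ) ≠ 0 := by exact_mod_cast Fintype.card_ne_zero
    rw [inv_mul_cancel₀ this, one_mul]
  have hcA : Continuous (fun x => avR (fun j : V → ZMod (m + 1) => F (x + tau (m + 1) j))) := by
    unfold avR
    exact continuous_const.mul (continuous_finsetSum _ fun j _ => hcont j)
  rw [Real.dist_eq, abs_sub_comm]
  have h5 : (∫ x, F x) - c = ∫ x, (avR (fun j : V → ZMod (m + 1) => F (x + tau (m + 1) j)) - c) := by
    rw [integral_sub (integrable_cont hcA) (integrable_const c), ← h3, integral_const]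
    simp
  rw [h5]
  refine lt_of_le_of_lt ?_ (half_lt_self hε)
  have h6 := norm_integral_le_of_norm_le_const (μ := (volume : Measure (V → TT)))
    (f := fun x => avR (fun j : V → ZMod (m + 1) => F (x + tau (m + 1) j)) - c) (C := ε / 2)
    (Filter.Eventually.of_forall fun x => by rw [Real.norm_eq_abs]; exact h1 x)
  simpa using h6

end Lim

end Pool.Agent.MP_a3e05c_co
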