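import Pool.Agent.Lib.MP_a3e05c_co.Sharp.Pot

set_option autoImplicit false

/-! Weighted integrals over one period, integration by parts, Cauchy-Schwarz. -/

namespace Pool.Agent.MP_a3e05c_co

open Real MeasureTheory

/-- The weighted integral over one period. -/
noncomputable def LL (H f : ℝ → ℝ) : ℝ := ∫ s in (0:ℝ)..(2 * π), f s * exp (-(H s))

variable {H : ℝ → ℝ}

lemma LL_int (hH : Continuous H) {f : ℝ → ℝ} (hf : Continuous f) (a b : ℝ) :
    IntervalIntegrable (fun s => f s * exp (-(H s))) volume a b :=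
  (hf.mul (continuous_exp.comp hH.neg)).intervalIntegrable _ _

lemma LL_add (hH : Continuous H) {f g : ℝ → ℝ} (hf : Continuous f) (hg : Continuous g) :
    LL H (fun s => f s + g s) = LL H f + LL H g := by
  unfold LL
  rw [← intervalIntegral.integral_add (LL_int hH hf _ _) (LL_int hH hg _ _)]
  congr 1
  funext s
  ring

lemma LL_sub (hH : Continuous H) {f g : ℝ → ℝ} (hf : Continuous f) (hg : Continuous g) :
    LL H (fun s => f s - g s) = LL H f - LL H g := by
  unfold LL
  rw [← intervalIntegral.integral_sub (LL_int hH hf _ _) (LL_int hH hg _ _)]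
  congr 1
  funext s
  ring

lemma LL_mul (c : ℝ) (f : ℝ → ℝ) : LL H (fun s => c * f s) = c * LL H f := by
  unfold LL
  rw [← intervalIntegral.integral_const_mul]
  congr 1
  funext s
  ring

lemma LL_mono (hH : Continuous H) {f g : ℝ → ℝ} (hf : Continuous f) (hg : Continuous g)
    (h : ∀ s, f s ≤ g s) : LL H f ≤ LL H g := by
  unfold LL
  apply intervalIntegral.integral_mono_on (by positivity) (LL_int hH hf _ _) (LL_int hH hg _ _)
  intro s _
  exact mul_le_mul_of_nonneg_right (h s) (exp_pos _).le

lemma LL_nonneg {f : ℝ → ℝ} (h : ∀ s, 0 ≤ f s) : 0 ≤ LL H f := by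
  unfold LL
  apply intervalIntegral.integral_nonneg (by positivity)
  intro s _
  exact mul_nonneg (h s) (exp_pos _).le

lemma LL_one_pos (hH : Continuous H) : 0 < LL H (fun _ => 1) := by
  unfold LL
  apply intervalIntegral.intervalIntegral_pos_of_pos (LL_int hH continuous_const _ _)
  · intro s
    rw [one_mul]
    exact exp_pos _
  · positivity

/-- Integration by parts. -/
lemma LL_ibp (hH : Continuous H) {R f f' : ℝ → ℝ} (hR : ∀ s, HasDerivAt H (R s) s)
    (hf : ∀ s, HasDerivAt f (f' s) s) (hcR : Continuous R) (hcf' : Continuous f')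
    (hHp : Function.Periodic H (2 * π)) (hfp : Function.Periodic f (2 * π)) :
    LL H f' = LL H (fun s => f s * R s) := by
  have hcf : Continuous f := continuous_iff_continuousAt.mpr fun s => (hf s).continuousAt
  have hd : ∀ s, HasDerivAt (fun s => f s * exp (-(H s)))
      (f' s * exp (-(H s)) - f s * R s * exp (-(H s))) s := by
    intro s
    have hneg : HasDerivAt (fun s => -(H s)) (-(R s)) s := (hR s).neg
    refine ((hf s).mul hneg.exp).congr_deriv ?_
    ring
  have h1 : ∫ s in (0:ℝ)..(2 * π), (f' s * exp (-(H s)) - f s * R s * exp (-(H s))) = 0 := by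
    rw [intervalIntegral.integral_eq_sub_of_hasDerivAt (f := fun s => f s * exp (-(H s)))
      (fun s _ => hd s) ((LL_int hH hcf' _ _).sub
        (LL_int hH (f := fun s => f s * R s) (hcf.mul hcR) _ _))]
    have e1 := hHp 0
    have e2 := hfp 0
    rw [zero_add] at e1 e2
    rw [e1, e2, sub_self]
  rw [intervalIntegral.integral_sub (LL_int hH hcf' _ _)
    (LL_int hH (f := fun s => f s * R s) (hcf.mul hcR) _ _), sub_eq_zero] at h1
  exact h1

/-- Cauchy-Schwarz. -/
lemma LL_cs (hH : Continuous H) {f g : ℝ → ℝ} (hf : Continuous f) (hg : Continuous g) :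
    LL H (fun s => f s * g s) ^ 2 ≤ LL H (fun s => f s ^ 2) * LL H (fun s => g s ^ 2) := by
  have h : ∀ x : ℝ, 0 ≤ LL H (fun s => g s ^ 2) * (x * x) +
      (2 * LL H (fun s => f s * g s)) * x + LL H (fun s => f s ^ 2) := by
    intro x
    have h1 : 0 ≤ LL H (fun s => (f s + x * g s) ^ 2) := LL_nonneg fun s => sq_nonneg _
    have h2 : LL H (fun s => (f s + x * g s) ^ 2) =
        LL H (fun s => x * x * g s ^ 2 + (2 * x * (f s * g s) + f s ^ 2)) := by
      congr 1
      funext s
      ring
    rw [h2, LL_add hH (by fun_prop) (by fun_prop), LL_add hH (by fun_prop) (by fun_prop),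
      LL_mul, LL_mul] at h1
    linarith
  have hd := discrim_le_zero h
  unfold discrim at hd
  nlinarith

end Pool.Agent.MP_a3e05c_co
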