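import Pool.Agent.Lib.MP_a3e05c_co.Sharp.Line
import Pool.Agent.Lib.MP_a3e05c_co.Sharp.Arith

set_option autoImplicit false

/-! The one-dimensional lower bound of the fourth moment. -/

namespace Pool.Agent.MP_a3e05c_co

open Real MeasureTheory Finset

variable {ι : Type*} [Fintype ι] (θ : ℝ) (c : ι → ℝ)

/-- Energy of the distinguished edge on the line. -/
noncomputable def y2 (s : ℝ) : ℝ := sin (θ + 2 * s) ^ 2

noncomputable def g2 (s : ℝ) : ℝ := sin (θ + 2 * s) * cos (θ + 2 * s)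

/-- Total potential on the line. -/
noncomputable def HH (s : ℝ) : ℝ := UW 1 (θ + 2 * s) + ∑ i, UW 1 (c i + s)

noncomputable def RR (s : ℝ) : ℝ := 2 * U1 1 (θ + 2 * s) + ∑ i, U1 1 (c i + s)

noncomputable def DR (s : ℝ) : ℝ := 4 * U2 1 (θ + 2 * s) + ∑ i, U2 1 (c i + s)

/-- Energy of the other edges on the line. -/
noncomputable def AA (s : ℝ) : ℝ := ∑ i, sin (c i + s) ^ 2

noncomputable def SS (s : ℝ) : ℝ := 4 * y2 θ s + AA c s

lemma hasDerivAt_lin (a b s : ℝ) : HasDerivAt (fun s => a + b * s) b s := by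
  simpa using ((hasDerivAt_id s).const_mul b).const_add a

lemma hasDerivAt_lin1 (a s : ℝ) : HasDerivAt (fun s => a + s) 1 s := by
  simpa using (hasDerivAt_id s).const_add a

lemma hasDerivAt_HH (s : ℝ) : HasDerivAt (HH θ c) (RR θ c s) s := by
  unfold RR
  have h1 : HasDerivAt (fun s => UW 1 (θ + 2 * s)) (U1 1 (θ + 2 * s) * 2) s :=
    HasDerivAt.comp (h₂ := UW 1) s (hasDerivAt_UW 1 (θ + 2 * s)) (hasDerivAt_lin θ 2 s)
  have h2 : ∀ i ∈ (Finset.univ : Finset ι), HasDerivAt (fun s => UW 1 (c i + s))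
      (U1 1 (c i + s) * 1) s := fun i _ =>
    HasDerivAt.comp (h₂ := UW 1) s (hasDerivAt_UW 1 (c i + s)) (hasDerivAt_lin1 (c i) s)
  have h3 := h1.add (HasDerivAt.fun_sum h2)
  have h4 : HasDerivAt (HH θ c) _ s := h3
  refine h4.congr_deriv ?_
  simp only [mul_one]
  ring

lemma hasDerivAt_RR (s : ℝ) : HasDerivAt (RR θ c) (DR θ c s) s := by
  unfold DR
  have h1 : HasDerivAt (fun s => U1 1 (θ + 2 * s)) (U2 1 (θ + 2 * s) * 2) s :=
    HasDerivAt.comp (h₂ := U1 1) s (hasDerivAt_U1 1 (θ + 2 * s)) (hasDerivAt_lin θ 2 s)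
  have h2 : ∀ i ∈ (Finset.univ : Finset ι), HasDerivAt (fun s => U1 1 (c i + s))
      (U2 1 (c i + s) * 1) s := fun i _ =>
    HasDerivAt.comp (h₂ := U1 1) s (hasDerivAt_U1 1 (c i + s)) (hasDerivAt_lin1 (c i) s)
  have h3 := (h1.const_mul 2).add (HasDerivAt.fun_sum h2)
  have h4 : HasDerivAt (RR θ c) _ s := h3
  refine h4.congr_deriv ?_
  simp only [mul_one]
  ring

lemma hasDerivAt_g2 (s : ℝ) : HasDerivAt (g2 θ) (2 * (1 - 2 * y2 θ s)) s := by
  have h1 : HasDerivAt (g2 θ) ((1 - 2 * sin (θ + 2 * s) ^ 2) * 2) s :=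
    HasDerivAt.comp (h₂ := fun θ => sin θ * cos θ) s (hasDerivAt_sincos (θ + 2 * s))
      (hasDerivAt_lin θ 2 s)
  refine h1.congr_deriv ?_
  unfold y2
  ring

lemma hasDerivAt_y2 (s : ℝ) : HasDerivAt (y2 θ) (4 * g2 θ s) s := by
  have h1 : HasDerivAt (y2 θ) ((2 * (sin (θ + 2 * s) * cos (θ + 2 * s))) * 2) s :=
    HasDerivAt.comp (h₂ := fun θ => sin θ ^ 2) s (hasDerivAt_sin_sq (θ + 2 * s))
      (hasDerivAt_lin θ 2 s)
  refine h1.congr_deriv ?_
  unfold g2
  ring

lemma g2_sq (s : ℝ) : g2 θ s ^ 2 = y2 θ s - y2 θ s ^ 2 := by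
  unfold g2 y2
  have hc : cos (θ + 2 * s) ^ 2 = 1 - sin (θ + 2 * s) ^ 2 := by
    linarith [sin_sq_add_cos_sq (θ + 2 * s)]
  rw [mul_pow, hc]
  ring

lemma y2_nonneg (s : ℝ) : 0 ≤ y2 θ s := sq_nonneg _

lemma y2_le_one (s : ℝ) : y2 θ s ≤ 1 := sin_sq_le_one' _

lemma AA_nonneg (s : ℝ) : 0 ≤ AA c s := Finset.sum_nonneg fun _ _ => sq_nonneg _

lemma SS_nonneg (s : ℝ) : 0 ≤ SS θ c s := by
  unfold SS
  have := y2_nonneg θ s
  have := AA_nonneg c s
  linarith

lemma continuous_y2 : Continuous (y2 θ) := by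
  unfold y2; fun_prop

lemma continuous_g2 : Continuous (g2 θ) := by
  unfold g2; fun_prop

lemma continuous_HH : Continuous (HH θ c) :=
  continuous_iff_continuousAt.mpr fun s => (hasDerivAt_HH θ c s).continuousAt

lemma continuous_RR : Continuous (RR θ c) :=
  continuous_iff_continuousAt.mpr fun s => (hasDerivAt_RR θ c s).continuousAt

lemma continuous_DR : Continuous (DR θ c) := by
  unfold DR
  have h := continuous_U2 1
  fun_prop

lemma continuous_AA : Continuous (AA c) := by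
  unfold AA; fun_prop

lemma continuous_SS : Continuous (SS θ c) := by
  unfold SS
  have h1 := continuous_y2 θ
  have h2 := continuous_AA c
  fun_prop

lemma per_double {f : ℝ → ℝ} (hf : Function.Periodic f (2 * π)) (θ : ℝ) :
    Function.Periodic (fun s => f (θ + 2 * s)) (2 * π) := by
  intro s
  have h := hf.nsmul 2 (θ + 2 * s)
  dsimp only
  rw [← h]
  congr 1
  rw [nsmul_eq_mul]
  push_cast
  ring

lemma per_single {f : ℝ → ℝ} (hf : Function.Periodic f (2 * π)) (a : ℝ) :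
    Function.Periodic (fun s => f (a + s)) (2 * π) := by
  intro s
  have h := hf (a + s)
  dsimp only
  rw [← h]
  congr 1
  ring

lemma HH_periodic : Function.Periodic (HH θ c) (2 * π) := by
  intro s
  unfold HH
  have h1 := per_double (UW_periodic 1) θ s
  have h2 : ∀ i, UW 1 (c i + (s + 2 * π)) = UW 1 (c i + s) :=
    fun i => per_single (UW_periodic 1) (c i) s
  dsimp only at h1
  rw [h1]
  simp_rw [h2]

lemma RR_periodic : Function.Periodic (RR θ c) (2 * π) := by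
  intro s
  unfold RR
  have h1 := per_double (U1_periodic 1) θ s
  have h2 : ∀ i, U1 1 (c i + (s + 2 * π)) = U1 1 (c i + s) :=
    fun i => per_single (U1_periodic 1) (c i) s
  dsimp only at h1
  rw [h1]
  simp_rw [h2]

lemma g2_periodic : Function.Periodic (g2 θ) (2 * π) := by
  have h : Function.Periodic (fun θ => sin θ * cos θ) (2 * π) := by
    intro t
    simp only [sin_add_two_pi, cos_add_two_pi]
  exact per_double h θ

lemma y2_periodic : Function.Periodic (y2 θ) (2 * π) :=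
  per_double sin_sq_periodic θ

/-- The number of edges, with the distinguished edge counted four times. -/
noncomputable def NN (ι : Type*) [Fintype ι] : ℝ := 4 + Fintype.card ι

lemma abs_DR_sub_le (s : ℝ) : |DR θ c s - NN ι| ≤ 7 * SS θ c s := by
  have h1 := abs_U2_sub_one_le (s := 1) (by norm_num) le_rfl (θ + 2 * s)
  have h2 : ∀ i, |U2 1 (c i + s) - 1| ≤ 7 * sin (c i + s) ^ 2 :=
    fun i => abs_U2_sub_one_le (by norm_num) le_rfl _
  have h3 : DR θ c s - NN ι = 4 * (U2 1 (θ + 2 * s) - 1) + ∑ i, (U2 1 (c i + s) - 1) := by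
    unfold DR NN
    rw [Finset.sum_sub_distrib, Finset.sum_const, Finset.card_univ, nsmul_eq_mul]
    ring
  rw [h3]
  refine (abs_add_le _ _).trans ?_
  rw [abs_mul, abs_of_pos (by norm_num : (0:ℝ) < 4)]
  have h4 := (Finset.abs_sum_le_sum_abs (fun i => U2 1 (c i + s) - 1) Finset.univ).trans
    (Finset.sum_le_sum fun i _ => h2 i)
  rw [← Finset.mul_sum] at h4
  unfold SS AA y2
  linarith

lemma RR_sq_le (s : ℝ) : RR θ c s ^ 2 ≤ 25 / 4 * (NN ι * SS θ c s) := by
  have h1 := U1_sq_le (s := 1) (by norm_num) le_rfl (θ + 2 * s)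
  have h2 : ∀ i, U1 1 (c i + s) ^ 2 ≤ 25 / 4 * sin (c i + s) ^ 2 :=
    fun i => U1_sq_le (by norm_num) le_rfl _
  set f : Option ι → ℝ := fun o => o.elim (2 * U1 1 (θ + 2 * s)) (fun i => U1 1 (c i + s)) with hf
  have h3 := sq_sum_le_card_mul_sum_sq (s := (Finset.univ : Finset (Option ι))) (f := f)
  rw [Fintype.sum_option, Fintype.sum_option, Finset.card_univ, Fintype.card_option] at h3
  simp only [hf, Option.elim_none, Option.elim_some] at h3
  have h4 : ∑ i, U1 1 (c i + s) ^ 2 ≤ 25 / 4 * AA c s := by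
    unfold AA
    rw [Finset.mul_sum]
    exact Finset.sum_le_sum fun i _ => h2 i
  have h5 : RR θ c s ^ 2 ≤ ((Fintype.card ι + 1 : ℕ) : ℝ) *
      ((2 * U1 1 (θ + 2 * s)) ^ 2 + ∑ i, U1 1 (c i + s) ^ 2) := h3
  have h6 : (2 * U1 1 (θ + 2 * s)) ^ 2 + ∑ i, U1 1 (c i + s) ^ 2 ≤ 25 / 4 * SS θ c s := by
    unfold SS y2
    nlinarith
  have h7 : ((Fintype.card ι + 1 : ℕ) : ℝ) ≤ NN ι := by
    unfold NN
    push_cast
    linarith
  have h8 := SS_nonneg θ c s
  calc RR θ c s ^ 2 ≤ _ := h5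
    _ ≤ ((Fintype.card ι + 1 : ℕ) : ℝ) * (25 / 4 * SS θ c s) :=
        mul_le_mul_of_nonneg_left h6 (by positivity)
    _ ≤ NN ι * (25 / 4 * SS θ c s) := mul_le_mul_of_nonneg_right h7 (by positivity)
    _ = _ := by ring

end Pool.Agent.MP_a3e05c_co
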