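import Pool.Agent.Lib.MP_a3e05c_co.Sharp.OneD

set_option autoImplicit false

/-! Integration by parts identities on a line. -/

namespace Pool.Agent.MP_a3e05c_co

open Real MeasureTheory Finset

variable {ι : Type*} [Fintype ι] (θ : ℝ) (c : ι → ℝ)

/-- `E[gR] = E[2 (1 - 2y)]`. -/
lemma ibp_a : LL (HH θ c) (fun s => g2 θ s * RR θ c s) =
    LL (HH θ c) (fun s => 2 * (1 - 2 * y2 θ s)) := by
  have h := LL_ibp (continuous_HH θ c) (hasDerivAt_HH θ c) (hasDerivAt_g2 θ)
    (continuous_RR θ c) (by have := continuous_y2 θ; fun_prop) (HH_periodic θ c) (g2_periodic θ)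
  exact h.symm

lemma ibp_b : LL (HH θ c) (fun s => RR θ c s ^ 2) = LL (HH θ c) (DR θ c) := by
  have h := LL_ibp (continuous_HH θ c) (hasDerivAt_HH θ c) (hasDerivAt_RR θ c)
    (continuous_RR θ c) (continuous_DR θ c) (HH_periodic θ c) (RR_periodic θ c)
  rw [h]
  congr 1
  funext s
  ring

/-- The function `k = g (1 - 2y)`. -/
lemma ibp_k : LL (HH θ c) (fun s => (g2 θ s * (1 - 2 * y2 θ s)) * RR θ c s) =
    LL (HH θ c) (fun s => 2 - 16 * g2 θ s ^ 2) := by
  have hd : ∀ s, HasDerivAt (fun s => g2 θ s * (1 - 2 * y2 θ s)) (2 - 16 * g2 θ s ^ 2) s := by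
    intro s
    have h1 : HasDerivAt (fun s => 1 - 2 * y2 θ s) (-(2 * (4 * g2 θ s))) s :=
      ((hasDerivAt_y2 θ s).const_mul 2).const_sub 1
    refine ((hasDerivAt_g2 θ s).mul h1).congr_deriv ?_
    have h2 := g2_sq θ s
    nlinarith
  have hper : Function.Periodic (fun s => g2 θ s * (1 - 2 * y2 θ s)) (2 * π) := by
    intro s
    have e1 := g2_periodic θ s
    have e2 := y2_periodic θ s
    simp only [e1, e2]
  have h := LL_ibp (continuous_HH θ c) (hasDerivAt_HH θ c) hd
    (continuous_RR θ c) (by have := continuous_g2 θ; fun_prop) (HH_periodic θ c) hper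
  exact h.symm

lemma ibp_c : LL (HH θ c) (fun s => (g2 θ s * RR θ c s) ^ 2) =
    LL (HH θ c) (fun s => 8 - 64 * g2 θ s ^ 2) +
      LL (HH θ c) (fun s => g2 θ s ^ 2 * DR θ c s) := by
  have hd : ∀ s, HasDerivAt (fun s => g2 θ s ^ 2 * RR θ c s)
      (4 * (g2 θ s * (1 - 2 * y2 θ s) * RR θ c s) + g2 θ s ^ 2 * DR θ c s) s := by
    intro s
    refine (((hasDerivAt_g2 θ s).pow 2).mul (hasDerivAt_RR θ c s)).congr_deriv ?_
    simp only [Pi.pow_apply]
    push_cast
    ring
  have hper : Function.Periodic (fun s => g2 θ s ^ 2 * RR θ c s) (2 * π) := by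
    intro s
    have e1 := g2_periodic θ s
    have e2 := RR_periodic θ c s
    simp only [e1, e2]
  have cg := continuous_g2 θ
  have cy := continuous_y2 θ
  have cR := continuous_RR θ c
  have cD := continuous_DR θ c
  have cH := continuous_HH θ c
  have h := LL_ibp cH (hasDerivAt_HH θ c) hd cR (by fun_prop) (HH_periodic θ c) hper
  rw [LL_add cH (by fun_prop) (by fun_prop), LL_mul, ibp_k] at h
  have e1 : (fun s => (g2 θ s * RR θ c s) ^ 2) = fun s => g2 θ s ^ 2 * RR θ c s * RR θ c s := by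
    funext s; ring
  rw [e1, ← h, ← LL_mul]
  congr 2
  funext s
  ring

lemma ibp_d : LL (HH θ c) (fun s => (RR θ c s ^ 2) ^ 2) =
    LL (HH θ c) (fun s => 3 * (RR θ c s ^ 2 * DR θ c s)) := by
  have hd : ∀ s, HasDerivAt (fun s => RR θ c s ^ 3) (3 * (RR θ c s ^ 2 * DR θ c s)) s := by
    intro s
    refine ((hasDerivAt_RR θ c s).pow 3).congr_deriv ?_
    push_cast
    ring
  have hper : Function.Periodic (fun s => RR θ c s ^ 3) (2 * π) := by
    intro s
    have e2 := RR_periodic θ c s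
    simp only [e2]
  have cR := continuous_RR θ c
  have cD := continuous_DR θ c
  have cH := continuous_HH θ c
  have h := LL_ibp cH (hasDerivAt_HH θ c) hd cR (by fun_prop) (HH_periodic θ c) hper
  rw [h]
  congr 1
  funext s
  ring

/-- Mean value with respect to the weight. -/
noncomputable def EE (f : ℝ → ℝ) : ℝ := LL (HH θ c) f / LL (HH θ c) (fun _ => 1)

lemma EE_mono {f g : ℝ → ℝ} (hf : Continuous f) (hg : Continuous g) (h : ∀ s, f s ≤ g s) :
    EE θ c f ≤ EE θ c g :=
  div_le_div_of_nonneg_right (LL_mono (continuous_HH θ c) hf hg h)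
    (LL_one_pos (continuous_HH θ c)).le

lemma EE_add {f g : ℝ → ℝ} (hf : Continuous f) (hg : Continuous g) :
    EE θ c (fun s => f s + g s) = EE θ c f + EE θ c g := by
  unfold EE
  rw [LL_add (continuous_HH θ c) hf hg, add_div]

lemma EE_sub {f g : ℝ → ℝ} (hf : Continuous f) (hg : Continuous g) :
    EE θ c (fun s => f s - g s) = EE θ c f - EE θ c g := by
  unfold EE
  rw [LL_sub (continuous_HH θ c) hf hg, sub_div]

lemma EE_mul (a : ℝ) (f : ℝ → ℝ) : EE θ c (fun s => a * f s) = a * EE θ c f := by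
  unfold EE
  rw [LL_mul, mul_div_assoc]

lemma EE_const (a : ℝ) : EE θ c (fun _ => a) = a := by
  have h := EE_mul θ c a (fun _ => 1)
  simp only [mul_one] at h
  rw [h]
  unfold EE
  rw [div_self (LL_one_pos (continuous_HH θ c)).ne', mul_one]

lemma EE_nonneg {f : ℝ → ℝ} (h : ∀ s, 0 ≤ f s) : 0 ≤ EE θ c f :=
  div_nonneg (LL_nonneg h) (LL_one_pos (continuous_HH θ c)).le

lemma EE_cs {f g : ℝ → ℝ} (hf : Continuous f) (hg : Continuous g) :
    EE θ c (fun s => f s * g s) ^ 2 ≤ EE θ c (fun s => f s ^ 2) * EE θ c (fun s => g s ^ 2) := by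
  unfold EE
  rw [div_pow, div_mul_div_comm, ← pow_two (LL (HH θ c) fun _ => 1)]
  exact div_le_div_of_nonneg_right (LL_cs (continuous_HH θ c) hf hg) (sq_nonneg _)

lemma EE_sq_le {f : ℝ → ℝ} (hf : Continuous f) : EE θ c f ^ 2 ≤ EE θ c (fun s => f s ^ 2) := by
  have h := EE_cs θ c hf (continuous_const (y := (1:ℝ)))
  simp only [mul_one, one_pow, EE_const] at h
  exact h

end Pool.Agent.MP_a3e05c_co
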