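import Pool.Agent.Lib.MP_a3e05c_co.Sharp.OneE

set_option autoImplicit false

/-! Doubling, the second moment of the energy on a line, and the final form of the
one-dimensional lower bound. -/

namespace Pool.Agent.MP_a3e05c_co

open Real MeasureTheory Finset

/-- The integral of `exp (- l sin²)` over one period. -/
noncomputable def JJ (l : ℝ) : ℝ := ∫ s in (0:ℝ)..(2 * π), exp (-(l * sin s ^ 2))

lemma JJ_eq (l : ℝ) : JJ l = ∫ φ in (-π)..π, Ex (l / 2) φ := by
  have h0 : ∀ s, exp (-(l * sin s ^ 2)) = Ex (l / 2) (2 * s) := by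
    intro s
    unfold Ex
    congr 1
    rw [cos_two_mul]
    have := sin_sq_add_cos_sq s
    have e : cos s ^ 2 = 1 - sin s ^ 2 := by linarith
    rw [e]
    ring
  unfold JJ
  simp_rw [h0]
  rw [intervalIntegral.integral_comp_mul_left (fun y => Ex (l / 2) y) (two_ne_zero), smul_eq_mul]
  have h3 := Function.Periodic.intervalIntegral_add_zsmul_eq (Ex_periodic (l / 2)) 2 0
    (fun _ _ => (Ex_continuous (l / 2)).intervalIntegrable _ _)
  have h4 := Function.Periodic.intervalIntegral_add_eq (Ex_periodic (l / 2)) 0 (-π)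
  have e2 : 2 * (2 * π) = 0 + (2 : ℤ) • (2 * π) := by
    rw [zsmul_eq_mul]; push_cast; ring
  have e3 : -π + 2 * π = π := by ring
  rw [mul_zero, e2, h3, h4, e3, zsmul_eq_mul]
  push_cast
  ring

lemma JJ_doubling {l : ℝ} (hl : 0 ≤ l) : JJ l ≤ 2 * JJ (2 * l) := by
  have h := doubling_integral (l := l / 2) (by positivity)
  rw [JJ_eq, JJ_eq]
  have e : 2 * (l / 2) = 2 * l / 2 := by ring
  rw [e] at h
  exact h

lemma continuous_JJ_integrand (l a : ℝ) : Continuous (fun s => exp (-(l * sin (s + a) ^ 2))) := by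
  fun_prop

lemma JJ_anti {l l' : ℝ} (h : l ≤ l') : JJ l' ≤ JJ l := by
  unfold JJ
  apply intervalIntegral.integral_mono_on (by positivity)
  · exact Continuous.intervalIntegrable (by fun_prop) _ _
  · exact Continuous.intervalIntegrable (by fun_prop) _ _
  · intro s _
    apply exp_le_exp.mpr
    have : l * sin s ^ 2 ≤ l' * sin s ^ 2 := mul_le_mul_of_nonneg_right h (sq_nonneg _)
    linarith

lemma JJ_pos (l : ℝ) : 0 < JJ l := by
  unfold JJ
  apply intervalIntegral.intervalIntegral_pos_of_pos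
  · exact Continuous.intervalIntegrable (by fun_prop) _ _
  · intro s
    exact exp_pos _
  · positivity

lemma JJ_shift (l a : ℝ) : ∫ s in (0:ℝ)..(2 * π), exp (-(l * sin (s + a) ^ 2)) = JJ l := by
  have hp : Function.Periodic (fun s => exp (-(l * sin s ^ 2))) (2 * π) := by
    intro s
    simp only [sin_add_two_pi]
  rw [intervalIntegral.integral_comp_add_right (fun s => exp (-(l * sin s ^ 2)))]
  have h := Function.Periodic.intervalIntegral_add_eq hp a 0
  rw [zero_add] at h
  rw [zero_add, add_comm (2 * π) a, h]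
  rfl

section Star

variable {ι : Type*} [Fintype ι] (c : ι → ℝ)

/-- The energy of a star is `m + ρ sin²` of the shifted angle. -/
lemma star_repr : ∃ m ρ φ : ℝ, 0 ≤ m ∧ 0 ≤ ρ ∧ ∀ s, AA c s = m + ρ * sin (s + φ) ^ 2 := by
  set P := ∑ i, cos (2 * c i) with hP
  set Q := ∑ i, sin (2 * c i) with hQ
  set z : ℂ := ⟨P, Q⟩ with hz
  have hre : ‖z‖ * cos z.arg = P := Complex.norm_mul_cos_arg z
  have him : ‖z‖ * sin z.arg = Q := Complex.norm_mul_sin_arg z
  have key : ∀ s, AA c s = ((Fintype.card ι : ℝ) - ‖z‖) / 2 + ‖z‖ * sin (s + z.arg / 2) ^ 2 := by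
    intro s
    have h1 : AA c s = (Fintype.card ι : ℝ) / 2 - (P * cos (2 * s) - Q * sin (2 * s)) / 2 := by
      unfold AA
      have h2 : ∀ i, sin (c i + s) ^ 2 =
          1 / 2 - (cos (2 * c i) * cos (2 * s) - sin (2 * c i) * sin (2 * s)) / 2 := by
        intro i
        rw [← cos_add, ← mul_add, cos_two_mul]
        have := sin_sq_add_cos_sq (c i + s)
        linarith
      simp_rw [h2]
      rw [Finset.sum_sub_distrib, Finset.sum_const, Finset.card_univ, nsmul_eq_mul,
        ← Finset.sum_div, Finset.sum_sub_distrib, ← Finset.sum_mul, ← Finset.sum_mul]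
      ring
    have h3 : sin (s + z.arg / 2) ^ 2 = 1 / 2 - cos (2 * s + z.arg) / 2 := by
      have e : 2 * s + z.arg = 2 * (s + z.arg / 2) := by ring
      rw [e, cos_two_mul]
      have := sin_sq_add_cos_sq (s + z.arg / 2)
      linarith
    rw [h1, h3, cos_add, ← hre, ← him]
    ring
  refine ⟨((Fintype.card ι : ℝ) - ‖z‖) / 2, ‖z‖, z.arg / 2, ?_, norm_nonneg _, key⟩
  have h := key (-(z.arg / 2))
  rw [neg_add_cancel, sin_zero] at h
  have h2 := AA_nonneg c (-(z.arg / 2))
  rw [h] at h2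
  simpa using h2

lemma int_exp_AA {m ρ φ : ℝ} (h : ∀ s, AA c s = m + ρ * sin (s + φ) ^ 2) (l : ℝ) :
    ∫ s in (0:ℝ)..(2 * π), exp (-(l * AA c s)) = exp (-(l * m)) * JJ (l * ρ) := by
  rw [← JJ_shift (l * ρ) φ, ← intervalIntegral.integral_const_mul]
  congr 1
  funext s
  rw [h, ← exp_add]
  congr 1
  ring

end Star

section Moment

variable {ι : Type*} [Fintype ι] (θ : ℝ) (c : ι → ℝ)

lemma HH_ge (s : ℝ) : AA c s / 2 ≤ HH θ c s := by
  unfold HH AA
  have h1 := UW_ge (s := 1) (by norm_num) (θ + 2 * s)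
  have h2 : ∑ i, sin (c i + s) ^ 2 / 2 ≤ ∑ i, UW 1 (c i + s) :=
    Finset.sum_le_sum fun i _ => UW_ge (by norm_num) _
  rw [← Finset.sum_div] at h2
  have := sq_nonneg (sin (θ + 2 * s))
  linarith

lemma HH_le (s : ℝ) : HH θ c s ≤ 1 + AA c s := by
  unfold HH AA
  have h1 := UW_le (s := 1) (by norm_num) le_rfl (θ + 2 * s)
  have h2 : ∑ i, UW 1 (c i + s) ≤ ∑ i, sin (c i + s) ^ 2 :=
    Finset.sum_le_sum fun i _ => UW_le (by norm_num) le_rfl _
  have := sin_sq_le_one' (θ + 2 * s)
  linarith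

lemma exp_one_lt_three' : exp 1 < 2.75 := lt_trans exp_one_lt_d9 (by norm_num)

lemma exp_moment {m ρ φ : ℝ} (hm : 0 ≤ m) (hρ : 0 ≤ ρ)
    (h : ∀ s, AA c s = m + ρ * sin (s + φ) ^ 2) :
    EE θ c (fun s => exp (AA c s / 4 - m)) ≤ 11 := by
  have cA := continuous_AA c
  have cH := continuous_HH θ c
  unfold EE
  rw [div_le_iff₀ (LL_one_pos cH)]
  have h1 : LL (HH θ c) (fun s => exp (AA c s / 4 - m)) ≤ exp (-m) * (exp (-(1 / 4 * m)) * JJ (1 / 4 * ρ)) := by
    rw [← int_exp_AA c h, ← intervalIntegral.integral_const_mul]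
    unfold LL
    apply intervalIntegral.integral_mono_on (by positivity)
    · exact Continuous.intervalIntegrable (by fun_prop) _ _
    · exact Continuous.intervalIntegrable (by fun_prop) _ _
    · intro s _
      rw [← exp_add, ← exp_add]
      apply exp_le_exp.mpr
      have := HH_ge θ c s
      linarith
  have h2 : exp (-1) * (exp (-(1 * m)) * JJ (1 * ρ)) ≤ LL (HH θ c) (fun _ => 1) := by
    rw [← int_exp_AA c h, ← intervalIntegral.integral_const_mul]
    unfold LL
    apply intervalIntegral.integral_mono_on (by positivity)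
    · exact Continuous.intervalIntegrable (by fun_prop) _ _
    · exact Continuous.intervalIntegrable (by fun_prop) _ _
    · intro s _
      simp only [one_mul]
      rw [← exp_add]
      apply exp_le_exp.mpr
      have := HH_le θ c s
      linarith
  rw [one_mul, one_mul] at h2
  have h3 := JJ_doubling (l := 1 / 4 * ρ) (by positivity)
  have h4 := JJ_doubling (l := 1 / 2 * ρ) (by positivity)
  have e3 : 2 * (1 / 4 * ρ) = 1 / 2 * ρ := by ring
  have e4 : 2 * (1 / 2 * ρ) = ρ := by ring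
  rw [e3] at h3
  rw [e4] at h4
  have h5 : JJ (1 / 4 * ρ) ≤ 4 * JJ ρ := by linarith
  have h6 : exp (-(1 / 4 * m)) ≤ 1 := by
    rw [exp_le_one_iff]
    linarith
  have h7 : exp 1 * exp (-1) = 1 := by
    rw [← exp_add]; norm_num
  have hJ := JJ_pos ρ
  have hE := exp_pos (-m)
  have hE1 := exp_pos (-(1:ℝ))
  calc LL (HH θ c) (fun s => exp (AA c s / 4 - m))
      ≤ exp (-m) * (exp (-(1 / 4 * m)) * JJ (1 / 4 * ρ)) := h1
    _ ≤ exp (-m) * (1 * (4 * JJ ρ)) := by
        apply mul_le_mul_of_nonneg_left _ hE.le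
        exact mul_le_mul h6 h5 (JJ_pos _).le (by norm_num)
    _ = 4 * exp 1 * (exp (-1) * (exp (-m) * JJ ρ)) := by
        have : 4 * exp 1 * (exp (-1) * (exp (-m) * JJ ρ)) =
          4 * (exp 1 * exp (-1)) * (exp (-m) * JJ ρ) := by ring
        rw [this, h7]
        ring
    _ ≤ 4 * exp 1 * LL (HH θ c) (fun _ => 1) :=
        mul_le_mul_of_nonneg_left h2 (by positivity)
    _ ≤ 11 * LL (HH θ c) (fun _ => 1) := by
        apply mul_le_mul_of_nonneg_right _ (LL_one_pos cH).le
        linarith [exp_one_lt_three']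

lemma tau_sq_le (m t : ℝ) (ht : 0 ≤ t) : t ^ 2 ≤ 2 * m ^ 2 + 4 * exp (t - m) := by
  have h0 := exp_pos (t - m)
  rcases le_or_gt t m with h | h
  · nlinarith [sq_nonneg m]
  · have h1 := quadratic_le_exp_of_nonneg (by linarith : 0 ≤ t - m)
    nlinarith [sq_nonneg (t - 2 * m)]

lemma second_moment {m ρ φ : ℝ} (hm : 0 ≤ m) (hρ : 0 ≤ ρ)
    (h : ∀ s, AA c s = m + ρ * sin (s + φ) ^ 2) :
    EE θ c (fun s => SS θ c s ^ 2) ≤ 1440 + 64 * m ^ 2 := by
  have cA := continuous_AA c
  have cS := continuous_SS θ c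
  have h1 := exp_moment θ c hm hρ h
  have h2 := EE_mono θ c (f := fun s => SS θ c s ^ 2)
    (g := fun s => (32 + 64 * m ^ 2) + 128 * exp (AA c s / 4 - m)) (by fun_prop) (by fun_prop)
    (fun s => by
      have a1 := tau_sq_le m (AA c s / 4) (by have := AA_nonneg c s; positivity)
      have a2 := y2_le_one θ s
      have a3 := y2_nonneg θ s
      have a4 := AA_nonneg c s
      have a5 : SS θ c s ≤ 4 + AA c s := by unfold SS; linarith
      have a6 := SS_nonneg θ c s
      have a7 : SS θ c s ^ 2 ≤ (4 + AA c s) ^ 2 := pow_le_pow_left₀ a6 a5 2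
      nlinarith [sq_nonneg (4 - AA c s)])
  rw [EE_add θ c continuous_const (by fun_prop), EE_const, EE_mul] at h2
  linarith

lemma m_add_rho_le {m ρ φ : ℝ} (h : ∀ s, AA c s = m + ρ * sin (s + φ) ^ 2) :
    m + ρ ≤ Fintype.card ι := by
  have h1 := h (π / 2 - φ)
  rw [sub_add_cancel, sin_pi_div_two, one_pow, mul_one] at h1
  rw [← h1]
  unfold AA
  have h2 : ∑ i, sin (c i + (π / 2 - φ)) ^ 2 ≤ ∑ _i : ι, (1:ℝ) :=
    Finset.sum_le_sum fun i _ => sin_sq_le_one' _
  refine h2.trans (le_of_eq ?_)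
  rw [Finset.sum_const, Finset.card_univ, nsmul_eq_mul, mul_one]

lemma SS_le_NN (s : ℝ) : SS θ c s ≤ NN ι := by
  unfold SS NN AA
  have h1 := y2_le_one θ s
  have h2 : ∑ i, sin (c i + s) ^ 2 ≤ ∑ _i : ι, (1:ℝ) :=
    Finset.sum_le_sum fun i _ => sin_sq_le_one' _
  rw [Finset.sum_const, Finset.card_univ, nsmul_eq_mul, mul_one] at h2
  linarith

/-- The mean energy of the other edges. -/
lemma mean_AA {m ρ φ : ℝ} (hm : 0 ≤ m) (hρ : 0 ≤ ρ)
    (h : ∀ s, AA c s = m + ρ * sin (s + φ) ^ 2) : EE θ c (AA c) ≤ 4 * m + 40 := by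
  have h1 := exp_moment θ c hm hρ h
  have cA := continuous_AA c
  have h2 := EE_mono θ c (f := fun s => (1 - m) + 1 / 4 * AA c s)
    (g := fun s => exp (AA c s / 4 - m)) (by fun_prop) (by fun_prop) (fun s => by
      have := add_one_le_exp (AA c s / 4 - m)
      linarith)
  rw [EE_add θ c continuous_const (by fun_prop), EE_const, EE_mul] at h2
  linarith

/-- Integration by parts for `R² f`, `f = ρ sin²`. -/
lemma R_sq_f {m ρ φ : ℝ} (hρ : 0 ≤ ρ) (h : ∀ s, AA c s = m + ρ * sin (s + φ) ^ 2)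
    (hm : 0 ≤ m) :
    EE θ c (fun s => RR θ c s ^ 2 * (AA c s - m)) ≤
      8 * NN ι * (EE θ c (AA c) - m) + 2 * NN ι := by
  have cR := continuous_RR θ c
  have cD := continuous_DR θ c
  have cH := continuous_HH θ c
  have cA := continuous_AA c
  have cS := continuous_SS θ c
  set f : ℝ → ℝ := fun s => AA c s - m with hf
  set f1 : ℝ → ℝ := fun s => ρ * (2 * (sin (s + φ) * cos (s + φ))) with hf1
  set f2 : ℝ → ℝ := fun s => ρ * (2 * (1 - 2 * sin (s + φ) ^ 2)) with hf2
  have hff : ∀ s, f s = ρ * sin (s + φ) ^ 2 := by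
    intro s
    rw [hf]
    simp only
    rw [h s]
    ring
  have hlin : ∀ s, HasDerivAt (fun s : ℝ => s + φ) 1 s := fun s => by
    simpa using (hasDerivAt_id s).add_const φ
  have d1 : ∀ s, HasDerivAt f (f1 s) s := by
    intro s
    have a1 : HasDerivAt (fun s => sin (s + φ) ^ 2) (2 * (sin (s + φ) * cos (s + φ)) * 1) s :=
      HasDerivAt.comp (h₂ := fun θ => sin θ ^ 2) s (hasDerivAt_sin_sq (s + φ)) (hlin s)
    have a2 := a1.const_mul ρ
    rw [mul_one] at a2
    have e : f = fun s => ρ * sin (s + φ) ^ 2 := funext hff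
    rw [e]
    exact a2
  have d2 : ∀ s, HasDerivAt f1 (f2 s) s := by
    intro s
    have a1 : HasDerivAt (fun s => sin (s + φ) * cos (s + φ)) ((1 - 2 * sin (s + φ) ^ 2) * 1) s :=
      HasDerivAt.comp (h₂ := fun θ => sin θ * cos θ) s (hasDerivAt_sincos (s + φ)) (hlin s)
    have a2 := (a1.const_mul 2).const_mul ρ
    rw [mul_one] at a2
    exact a2
  have cf : Continuous f := by rw [hf]; fun_prop
  have cf1 : Continuous f1 := by rw [hf1]; fun_prop
  have cf2 : Continuous f2 := by rw [hf2]; fun_prop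
  have pf : Function.Periodic f (2 * π) := by
    intro s
    rw [hff, hff, add_right_comm, sin_add_two_pi]
  have pf1 : Function.Periodic f1 (2 * π) := by
    intro s
    simp only [hf1]
    rw [add_right_comm, sin_add_two_pi, cos_add_two_pi]
  have i1 := LL_ibp cH (hasDerivAt_HH θ c) (f := fun s => RR θ c s * f s)
    (f' := fun s => DR θ c s * f s + RR θ c s * f1 s)
    (fun s => (hasDerivAt_RR θ c s).mul (d1 s)) cR (by fun_prop) (HH_periodic θ c) (by
      intro s
      have e1 := RR_periodic θ c s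
      have e2 := pf s
      simp only [e1, e2])
  have i2 := LL_ibp cH (hasDerivAt_HH θ c) d2 cR cf2 (HH_periodic θ c) pf1
  have j1 : EE θ c (fun s => RR θ c s ^ 2 * f s) =
      EE θ c (fun s => DR θ c s * f s) + EE θ c (fun s => RR θ c s * f1 s) := by
    rw [← EE_add θ c (by fun_prop) (by fun_prop)]
    unfold EE
    rw [i1]
    congr 2
    funext s
    ring
  have j2 : EE θ c (fun s => RR θ c s * f1 s) = EE θ c f2 := by
    unfold EE
    rw [i2]
    congr 2
    funext s
    ring
  have hN := m_add_rho_le c h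
  have hNN : NN ι = 4 + Fintype.card ι := rfl
  have j3 : EE θ c f2 ≤ 2 * NN ι := by
    have := EE_mono θ c (f := f2) (g := fun _ => 2 * NN ι) cf2 continuous_const (fun s => by
      have a1 : f2 s ≤ ρ * 2 := by
        simp only [hf2]
        apply mul_le_mul_of_nonneg_left _ hρ
        nlinarith [sq_nonneg (sin (s + φ))]
      linarith)
    rwa [EE_const] at this
  have j4 : EE θ c (fun s => DR θ c s * f s) ≤ 8 * NN ι * (EE θ c (AA c) - m) := by
    have := EE_mono θ c (f := fun s => DR θ c s * f s) (g := fun s => 8 * NN ι * f s)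
      (by fun_prop) (by fun_prop) (fun s => by
      have a1 := (abs_le.mp (abs_DR_sub_le θ c s)).2
      have a2 := SS_le_NN θ c s
      have a3 : 0 ≤ f s := by
        rw [hff]; positivity
      exact mul_le_mul_of_nonneg_right (by linarith) a3)
    rw [EE_mul] at this
    have e : EE θ c f = EE θ c (AA c) - m := by
      rw [hf, EE_sub θ c cA continuous_const, EE_const]
    rwa [e] at this
  have e0 : EE θ c (fun s => RR θ c s ^ 2 * (AA c s - m)) = EE θ c (fun s => RR θ c s ^ 2 * f s) := rfl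
  rw [e0, j1, j2]
  linarith

/-- `E[R² S]` is at most linear in `m`. -/
lemma R_sq_S {m ρ φ : ℝ} (hm : 0 ≤ m) (hρ : 0 ≤ ρ)
    (h : ∀ s, AA c s = m + ρ * sin (s + φ) ^ 2) :
    EE θ c (fun s => RR θ c s ^ 2 * SS θ c s) ≤ NN ι * (354 * (1 + m)) := by
  have cR := continuous_RR θ c
  have cD := continuous_DR θ c
  have cA := continuous_AA c
  have cS := continuous_SS θ c
  have hNN : (4:ℝ) ≤ NN ι := by
    unfold NN
    have : (0:ℝ) ≤ Fintype.card ι := by positivity
    linarith
  have h1 := R_sq_f θ c hρ h hm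
  have h2 := mean_AA θ c hm hρ h
  have h3 : EE θ c (fun s => RR θ c s ^ 2) ≤ 8 * NN ι := by
    have e : EE θ c (fun s => RR θ c s ^ 2) = EE θ c (DR θ c) := by
      unfold EE
      rw [ibp_b]
    rw [e]
    have := EE_mono θ c cD (g := fun _ => 8 * NN ι) continuous_const (fun s => by
      have a1 := (abs_le.mp (abs_DR_sub_le θ c s)).2
      have a2 := SS_le_NN θ c s
      linarith)
    rwa [EE_const] at this
  have h4 := EE_mono θ c (f := fun s => RR θ c s ^ 2 * SS θ c s)
    (g := fun s => (4 + m) * RR θ c s ^ 2 + RR θ c s ^ 2 * (AA c s - m)) (by fun_prop)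
    (by fun_prop) (fun s => by
      have a1 := y2_le_one θ s
      have a2 : SS θ c s ≤ (4 + m) + (AA c s - m) := by unfold SS; linarith
      have a3 := mul_le_mul_of_nonneg_left a2 (sq_nonneg (RR θ c s))
      linarith)
  rw [EE_add θ c (by fun_prop) (by fun_prop), EE_mul] at h4
  have h5 : (4 + m) * EE θ c (fun s => RR θ c s ^ 2) ≤ (4 + m) * (8 * NN ι) :=
    mul_le_mul_of_nonneg_left h3 (by linarith)
  have h6 : 8 * NN ι * (EE θ c (AA c) - m) ≤ 8 * NN ι * (3 * m + 40) :=
    mul_le_mul_of_nonneg_left (by linarith) (by linarith)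
  nlinarith [mul_nonneg hm (by linarith : (0:ℝ) ≤ NN ι)]

/-- The lower bound of the fourth moment on a line. -/
theorem fourth_moment {m ρ φ : ℝ} (hm : 0 ≤ m) (hρ : 0 ≤ ρ)
    (h : ∀ s, AA c s = m + ρ * sin (s + φ) ^ 2) :
    48 / NN ι ^ 2 * (1 - 3400 * (1 + m) / NN ι) ≤ EE θ c (fun s => y2 θ s ^ 2) := by
  have cg := continuous_g2 θ
  have cy := continuous_y2 θ
  have cR := continuous_RR θ c
  have cD := continuous_DR θ c
  have cA := continuous_AA c
  have cS := continuous_SS θ c
  have hNN : (4:ℝ) ≤ NN ι := by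
    unfold NN
    have : (0:ℝ) ≤ Fintype.card ι := by positivity
    linarith
  have hRS := R_sq_S θ c hm hρ h
  set N := NN ι with hN
  set q := Real.sqrt (EE θ c (fun s => SS θ c s ^ 2)) with hq
  have hq0 : 0 ≤ q := Real.sqrt_nonneg _
  have hq2 : q ^ 2 = EE θ c (fun s => SS θ c s ^ 2) :=
    Real.sq_sqrt (EE_nonneg θ c fun s => sq_nonneg _)
  have hq38 : q ≤ 38 * (1 + m) := by
    apply le_of_sq_le_sq _ (by positivity)
    rw [hq2]
    have := second_moment θ c hm hρ h
    nlinarith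
  have hSm : EE θ c (SS θ c) ≤ 44 * (1 + m) := by
    have h2 := mean_AA θ c hm hρ h
    have h4 := EE_mono θ c (f := SS θ c) (g := fun s => 4 + AA c s) cS (by fun_prop) (fun s => by
      have a1 := y2_le_one θ s
      unfold SS
      linarith)
    rw [EE_add θ c continuous_const cA, EE_const] at h4
    linarith
  -- pointwise facts
  have p1 : ∀ s, DR θ c s ≤ N + 7 * SS θ c s := fun s => by
    have := (abs_le.mp (abs_DR_sub_le θ c s)).2
    linarith
  have p2 : ∀ s, N - 7 * SS θ c s ≤ DR θ c s := fun s => by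
    have := (abs_le.mp (abs_DR_sub_le θ c s)).1
    linarith
  have p3 : ∀ s, g2 θ s ^ 2 ≤ y2 θ s := fun s => by
    rw [g2_sq]
    nlinarith [sq_nonneg (y2 θ s)]
  have hR2 : EE θ c (fun s => RR θ c s ^ 2) ≤ N + 308 * (1 + m) := by
    have e : EE θ c (fun s => RR θ c s ^ 2) = EE θ c (DR θ c) := by
      unfold EE
      rw [ibp_b]
    rw [e]
    have h := EE_mono θ c cD (g := fun s => N + 7 * SS θ c s) (by fun_prop) p1
    rw [EE_add θ c continuous_const (by fun_prop), EE_const, EE_mul] at h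
    linarith
  apply arith2 (ey := EE θ c (y2 θ)) (eg2 := EE θ c (fun s => g2 θ s ^ 2))
    (eyS := EE θ c (fun s => y2 θ s * SS θ c s)) (eR2 := EE θ c (fun s => RR θ c s ^ 2))
    (eR4 := EE θ c (fun s => (RR θ c s ^ 2) ^ 2))
    (u := EE θ c (fun s => (g2 θ s * RR θ c s) ^ 2)) (by linarith) (by linarith) hq0 hq38
  · exact EE_mono θ c (by fun_prop) cy p3
  · exact EE_nonneg θ c fun s => sq_nonneg _
  · -- (a)
    have h := EE_cs θ c cg cR
    have e : EE θ c (fun s => g2 θ s * RR θ c s) = 2 - 4 * EE θ c (y2 θ) := by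
      unfold EE at *
      rw [ibp_a]
      have e2 : (fun s => 2 * (1 - 2 * y2 θ s)) = fun s => 2 - 4 * y2 θ s := by
        funext s; ring
      rw [e2]
      have e3 := EE_sub θ c (continuous_const (y := (2:ℝ))) (cy.const_mul 4)
      unfold EE at e3
      rw [e3]
      have e4 := EE_const θ c 2
      have e5 := EE_mul θ c 4 (y2 θ)
      unfold EE at e4 e5
      rw [e4, e5]
    rw [e] at h
    exact h
  · exact hR2
  · -- (c)
    have e : EE θ c (fun s => (g2 θ s * RR θ c s) ^ 2) =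
        EE θ c (fun s => 8 - 64 * g2 θ s ^ 2) + EE θ c (fun s => g2 θ s ^ 2 * DR θ c s) := by
      unfold EE
      rw [ibp_c, add_div]
    rw [e, EE_sub θ c continuous_const (by fun_prop), EE_const, EE_mul]
    have h := EE_mono θ c (f := fun s => N * g2 θ s ^ 2 - 7 * (y2 θ s * SS θ c s))
      (g := fun s => g2 θ s ^ 2 * DR θ c s) (by fun_prop) (by fun_prop) (fun s => by
        have a1 := p2 s
        have a2 := p3 s
        have a3 := SS_nonneg θ c s
        have a4 : g2 θ s ^ 2 * (N - 7 * SS θ c s) ≤ g2 θ s ^ 2 * DR θ c s :=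
          mul_le_mul_of_nonneg_left a1 (sq_nonneg _)
        have a5 : g2 θ s ^ 2 * SS θ c s ≤ y2 θ s * SS θ c s := mul_le_mul_of_nonneg_right a2 a3
        nlinarith)
    rw [EE_sub θ c (by fun_prop) (by fun_prop), EE_mul, EE_mul] at h
    linarith
  · -- (d)
    have e : EE θ c (fun s => (RR θ c s ^ 2) ^ 2) =
        EE θ c (fun s => 3 * (RR θ c s ^ 2 * DR θ c s)) := by
      unfold EE
      rw [ibp_d]
    rw [e, EE_mul]
    have h := EE_mono θ c (f := fun s => RR θ c s ^ 2 * DR θ c s)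
      (g := fun s => N * RR θ c s ^ 2 + 7 * (RR θ c s ^ 2 * SS θ c s)) (by fun_prop) (by fun_prop)
      (fun s => by
        have a1 := p1 s
        have a4 : RR θ c s ^ 2 * DR θ c s ≤ RR θ c s ^ 2 * (N + 7 * SS θ c s) :=
          mul_le_mul_of_nonneg_left a1 (sq_nonneg _)
        linarith)
    rw [EE_add θ c (by fun_prop) (by fun_prop), EE_mul, EE_mul] at h
    have h3 : N * EE θ c (fun s => RR θ c s ^ 2) ≤ N * (N + 308 * (1 + m)) :=
      mul_le_mul_of_nonneg_left hR2 (by linarith)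
    linarith
  · -- (e)
    have h := EE_cs θ c (f := fun s => g2 θ s ^ 2) (g := fun s => RR θ c s ^ 2) (by fun_prop)
      (by fun_prop)
    have e : (fun s => (g2 θ s * RR θ c s) ^ 2) = fun s => g2 θ s ^ 2 * RR θ c s ^ 2 := by
      funext s; ring
    rw [e]
    refine h.trans ?_
    apply mul_le_mul_of_nonneg_right _ (EE_nonneg θ c fun s => sq_nonneg _)
    apply EE_mono θ c (by fun_prop) (by fun_prop)
    intro s
    exact pow_le_pow_left₀ (sq_nonneg _) (p3 s) 2
  · exact EE_sq_le θ c cy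
  · have h := EE_cs θ c cy cS
    rw [hq2]
    exact h
  · exact EE_nonneg θ c fun s => sq_nonneg _

/-- **The one-dimensional lemma.** -/
theorem one_dim : 48 / NN ι ^ 2 * (1 - 3400 / NN ι * (1 + EE θ c (SS θ c))) ≤
    EE θ c (fun s => y2 θ s ^ 2) := by
  obtain ⟨m, ρ, φ, hm, hρ, h⟩ := star_repr c
  have h2 := fourth_moment θ c hm hρ h
  have cS := continuous_SS θ c
  have hNN : (4:ℝ) ≤ NN ι := by
    unfold NN
    have : (0:ℝ) ≤ Fintype.card ι := by positivity
    linarith
  have hN0 : 0 < NN ι := by linarith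
  have hmS : m ≤ EE θ c (SS θ c) := by
    have := EE_mono θ c (f := fun _ => m) (g := SS θ c) continuous_const cS (fun s => by
      unfold SS
      rw [h s]
      have := y2_nonneg θ s
      have : 0 ≤ ρ * sin (s + φ) ^ 2 := by positivity
      linarith)
    rwa [EE_const] at this
  refine le_trans ?_ h2
  apply mul_le_mul_of_nonneg_left _ (by positivity)
  have : 3400 * (1 + m) / NN ι ≤ 3400 / NN ι * (1 + EE θ c (SS θ c)) := by
    rw [mul_div_right_comm]
    exact mul_le_mul_of_nonneg_left (by linarith) (by positivity)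
  linarith

end Moment

end Pool.Agent.MP_a3e05c_co
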