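import Pool.Agent.Lib.MP_a3e05c_co.Sharp.Base
import Pool.Agent.Lib.MP_a3e05c_co.Pointwise

set_option autoImplicit false

/-! The potential `U = -log ((1 - y/2) exp (- s y²/8))`, `y = sin²`, and its derivatives. -/

namespace Pool.Agent.MP_a3e05c_co

open Real

/-- The potential as a function of `y = sin²`. -/
noncomputable def hW (s y : ℝ) : ℝ := -log (1 - y / 2) + s * y ^ 2 / 8

noncomputable def h1 (s y : ℝ) : ℝ := 1 / (2 - y) + s * y / 4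

noncomputable def h2 (s y : ℝ) : ℝ := 1 / (2 - y) ^ 2 + s / 4

/-- The potential. -/
noncomputable def UW (s θ : ℝ) : ℝ := hW s (sin θ ^ 2)

/-- The derivative of the potential. -/
noncomputable def U1 (s θ : ℝ) : ℝ := h1 s (sin θ ^ 2) * (2 * (sin θ * cos θ))

/-- The second derivative of the potential. -/
noncomputable def U2 (s θ : ℝ) : ℝ :=
  h2 s (sin θ ^ 2) * (4 * (sin θ ^ 2 * (1 - sin θ ^ 2))) + h1 s (sin θ ^ 2) * (2 - 4 * sin θ ^ 2)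

lemma hasDerivAt_hW (s : ℝ) {y : ℝ} (hy : y < 2) : HasDerivAt (hW s) (h1 s y) y := by
  have h0 : (1 - y / 2) ≠ 0 := by
    intro h; linarith
  have h1' : HasDerivAt (fun y : ℝ => 1 - y / 2) (-(1 / 2)) y := by
    simpa using ((hasDerivAt_id y).div_const 2).const_sub 1
  have h2' := (h1'.log h0).neg
  have h3 : HasDerivAt (fun y : ℝ => s * y ^ 2 / 8) (s * y / 4) y := by
    refine (((hasDerivAt_pow 2 y).const_mul s).div_const 8).congr_deriv ?_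
    push_cast
    ring
  have h4 : HasDerivAt (hW s) (-(-(1 / 2) / (1 - y / 2)) + s * y / 4) y := h2'.add h3
  refine h4.congr_deriv ?_
  unfold h1
  have h5 : 2 - y ≠ 0 := by
    intro h; linarith
  congr 1
  rw [neg_div, neg_neg, div_div, mul_sub]
  congr 1
  ring

lemma hasDerivAt_h1 (s : ℝ) {y : ℝ} (hy : y < 2) : HasDerivAt (h1 s) (h2 s y) y := by
  unfold h1 h2
  have h0 : (2 - y) ≠ 0 := by
    intro h; linarith
  have h1' : HasDerivAt (fun y : ℝ => 2 - y) (-1) y := by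
    simpa using (hasDerivAt_id y).const_sub 2
  have h2' := h1'.inv h0
  have h3 : HasDerivAt (fun y : ℝ => s * y / 4) (s / 4) y := by
    have := (((hasDerivAt_id y).const_mul s).div_const 4)
    simpa using this
  have h4 := h2'.add h3
  have e : (fun y : ℝ => 1 / (2 - y) + s * y / 4) = fun y : ℝ => (2 - y)⁻¹ + s * y / 4 := by
    funext y; rw [one_div]
  rw [e]
  refine h4.congr_deriv ?_
  field_simp

lemma sin_sq_lt_two (θ : ℝ) : sin θ ^ 2 < 2 := by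
  nlinarith [sin_sq_add_cos_sq θ, sq_nonneg (cos θ)]

lemma sin_sq_le_one' (θ : ℝ) : sin θ ^ 2 ≤ 1 := by
  nlinarith [sin_sq_add_cos_sq θ, sq_nonneg (cos θ)]

lemma hasDerivAt_sin_sq (θ : ℝ) : HasDerivAt (fun θ => sin θ ^ 2) (2 * (sin θ * cos θ)) θ := by
  refine ((hasDerivAt_sin θ).pow 2).congr_deriv ?_
  push_cast
  ring

lemma hasDerivAt_sincos (θ : ℝ) : HasDerivAt (fun θ => sin θ * cos θ) (1 - 2 * sin θ ^ 2) θ := by
  have h := (hasDerivAt_sin θ).mul (hasDerivAt_cos θ)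
  refine h.congr_deriv ?_
  nlinarith [sin_sq_add_cos_sq θ]

lemma hasDerivAt_UW (s θ : ℝ) : HasDerivAt (UW s) (U1 s θ) θ := by
  unfold U1
  exact (hasDerivAt_hW s (sin_sq_lt_two θ)).comp θ (hasDerivAt_sin_sq θ)

lemma hasDerivAt_U1 (s θ : ℝ) : HasDerivAt (U1 s) (U2 s θ) θ := by
  have ha : HasDerivAt (fun θ => h1 s (sin θ ^ 2)) (h2 s (sin θ ^ 2) * (2 * (sin θ * cos θ))) θ :=
    HasDerivAt.comp (h₂ := h1 s) θ (hasDerivAt_h1 s (sin_sq_lt_two θ)) (hasDerivAt_sin_sq θ)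
  have hb : HasDerivAt (fun θ => 2 * (sin θ * cos θ)) (2 * (1 - 2 * sin θ ^ 2)) θ :=
    (hasDerivAt_sincos θ).const_mul 2
  refine (ha.mul hb).congr_deriv ?_
  unfold U2
  have hc : cos θ ^ 2 = 1 - sin θ ^ 2 := by linarith [sin_sq_add_cos_sq θ]
  have e : h2 s (sin θ ^ 2) * (2 * (sin θ * cos θ)) * (2 * (sin θ * cos θ)) =
      h2 s (sin θ ^ 2) * (4 * (sin θ ^ 2 * cos θ ^ 2)) := by ring
  rw [e, hc]
  ring

lemma continuous_UW (s : ℝ) : Continuous (UW s) :=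
  continuous_iff_continuousAt.mpr fun θ => (hasDerivAt_UW s θ).continuousAt

lemma continuous_U1 (s : ℝ) : Continuous (U1 s) :=
  continuous_iff_continuousAt.mpr fun θ => (hasDerivAt_U1 s θ).continuousAt

lemma continuous_U2 (s : ℝ) : Continuous (U2 s) := by
  unfold U2 h1 h2
  have h : ∀ θ, (2 - sin θ ^ 2) ≠ 0 := by
    intro θ; have := sin_sq_lt_two θ; linarith
  have h' : ∀ θ, (2 - sin θ ^ 2) ^ 2 ≠ 0 := fun θ => pow_ne_zero 2 (h θ)
  fun_prop (disch := first | exact h | exact h' | assumption)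

lemma sin_sq_periodic : Function.Periodic (fun θ => sin θ ^ 2) (2 * π) := by
  intro θ
  simp only [sin_add_two_pi]

lemma UW_periodic (s : ℝ) : Function.Periodic (UW s) (2 * π) := by
  intro θ
  unfold UW
  rw [sin_add_two_pi]

lemma U1_periodic (s : ℝ) : Function.Periodic (U1 s) (2 * π) := by
  intro θ
  unfold U1
  rw [sin_add_two_pi, cos_add_two_pi]

lemma UW_neg (s θ : ℝ) : UW s (-θ) = UW s θ := by
  unfold UW
  rw [sin_neg, neg_sq]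

lemma hW_ge {s y : ℝ} (hs : 0 ≤ s) (h0 : 0 ≤ y) (h1 : y ≤ 1) : y / 2 ≤ hW s y := by
  unfold hW
  have h2 := log_le_sub_one_of_pos (show 0 < 1 - y / 2 by linarith)
  have h3 : 0 ≤ s * y ^ 2 / 8 := by positivity
  linarith

lemma hW_le {s y : ℝ} (hs0 : 0 ≤ s) (hs : s ≤ 1) (h0 : 0 ≤ y) (h1 : y ≤ 1) : hW s y ≤ y := by
  unfold hW
  have h2 : -(y / 2 + (y / 2) ^ 2) ≤ log (1 - y / 2) := by
    rw [le_log_iff_exp_le (by linarith)]
    exact exp_aux (by positivity) (by linarith)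
  have h3 : s * y ^ 2 / 8 ≤ 1 * y ^ 2 / 8 := by
    apply div_le_div_of_nonneg_right _ (by norm_num)
    exact mul_le_mul_of_nonneg_right hs (sq_nonneg y)
  nlinarith

lemma UW_ge {s : ℝ} (hs : 0 ≤ s) (θ : ℝ) : sin θ ^ 2 / 2 ≤ UW s θ :=
  hW_ge hs (sq_nonneg _) (sin_sq_le_one' θ)

lemma UW_le {s : ℝ} (hs0 : 0 ≤ s) (hs : s ≤ 1) (θ : ℝ) : UW s θ ≤ sin θ ^ 2 :=
  hW_le hs0 hs (sq_nonneg _) (sin_sq_le_one' θ)

lemma h1_ge {s y : ℝ} (hs : 0 ≤ s) (h0 : 0 ≤ y) (h1' : y ≤ 1) : 1 / 2 ≤ h1 s y := by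
  unfold h1
  have h2 : 1 / 2 ≤ 1 / (2 - y) := one_div_le_one_div_of_le (by linarith) (by linarith)
  have h3 : 0 ≤ s * y / 4 := by positivity
  linarith

lemma h1_le {s y : ℝ} (hs : s ≤ 1) (h0 : 0 ≤ y) (h1' : y ≤ 1) :
    h1 s y ≤ 1 / 2 + 3 / 4 * y := by
  unfold h1
  have h2 : 1 / (2 - y) ≤ 1 / 2 + y / 2 := by
    rw [div_le_iff₀ (by linarith)]
    nlinarith
  have h3 : s * y ≤ 1 * y := mul_le_mul_of_nonneg_right hs h0
  linarith

lemma h2_nonneg {s : ℝ} (hs : 0 ≤ s) (y : ℝ) : 0 ≤ h2 s y := by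
  unfold h2
  positivity

lemma h2_le {s y : ℝ} (hs : s ≤ 1) (h1' : y ≤ 1) : h2 s y ≤ 5 / 4 := by
  unfold h2
  have h2 : 1 / (2 - y) ^ 2 ≤ 1 := by
    rw [div_le_one (by nlinarith)]
    nlinarith
  linarith

/-- `|U''- 1| ≤ 7 y`. -/
lemma abs_U2_sub_one_le {s : ℝ} (hs0 : 0 ≤ s) (hs : s ≤ 1) (θ : ℝ) :
    |U2 s θ - 1| ≤ 7 * sin θ ^ 2 := by
  unfold U2
  set y := sin θ ^ 2 with hy
  have h0 : 0 ≤ y := sq_nonneg _
  have h1' : y ≤ 1 := sin_sq_le_one' θ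
  have a1 := h1_ge hs0 h0 h1'
  have a2 := h1_le hs h0 h1'
  have a3 := h2_nonneg hs0 y
  have a4 := h2_le hs h1'
  set a := h1 s y
  set b := h2 s y
  have b1 : 0 ≤ y * (1 - y) := mul_nonneg h0 (by linarith)
  have b2 : 0 ≤ b * (y * (1 - y)) := mul_nonneg a3 b1
  have b3 : b * (y * (1 - y)) ≤ 5 / 4 * (y * (1 - y)) := mul_le_mul_of_nonneg_right a4 b1
  have b4 : 0 ≤ a * y := mul_nonneg (by linarith) h0
  have b5 : a * y ≤ (1 / 2 + 3 / 4 * y) * y := mul_le_mul_of_nonneg_right a2 h0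
  rw [abs_le]
  constructor
  · nlinarith
  · nlinarith

/-- `U'² ≤ (25/4) y`. -/
lemma U1_sq_le {s : ℝ} (hs0 : 0 ≤ s) (hs : s ≤ 1) (θ : ℝ) :
    U1 s θ ^ 2 ≤ 25 / 4 * sin θ ^ 2 := by
  unfold U1
  have hc : cos θ ^ 2 ≤ 1 := by nlinarith [sin_sq_add_cos_sq θ, sq_nonneg (sin θ)]
  have h0 : 0 ≤ sin θ ^ 2 := sq_nonneg _
  have h1' : sin θ ^ 2 ≤ 1 := sin_sq_le_one' θ
  have a1 := h1_ge hs0 h0 h1'
  have a2 := h1_le hs h0 h1'
  have a3 : h1 s (sin θ ^ 2) ≤ 5 / 4 := by linarith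
  have a4 : h1 s (sin θ ^ 2) ^ 2 ≤ 25 / 16 := by nlinarith
  have e : (h1 s (sin θ ^ 2) * (2 * (sin θ * cos θ))) ^ 2 =
      4 * (h1 s (sin θ ^ 2) ^ 2 * (sin θ ^ 2 * cos θ ^ 2)) := by ring
  rw [e]
  have a5 : sin θ ^ 2 * cos θ ^ 2 ≤ sin θ ^ 2 := by nlinarith
  have a6 : 0 ≤ sin θ ^ 2 * cos θ ^ 2 := by positivity
  have a7 : h1 s (sin θ ^ 2) ^ 2 * (sin θ ^ 2 * cos θ ^ 2) ≤ 25 / 16 * sin θ ^ 2 :=
    mul_le_mul a4 a5 a6 (by norm_num)
  linarith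

/-- The weight. -/
lemma exp_neg_UW (s θ : ℝ) :
    exp (-(UW s θ)) = (1 - sin θ ^ 2 / 2) * exp (-(s * (sin θ ^ 2) ^ 2 / 8)) := by
  unfold UW hW
  rw [neg_add, neg_neg, exp_add, exp_log (by have := sin_sq_lt_two θ; linarith)]

end Pool.Agent.MP_a3e05c_co
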