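import Pool.Agent.Lib.MP_a3e05c_co.Expand

set_option autoImplicit false

/-!
# MP_a3e05c_co: Eulerian orientations and components; reduction to graphs without complete
components
-/

namespace Pool.Agent.MP_a3e05c_co

open Finset

section Congr

variable {V V' : Type*} [Fintype V] [DecidableEq V] [Fintype V'] [DecidableEq V']

/-- The orientations counted by `EO`. -/
def IsEO (G : SimpleGraph V) (o : V → V → Bool) : Prop :=
  (∀ u w : V, o u w = true → G.Adj u w) ∧
    (∀ u w : V, G.Adj u w → (o u w = true ↔ o w u = false)) ∧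
    (∀ x : V, (Finset.univ.filter (fun w => o x w = true)).card =
      (Finset.univ.filter (fun w => o w x = true)).card)

theorem mem_EO (G : SimpleGraph V) [DecidableRel G.Adj] (o : V → V → Bool) :
    o ∈ ((Finset.univ : Finset (V → V → Bool)).filter (fun o =>
          (∀ u w : V, o u w = true → G.Adj u w) ∧
          (∀ u w : V, G.Adj u w → (o u w = true ↔ o w u = false)) ∧
          (∀ x : V, (Finset.univ.filter (fun w => o x w = true)).card =
                    (Finset.univ.filter (fun w => o w x = true)).card))) ↔ IsEO G o := by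
  rw [Finset.mem_filter]
  exact ⟨fun h => h.2, fun h => ⟨Finset.mem_univ _, h⟩⟩

theorem IsEO.transport {G : SimpleGraph V} {G' : SimpleGraph V'} (e : V ≃ V')
    (h : ∀ u w, G.Adj u w ↔ G'.Adj (e u) (e w)) {o : V → V → Bool} (ho : IsEO G o) :
    IsEO G' fun a b => o (e.symm a) (e.symm b) := by
  refine ⟨fun u w h1 => ?_, fun u w h1 => ?_, fun x => ?_⟩
  · have h2 := (h _ _).1 (ho.1 _ _ h1)
    rwa [e.apply_symm_apply, e.apply_symm_apply] at h2
  · refine ho.2.1 _ _ ((h _ _).2 ?_)
    rwa [e.apply_symm_apply, e.apply_symm_apply]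
  · have h1 := ho.2.2 (e.symm x)
    have h2 : ∀ p : V → Bool, (Finset.univ.filter fun w : V' => p (e.symm w) = true).card =
        (Finset.univ.filter fun w : V => p w = true).card := by
      intro p
      refine Finset.card_bij' (fun a _ => e.symm a) (fun a _ => e a) ?_ ?_ ?_ ?_
      · intro a ha
        simpa using ha
      · intro a ha
        simpa using ha
      · intro a _
        simp
      · intro a _
        simp
    rw [h2 fun w => o (e.symm x) w, h2 fun w => o w (e.symm x)]
    exact h1

theorem EO_congr {G : SimpleGraph V} {G' : SimpleGraph V'} [DecidableRel G.Adj]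
    [DecidableRel G'.Adj] (e : V ≃ V') (h : ∀ u w, G.Adj u w ↔ G'.Adj (e u) (e w)) :
    EO V G = EO V' G' := by
  unfold EO
  refine Finset.card_bij' (fun o _ a b => o (e.symm a) (e.symm b)) (fun o _ a b => o (e a) (e b))
    ?_ ?_ ?_ ?_
  · intro o ho
    rw [mem_EO] at ho ⊢
    exact ho.transport e h
  · intro o ho
    rw [mem_EO] at ho ⊢
    have h1 := ho.transport e.symm (G' := G) fun u w => by
      rw [h, e.apply_symm_apply, e.apply_symm_apply]
    simpa using h1
  · intro o _
    simp
  · intro o _
    simp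

end Congr

section Split

variable {V : Type*} [Fintype V] [DecidableEq V] (G : SimpleGraph V) [DecidableRel G.Adj]

/-- The subgraph induced on the vertices with property `p`. -/
def sub (p : V → Prop) : SimpleGraph {v // p v} := G.comap (Subtype.val)

instance (p : V → Prop) : DecidableRel (sub G p).Adj := fun a b =>
  inferInstanceAs (Decidable (G.Adj a.1 b.1))

omit [Fintype V] [DecidableEq V] [DecidableRel G.Adj] in
theorem sub_adj (p : V → Prop) (a b : {v // p v}) : (sub G p).Adj a b ↔ G.Adj a.1 b.1 := Iff.rfl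

variable {G}

omit [DecidableEq V] in
theorem card_sub (p : V → Prop) [DecidablePred p] (q : V → Bool) (hq : ∀ v, q v = true → p v) :
    (Finset.univ.filter fun a : {v // p v} => q a.1 = true).card =
      (Finset.univ.filter fun v => q v = true).card := by
  refine Finset.card_bij (fun a _ => a.1) ?_ ?_ ?_
  · intro a ha
    simpa using ha
  · intro a _ b _ hab
    exact Subtype.ext hab
  · intro b hb
    have h1 : q b = true := by simpa using hb
    exact ⟨⟨b, hq b h1⟩, by simpa using h1, rfl⟩

theorem IsEO.restrict {p : V → Prop} [DecidablePred p] (hp : ∀ u w, G.Adj u w → (p u ↔ p w))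
    {o : V → V → Bool} (ho : IsEO G o) : IsEO (sub G p) fun a b => o a.1 b.1 := by
  refine ⟨fun u w h1 => ho.1 _ _ h1, fun u w h1 => ho.2.1 _ _ h1, fun x => ?_⟩
  rw [card_sub p (fun w => o x.1 w) fun v hv => (hp _ _ (ho.1 _ _ hv)).1 x.2,
    card_sub p (fun w => o w x.1) fun v hv => (hp _ _ (ho.1 _ _ hv)).2 x.2]
  exact ho.2.2 x.1

/-- The number of Eulerian orientations is multiplicative. -/
theorem EO_split (p : V → Prop) [DecidablePred p] (hS : ∀ u w, G.Adj u w → (p u ↔ p w)) :
    EO V G = EO {v // p v} (sub G p) * EO {v // ¬ p v} (sub G fun v => ¬ p v) := by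
  unfold EO
  rw [← Finset.card_product]
  refine Finset.card_bij' (fun o _ => (fun a b => o a.1 b.1, fun a b => o a.1 b.1))
    (fun o _ u w => if h : p u ∧ p w then o.1 ⟨u, h.1⟩ ⟨w, h.2⟩ else
      if h : ¬ p u ∧ ¬ p w then o.2 ⟨u, h.1⟩ ⟨w, h.2⟩ else false) ?_ ?_ ?_ ?_
  · intro o ho
    rw [mem_EO] at ho
    rw [Finset.mem_product, mem_EO, mem_EO]
    exact ⟨ho.restrict hS, ho.restrict fun u w h => not_congr (hS u w h)⟩
  · rintro ⟨o₁, o₂⟩ ho
    rw [Finset.mem_product, mem_EO, mem_EO] at ho
    obtain ⟨h1, h2⟩ := ho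
    rw [mem_EO]
    set o : V → V → Bool := fun u w => if h : p u ∧ p w then o₁ ⟨u, h.1⟩ ⟨w, h.2⟩ else
      if h : ¬ p u ∧ ¬ p w then o₂ ⟨u, h.1⟩ ⟨w, h.2⟩ else false with ho
    have hoS : ∀ u w (hu : p u) (hw : p w), o u w = o₁ ⟨u, hu⟩ ⟨w, hw⟩ := by
      intro u w hu hw
      simp only [ho]
      rw [dif_pos ⟨hu, hw⟩]
    have hoT : ∀ u w (hu : ¬ p u) (hw : ¬ p w), o u w = o₂ ⟨u, hu⟩ ⟨w, hw⟩ := by
      intro u w hu hw
      simp only [ho]
      rw [dif_neg fun h => hu h.1, dif_pos ⟨hu, hw⟩]
    have hoM : ∀ u w, o u w = true → (p u ↔ p w) := by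
      intro u w h
      simp only [ho] at h
      by_cases hu : p u
      · by_cases hw : p w
        · simp [hu, hw]
        · rw [dif_neg fun h => hw h.2, dif_neg fun h => h.1 hu] at h
          exact absurd h (by simp)
      · by_cases hw : p w
        · rw [dif_neg fun h => hu h.1, dif_neg fun h => h.2 hw] at h
          exact absurd h (by simp)
        · simp [hu, hw]
    refine ⟨fun u w h => ?_, fun u w h => ?_, fun x => ?_⟩
    · by_cases hu : p u
      · have hw := (hoM u w h).1 hu
        rw [hoS u w hu hw] at h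
        exact h1.1 _ _ h
      · have hw : ¬ p w := fun hw => hu ((hoM u w h).2 hw)
        rw [hoT u w hu hw] at h
        exact h2.1 _ _ h
    · by_cases hu : p u
      · have hw := (hS u w h).1 hu
        rw [hoS u w hu hw, hoS w u hw hu]
        exact h1.2.1 _ _ h
      · have hw : ¬ p w := fun hw => hu ((hS u w h).2 hw)
        rw [hoT u w hu hw, hoT w u hw hu]
        exact h2.2.1 _ _ h
    · by_cases hx : p x
      · rw [← card_sub p (fun w => o x w) fun v hv => (hoM _ _ hv).1 hx,
          ← card_sub p (fun w => o w x) fun v hv => (hoM _ _ hv).2 hx]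
        have h3 := h1.2.2 ⟨x, hx⟩
        have h4 : ∀ a : {v // p v}, o x a.1 = o₁ ⟨x, hx⟩ a := fun a => hoS x a.1 hx a.2
        have h5 : ∀ a : {v // p v}, o a.1 x = o₁ a ⟨x, hx⟩ := fun a => hoS a.1 x a.2 hx
        simp only [h4, h5]
        exact h3
      · rw [← card_sub (fun v => ¬ p v) (fun w => o x w) fun v hv h => hx ((hoM _ _ hv).2 h),
          ← card_sub (fun v => ¬ p v) (fun w => o w x) fun v hv h => hx ((hoM _ _ hv).1 h)]
        have h3 := h2.2.2 ⟨x, hx⟩
        have h4 : ∀ a : {v // ¬ p v}, o x a.1 = o₂ ⟨x, hx⟩ a := fun a => hoT x a.1 hx a.2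
        have h5 : ∀ a : {v // ¬ p v}, o a.1 x = o₂ a ⟨x, hx⟩ := fun a => hoT a.1 x a.2 hx
        simp only [h4, h5]
        exact h3
  · intro o ho
    rw [mem_EO] at ho
    funext u w
    simp only
    by_cases hu : p u
    · by_cases hw : p w
      · rw [dif_pos ⟨hu, hw⟩]
      · rw [dif_neg fun h => hw h.2, dif_neg fun h => h.1 hu]
        by_contra hc
        have h1 : o u w = true := by
          cases h2 : o u w
          · exact absurd h2.symm hc
          · rfl
        exact hw ((hS u w (ho.1 _ _ h1)).1 hu)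
    · by_cases hw : p w
      · rw [dif_neg fun h => hu h.1, dif_neg fun h => h.2 hw]
        by_contra hc
        have h1 : o u w = true := by
          cases h2 : o u w
          · exact absurd h2.symm hc
          · rfl
        exact hu ((hS u w (ho.1 _ _ h1)).2 hw)
      · rw [dif_neg fun h => hu h.1, dif_pos ⟨hu, hw⟩]
  · rintro ⟨o₁, o₂⟩ _
    refine Prod.ext ?_ ?_
    · funext a b
      simp only
      rw [dif_pos ⟨a.2, b.2⟩]
    · funext a b
      simp only
      rw [dif_neg fun h => a.2 h.1, dif_pos ⟨a.2, b.2⟩]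

end Split

end Pool.Agent.MP_a3e05c_co
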