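import Pool.Agent.Lib.MP_a3e05c_co.Sharp.EdgeBound

set_option autoImplicit false
set_option linter.unusedSectionVars false

/-! Star integrals and the comparison of clique integrals. -/

namespace Pool.Agent.MP_a3e05c_co

open Real MeasureTheory Finset

/-- The integral of `exp (- l sin²)` over the circle. -/
noncomputable def II (l : ℝ) : ℝ := ∫ t : TT, exp (-(l * yT t))

lemma II_eq (l : ℝ) : II l = (2 * π)⁻¹ * JJ l := by
  unfold II JJ
  rw [integral_TT, ← integral_period (fun s => exp (-(l * sin s ^ 2)))]
  simp_rw [yT_coe]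

lemma II_doubling {l : ℝ} (hl : 0 ≤ l) : II l ≤ 2 * II (2 * l) := by
  rw [II_eq, II_eq]
  have h := JJ_doubling hl
  have h2 : (0:ℝ) ≤ (2 * π)⁻¹ := by positivity
  nlinarith

lemma II_anti {l l' : ℝ} (h : l ≤ l') : II l' ≤ II l := by
  rw [II_eq, II_eq]
  exact mul_le_mul_of_nonneg_left (JJ_anti h) (by positivity)

lemma II_pos (l : ℝ) : 0 < II l := by
  rw [II_eq]
  have := JJ_pos l
  positivity

lemma continuous_exp_yT (l : ℝ) : Continuous (fun t : TT => exp (-(l * yT t))) := by
  have := continuous_yT
  fun_prop

lemma II_ge {l : ℝ} (hl : 0 ≤ l) : exp (-l) ≤ II l := by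
  unfold II
  have h1 : ∫ _t : TT, exp (-l) ≤ ∫ t : TT, exp (-(l * yT t)) := by
    apply integral_mono (integrable_const _) (integrable_cont (continuous_exp_yT l))
    intro t
    apply exp_le_exp.mpr
    have := yT_le_one t
    nlinarith
  simpa using h1

lemma II_le_32 {a : ℝ} (ha : 0 ≤ a) : II (a / 10) ≤ 32 * II (2 * a) := by
  have h1 := II_doubling (l := a / 10) (by positivity)
  have h2 := II_doubling (l := 2 * (a / 10)) (by positivity)
  have h3 := II_doubling (l := 2 * (2 * (a / 10))) (by positivity)
  have h4 := II_doubling (l := 2 * (2 * (2 * (a / 10)))) (by positivity)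
  have h5 := II_doubling (l := 2 * (2 * (2 * (2 * (a / 10))))) (by positivity)
  have h6 := II_anti (l := 2 * a) (l' := 2 * (2 * (2 * (2 * (2 * (a / 10)))))) (by linarith)
  linarith

section StarInt

variable {n : ℕ}

/-- The integral over a star. -/
lemma star_integral {g : TT → ℝ} (hg : Continuous g) (i : Fin n) :
    ∫ x : Fin n → TT, ∏ j ∈ Finset.univ.erase i, g (x i - x j) = (∫ t, g t) ^ (n - 1) := by
  have hc : Continuous (fun x : Fin n → TT => ∏ j ∈ Finset.univ.erase i, g (x i - x j)) :=
    continuous_finsetProd _ fun j _ => hg.comp ((continuous_apply i).sub (continuous_apply j))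
  have hι : Continuous (fun t : TT => (Pi.single i t : Fin n → TT)) := by
    refine continuous_pi fun w => ?_
    by_cases h : w = i
    · subst h
      simp only [Pi.single_eq_same]
      exact continuous_id
    · simp only [Pi.single_eq_of_ne h]
      exact continuous_const
  rw [integral_line hc hι]
  have h1 : ∀ x : Fin n → TT, ∫ t : TT, ∏ j ∈ Finset.univ.erase i,
      g ((x + (Pi.single i t : Fin n → TT)) i - (x + (Pi.single i t : Fin n → TT)) j) =
      ∫ t : TT, ∏ j ∈ Finset.univ.erase i, g (t - x j) := by
    intro x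
    have h2 : ∀ t : TT, ∏ j ∈ Finset.univ.erase i,
      g ((x + (Pi.single i t : Fin n → TT)) i - (x + (Pi.single i t : Fin n → TT)) j) =
        ∏ j ∈ Finset.univ.erase i, g ((t + x i) - x j) := by
      intro t
      apply Finset.prod_congr rfl
      intro j hj
      have hji := Finset.ne_of_mem_erase hj
      rw [Pi.add_apply, Pi.add_apply, Pi.single_eq_same, Pi.single_eq_of_ne hji, add_zero,
        add_comm (x i)]
    simp_rw [h2]
    exact integral_add_right_eq_self (fun t : TT => ∏ j ∈ Finset.univ.erase i, g (t - x j)) (x i)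
  simp_rw [h1]
  have hc2 : Continuous (Function.uncurry fun (x : Fin n → TT) (t : TT) =>
      ∏ j ∈ Finset.univ.erase i, g (t - x j)) := by
    refine continuous_finsetProd _ fun j _ => hg.comp ?_
    exact continuous_snd.sub ((continuous_apply j).comp continuous_fst)
  rw [integral_integral_swap (integrable_cont hc2)]
  have h3 : ∀ t : TT, ∫ x : Fin n → TT, ∏ j ∈ Finset.univ.erase i, g (t - x j) =
      (∫ t, g t) ^ (n - 1) := by
    intro t
    have h4 : ∀ x : Fin n → TT, ∏ j ∈ Finset.univ.erase i, g (t - x j) =
        ∏ j, (fun (j : Fin n) (s : TT) => if j = i then 1 else g (t - s)) j (x j) := by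
      intro x
      rw [← Finset.mul_prod_erase Finset.univ _ (Finset.mem_univ i)]
      simp only [if_true, one_mul]
      apply Finset.prod_congr rfl
      intro j hj
      rw [if_neg (Finset.ne_of_mem_erase hj)]
    have h6 := integral_fintype_prod_volume_eq_prod (ι := Fin n) (E := fun _ => TT)
      (fun (j : Fin n) (s : TT) => (if j = i then 1 else g (t - s) : ℝ))
    rw [integral_congr_ae (Filter.Eventually.of_forall h4), h6]
    rw [← Finset.mul_prod_erase Finset.univ _ (Finset.mem_univ i)]
    have h5 : ∀ j ∈ Finset.univ.erase i,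
        (∫ s : TT, (if j = i then 1 else g (t - s) : ℝ)) = ∫ t, g t := by
      intro j hj
      simp only [if_neg (Finset.ne_of_mem_erase hj)]
      exact integral_sub_left_eq_self g _ t
    rw [Finset.prod_congr rfl h5, Finset.prod_const, Finset.card_erase_of_mem (Finset.mem_univ i),
      Finset.card_univ, Fintype.card_fin]
    simp
  simp_rw [h3]
  simp

end StarInt

end Pool.Agent.MP_a3e05c_co
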