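import Pool.Agent.Lib.MP_a3e05c_co.Sharp.Ener

set_option autoImplicit false
set_option linter.unusedSectionVars false

/-! The lower bound of the quartic energy of a graph with degrees in `[δ, Δ]`. -/

namespace Pool.Agent.MP_a3e05c_co

open Real MeasureTheory Finset

/-- The elementary inequality for the two degrees of an edge. -/
lemma edge_arith {a b δ Δ : ℝ} (hδ : 0 < δ) (ha : δ + 1 ≤ a) (hb : δ + 1 ≤ b) (ha' : a ≤ Δ + 1)
    (hb' : b ≤ Δ + 1) :
    (3 / 4 - 9 / 8 * (1 - δ / Δ) ^ 2) * (1 / a ^ 2 + 1 / b ^ 2) ≤ 6 / (a + b) ^ 2 := by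
  wlog hab : a ≤ b generalizing a b with H
  · have h := H hb ha hb' ha' (le_of_not_ge hab)
    rw [add_comm (1 / a ^ 2), add_comm a b]
    exact h
  have ha0 : 0 < a := by linarith
  have hb0 : 0 < b := by linarith
  have hΔ : 0 < Δ := by linarith
  have hδΔ : δ ≤ Δ := by linarith
  -- `1 - a / b ≤ 1 - δ / Δ`
  have h1 : 1 - a / b ≤ 1 - δ / Δ := by
    have h2 : δ / Δ ≤ a / b := by
      rw [div_le_div_iff₀ hΔ hb0]
      nlinarith
    linarith
  have h0 : 0 ≤ 1 - a / b := by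
    have : a / b ≤ 1 := by rwa [div_le_one hb0]
    linarith
  have h2 : (1 - a / b) ^ 2 ≤ (1 - δ / Δ) ^ 2 := pow_le_pow_left₀ h0 h1 2
  have h3 : 3 / 4 * (1 / a ^ 2 + 1 / b ^ 2) - 6 / (a + b) ^ 2 ≤
      9 / 8 * ((1 - a / b) ^ 2 * (1 / a ^ 2)) := by
    have e1 : 3 / 4 * (1 / a ^ 2 + 1 / b ^ 2) - 6 / (a + b) ^ 2 =
        3 / 4 * (b - a) ^ 2 * (a ^ 2 + 4 * a * b + b ^ 2) / (a ^ 2 * b ^ 2 * (a + b) ^ 2) := by
      field_simp
      ring
    have e2 : 9 / 8 * ((1 - a / b) ^ 2 * (1 / a ^ 2)) =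
        9 / 8 * (b - a) ^ 2 * (a + b) ^ 2 / (a ^ 2 * b ^ 2 * (a + b) ^ 2) := by
      field_simp
    rw [e1, e2]
    apply div_le_div_of_nonneg_right _ (by positivity)
    nlinarith [mul_nonneg (sq_nonneg (b - a)) (sq_nonneg (b - a))]
  have h4 : (1 - a / b) ^ 2 * (1 / a ^ 2) ≤ (1 - δ / Δ) ^ 2 * (1 / a ^ 2 + 1 / b ^ 2) := by
    apply mul_le_mul h2 _ (by positivity) (sq_nonneg _)
    have : 0 ≤ 1 / b ^ 2 := by positivity
    linarith
  linarith

section SumB

variable {V : Type*} [Fintype V] [DecidableEq V] [LinearOrder V]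
variable (G : SimpleGraph V) [DecidableRel G.Adj]

lemma sum_Edg_vertex (F : V → ℝ) :
    ∑ p ∈ Edg G, (F p.1 + F p.2) = ∑ v, (G.degree v : ℝ) * F v := by
  have h := sum_Edg_symm G (A := fun a b => F a + F b) (fun a b => add_comm _ _)
  have h2 : ∑ a, ∑ b, (if G.Adj a b then F a + F b else 0) =
      2 * ∑ v, (G.degree v : ℝ) * F v := by
    have e1 : ∀ u w, (if G.Adj u w then F u + F w else 0) =
        (if G.Adj u w then F u else 0) + (if G.Adj w u then F w else 0) := by
      intro u w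
      by_cases h : G.Adj u w
      · rw [if_pos h, if_pos h, if_pos h.symm]
      · rw [if_neg h, if_neg h, if_neg (fun h' => h h'.symm)]; ring
    simp_rw [e1, Finset.sum_add_distrib]
    rw [Finset.sum_comm (f := fun u w => if G.Adj w u then F w else 0), ← two_mul]
    congr 1
    apply Finset.sum_congr rfl
    intro u _
    rw [← Finset.sum_filter, Finset.sum_const, nsmul_eq_mul,
      ← SimpleGraph.card_neighborFinset_eq_degree]
    have e2 : (Finset.univ.filter fun a => G.Adj u a) = G.neighborFinset u := by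
      ext a
      simp
    rw [e2]
  linarith

lemma adj_of_mem_Edg {p : V × V} (hp : p ∈ Edg G) : G.Adj p.1 p.2 := by
  unfold Edg at hp
  exact (Finset.mem_filter.mp hp).2.2

lemma yT_le_Yv {u v : V} (h : G.Adj u v) (x : V → TT) : yT (x u - x v) ≤ Yv G u x := by
  unfold Yv
  rw [sV_eq G h]
  have : 0 ≤ ∑ w ∈ nb G u v, yT (x u - x w) := Finset.sum_nonneg fun _ _ => yT_nonneg _
  linarith

lemma sum_inv_ge {δ Δ : ℝ} (hδ : 1 ≤ δ) (hΔ : Δ ≤ 2 * δ)
    (h2 : ∀ v, (G.degree v : ℝ) ≤ Δ) :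
    (Fintype.card V : ℝ) / δ ≤ 3 * ∑ v, 1 / ((G.degree v : ℝ) + 1) := by
  have h : ∀ v ∈ (Finset.univ : Finset V), 1 / (3 * δ) ≤ 1 / ((G.degree v : ℝ) + 1) := by
    intro v _
    have := h2 v
    exact one_div_le_one_div_of_le (by positivity) (by linarith)
  have h3 := Finset.sum_le_sum h
  rw [Finset.sum_const, Finset.card_univ, nsmul_eq_mul] at h3
  have e : (Fintype.card V : ℝ) / δ = 3 * ((Fintype.card V : ℝ) * (1 / (3 * δ))) := by
    field_simp
  rw [e]
  linarith

/-- Lower bound of the quartic energy. -/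
theorem quartic_bound {δ Δ : ℝ} (hδ : 1 ≤ δ) (hΔ : Δ ≤ 2 * δ)
    (h1 : ∀ v, δ ≤ (G.degree v : ℝ)) (h2 : ∀ v, (G.degree v : ℝ) ≤ Δ) :
    (∑ v, 1 / ((G.degree v : ℝ) + 1) *
      (3 / 4 - 9 / 8 * (1 - δ / Δ) ^ 2 - 1600000 / δ)) * GI G 1 (fun _ => 1) ≤
      GI G 1 (fun x => ∑ p ∈ Edg G, yT (x p.1 - x p.2) ^ 2 / 8) := by
  rcases isEmpty_or_nonempty V with hV | ⟨⟨v0⟩⟩
  · have e1 : Edg G = ∅ := by
      rw [Finset.eq_empty_iff_forall_notMem]
      intro p
      exact (hV.false p.1).elim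
    rw [e1, Finset.univ_eq_empty, Finset.sum_empty, zero_mul]
    exact GI_nonneg G 1 fun x => by rw [Finset.sum_empty]
  have hδΔ : δ ≤ Δ := (h1 v0).trans (h2 v0)
  have hΔ0 : 0 < Δ := by linarith
  set P := GI G 1 (fun _ => 1) with hP
  have hP0 : 0 < P := GI_one_pos G 1
  set n := (Fintype.card V : ℝ) with hn
  have hn0 : 0 ≤ n := by positivity
  have hδ0 : 0 < δ := by linarith
  set S := ∑ v, 1 / ((G.degree v : ℝ) + 1) with hS
  have hcard := sum_inv_ge G hδ hΔ h2
  rw [← hS, ← hn] at hcard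
  have cy : ∀ u v : V, Continuous (fun x : V → TT => yT (x u - x v)) := fun u v =>
    continuous_yT.comp ((continuous_apply u).sub (continuous_apply v))
  have cY := continuous_Yv G
  -- constant of the error
  set κ := 1 / δ ^ 3 with hκ
  have hκ0 : 0 < κ := by positivity
  -- the bound for one edge
  have hedge : ∀ p ∈ Edg G, 6 / ((G.degree p.1 : ℝ) + G.degree p.2 + 2) ^ 2 * P -
      2550 * κ * (P + 2 * (GI G 1 (Yv G p.1) + GI G 1 (Yv G p.2))) ≤
      GI G 1 (fun x => yT (x p.1 - x p.2) ^ 2 / 8) := by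
    intro p hp
    have hadj := adj_of_mem_Edg G hp
    have hb := edge_bound G hadj rfl
    set N := (G.degree p.1 : ℝ) + G.degree p.2 + 2 with hN
    have hN1 : 2 * δ ≤ N := by
      have := h1 p.1
      have := h1 p.2
      linarith
    have hN0 : 0 < N := by linarith
    have hA : 48 / N ^ 2 * (3400 / N) ≤ 20400 * κ := by
      have h5 : (2 * δ) ^ 3 ≤ N ^ 3 := pow_le_pow_left₀ (by positivity) hN1 3
      have e1 : 48 / N ^ 2 * (3400 / N) = 163200 / N ^ 3 := by
        rw [div_mul_div_comm]; norm_num; ring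
      have e2 : 20400 * κ = 163200 / (2 * δ) ^ 3 := by
        rw [hκ]; field_simp; norm_num
      rw [e1, e2]
      exact div_le_div_of_nonneg_left (by norm_num) (by positivity) h5
    have hY : GI G 1 (fun x => Yv G p.1 x + Yv G p.2 x + 2 * yT (x p.1 - x p.2)) ≤
        2 * (GI G 1 (Yv G p.1) + GI G 1 (Yv G p.2)) := by
      have h3 : GI G 1 (fun x => Yv G p.1 x + Yv G p.2 x + 2 * yT (x p.1 - x p.2)) ≤
          GI G 1 (fun x => 2 * (Yv G p.1 x + Yv G p.2 x)) := by
        apply GI_mono G 1 (by fun_prop) (by fun_prop)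
        intro x
        have a1 := yT_le_Yv G hadj x
        have a2 := yT_le_Yv G hadj.symm x
        rw [yT_sub_comm] at a2
        linarith
      rw [GI_mul, GI_add G 1 (cY _) (cY _)] at h3
      exact h3
    have hK0 : 0 ≤ P + GI G 1 (fun x => Yv G p.1 x + Yv G p.2 x + 2 * yT (x p.1 - x p.2)) := by
      have : 0 ≤ GI G 1 (fun x => Yv G p.1 x + Yv G p.2 x + 2 * yT (x p.1 - x p.2)) := by
        apply GI_nonneg
        intro x
        have a1 := (yT_nonneg (x p.1 - x p.2)).trans (yT_le_Yv G hadj x)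
        have a2 := yT_le_Yv G hadj.symm x
        have a3 := (yT_nonneg (x p.2 - x p.1)).trans a2
        have a4 := yT_nonneg (x p.1 - x p.2)
        linarith
      linarith
    have e3 : GI G 1 (fun x => yT (x p.1 - x p.2) ^ 2 / 8) =
        GI G 1 (fun x => yT (x p.1 - x p.2) ^ 2) / 8 := by
      have := GI_mul G 1 (1 / 8) (fun x => yT (x p.1 - x p.2) ^ 2)
      have e4 : (fun x : V → TT => yT (x p.1 - x p.2) ^ 2 / 8) =
          fun x => 1 / 8 * yT (x p.1 - x p.2) ^ 2 := by funext x; ring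
      rw [e4, this]
      ring
    rw [e3]
    have h5 : 48 / N ^ 2 * (3400 / N) *
        (P + GI G 1 (fun x => Yv G p.1 x + Yv G p.2 x + 2 * yT (x p.1 - x p.2))) ≤
        20400 * κ * (P + 2 * (GI G 1 (Yv G p.1) + GI G 1 (Yv G p.2))) := by
      apply mul_le_mul hA (by linarith) hK0 (by positivity)
    have h6 : 48 / N ^ 2 * P - 48 / N ^ 2 * (3400 / N) *
        (P + GI G 1 (fun x => Yv G p.1 x + Yv G p.2 x + 2 * yT (x p.1 - x p.2))) ≤
        GI G 1 (fun x => yT (x p.1 - x p.2) ^ 2) := by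
      refine le_trans (le_of_eq ?_) hb
      ring
    have e5 : 6 / N ^ 2 * P = 48 / N ^ 2 * P / 8 := by ring
    have h7 : 0 ≤ κ * (P + 2 * (GI G 1 (Yv G p.1) + GI G 1 (Yv G p.2))) :=
      mul_nonneg hκ0.le (hK0.trans (by linarith))
    rw [e5]
    linarith
  -- summation
  rw [GI_sum G 1 (Edg G) (F := fun p x => yT (x p.1 - x p.2) ^ 2 / 8) (fun p _ => by
    have := cy p.1 p.2
    fun_prop)]
  refine le_trans ?_ (Finset.sum_le_sum hedge)
  rw [Finset.sum_sub_distrib, ← Finset.sum_mul, ← Finset.mul_sum, Finset.sum_add_distrib,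
    ← Finset.mul_sum, sum_Edg_vertex G (fun v => GI G 1 (Yv G v)), Finset.sum_const, nsmul_eq_mul]
  -- number of edges
  have hE : ((Edg G).card : ℝ) ≤ δ * n := by
    have h3 := sum_degree_eq G
    have h4 : (∑ v, (G.degree v : ℝ)) = 2 * ((Edg G).card : ℝ) := by exact_mod_cast h3
    have h5 : (∑ v, (G.degree v : ℝ)) ≤ ∑ _v : V, Δ := Finset.sum_le_sum fun v _ => h2 v
    rw [Finset.sum_const, Finset.card_univ, nsmul_eq_mul, ← hn] at h5
    nlinarith
  -- energy
  have hEn : ∑ v, (G.degree v : ℝ) * GI G 1 (Yv G v) ≤ 100 * δ * n * P := by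
    have h3 : ∑ v, (G.degree v : ℝ) * GI G 1 (Yv G v) ≤ ∑ v, Δ * GI G 1 (Yv G v) := by
      apply Finset.sum_le_sum
      intro v _
      apply mul_le_mul_of_nonneg_right (h2 v)
      apply GI_nonneg
      intro x
      unfold Yv sV
      apply Finset.sum_nonneg
      intro w _
      split_ifs
      · exact yT_nonneg _
      · exact le_rfl
    rw [← Finset.mul_sum, ← GI_sum G 1 Finset.univ (fun v _ => cY v)] at h3
    have h4 : (fun x => ∑ v, Yv G v x) = fun x => 2 * sE G yT x := by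
      funext x
      exact (two_sE G yT_neg x).symm
    rw [h4, GI_mul] at h3
    have h5 := energy_bound G
    rw [← hn, ← hP] at h5
    have h6 : Δ * (2 * GI G 1 (fun x => sE G yT x)) ≤ (2 * δ) * (2 * (25 * n * P)) := by
      apply mul_le_mul hΔ (by linarith) _ (by positivity)
      apply mul_nonneg (by norm_num)
      apply GI_nonneg
      intro x
      exact Finset.sum_nonneg fun _ _ => yT_nonneg _
    linarith
  -- main term
  have hq : 0 ≤ 3 / 4 - 9 / 8 * (1 - δ / Δ) ^ 2 := by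
    have h3 : 1 / 2 ≤ δ / Δ := by
      rw [div_le_div_iff₀ (by norm_num) hΔ0]
      linarith
    have h4 : δ / Δ ≤ 1 := by rwa [div_le_one hΔ0]
    nlinarith
  have hq1 : 3 / 4 - 9 / 8 * (1 - δ / Δ) ^ 2 ≤ 3 / 4 := by
    have := sq_nonneg (1 - δ / Δ)
    linarith
  set q := 3 / 4 - 9 / 8 * (1 - δ / Δ) ^ 2 with hqdef
  have hS0 : 0 ≤ S := Finset.sum_nonneg fun _ _ => by positivity
  have hmain : q * (S - S / δ) ≤
      ∑ p ∈ Edg G, 6 / ((G.degree p.1 : ℝ) + G.degree p.2 + 2) ^ 2 := by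
    have h3 : ∀ p ∈ Edg G, q * (1 / ((G.degree p.1 : ℝ) + 1) ^ 2 + 1 / ((G.degree p.2 : ℝ) + 1) ^ 2) ≤
        6 / ((G.degree p.1 : ℝ) + G.degree p.2 + 2) ^ 2 := by
      intro p _
      have a1 := h1 p.1
      have a2 := h1 p.2
      have a3 := h2 p.1
      have a4 := h2 p.2
      have h4 := edge_arith (a := (G.degree p.1 : ℝ) + 1) (b := (G.degree p.2 : ℝ) + 1) hδ0
        (by linarith) (by linarith) (by linarith) (by linarith) (Δ := Δ)
      have e : (G.degree p.1 : ℝ) + 1 + ((G.degree p.2 : ℝ) + 1) =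
          (G.degree p.1 : ℝ) + G.degree p.2 + 2 := by ring
      rw [e] at h4
      exact h4
    refine le_trans ?_ (Finset.sum_le_sum h3)
    rw [← Finset.mul_sum, sum_Edg_vertex G (fun v => 1 / ((G.degree v : ℝ) + 1) ^ 2)]
    apply mul_le_mul_of_nonneg_left _ hq
    have h4 : S - S / δ = ∑ v, (1 / ((G.degree v : ℝ) + 1) * (1 - 1 / δ)) := by
      rw [← Finset.sum_mul, ← hS]
      ring
    rw [h4]
    apply Finset.sum_le_sum
    intro v _
    have hd0 : (0:ℝ) < (G.degree v : ℝ) + 1 := by positivity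
    have e : (G.degree v : ℝ) * (1 / ((G.degree v : ℝ) + 1) ^ 2) =
        1 / ((G.degree v : ℝ) + 1) * (1 - 1 / ((G.degree v : ℝ) + 1)) := by
      field_simp
      ring
    rw [e]
    apply mul_le_mul_of_nonneg_left _ (by positivity)
    have h5 : 1 / ((G.degree v : ℝ) + 1) ≤ 1 / δ := by
      apply one_div_le_one_div_of_le hδ0
      have := h1 v
      linarith
    linarith
  rw [← Finset.sum_mul, ← hS]
  -- the error
  have herr : 2550 * κ * ((Edg G).card * P + 2 * ∑ v, (G.degree v : ℝ) * GI G 1 (Yv G v)) ≤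
      1537650 * (S / δ) * P := by
    have h3 : (Edg G).card * P + 2 * ∑ v, (G.degree v : ℝ) * GI G 1 (Yv G v) ≤
        201 * δ * n * P := by
      have := mul_le_mul_of_nonneg_right hE hP0.le
      linarith
    have h4 : κ * (δ * n) = n / δ / δ := by
      rw [hκ]
      field_simp
    have h5 : n / δ / δ ≤ 3 * S / δ :=
      div_le_div_of_nonneg_right hcard hδ0.le
    calc 2550 * κ * ((Edg G).card * P + 2 * ∑ v, (G.degree v : ℝ) * GI G 1 (Yv G v))
        ≤ 2550 * κ * (201 * δ * n * P) := mul_le_mul_of_nonneg_left h3 (by positivity)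
      _ = 512550 * (κ * (δ * n)) * P := by ring
      _ ≤ 512550 * (3 * S / δ) * P := by
          rw [h4]
          apply mul_le_mul_of_nonneg_right _ hP0.le
          linarith
      _ = 1537650 * (S / δ) * P := by ring
  have hfin : S * (q - 1600000 / δ) * P ≤
      q * (S - S / δ) * P - 1537650 * (S / δ) * P := by
    have h3 : 0 ≤ S / δ := by positivity
    have h4 : q * (S / δ) ≤ 3 / 4 * (S / δ) :=
      mul_le_mul_of_nonneg_right hq1 h3
    have h5 : S * (q - 1600000 / δ) = q * S - 1600000 * (S / δ) := by ring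
    rw [h5, ← sub_mul]
    apply mul_le_mul_of_nonneg_right _ hP0.le
    linarith
  have hm2 := mul_le_mul_of_nonneg_right hmain hP0.le
  linarith

end SumB

end Pool.Agent.MP_a3e05c_co
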