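import Pool.Agent.Lib.MP_a3e05c_co.Sharp.SumB

set_option autoImplicit false
set_option linter.unusedSectionVars false

/-! The upper bound of the number of Eulerian orientations by the integral of the majorant
kernel with the gain of the quartic term. -/

namespace Pool.Agent.MP_a3e05c_co

open Real MeasureTheory Finset

lemma exp_neg_hW {s y : ℝ} (hy : y ≤ 1) :
    exp (-(hW s y)) = (1 - y / 2) * exp (-(s * y ^ 2 / 8)) := by
  unfold hW
  rw [neg_add, neg_neg, exp_add, exp_log (by linarith)]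

lemma MT_half (t : TT) : MT (1 / 2) t = exp (-(hW 0 (yT t))) := by
  rw [exp_neg_hW (yT_le_one t)]
  unfold MT
  rw [zero_mul, zero_div, neg_zero, exp_zero]
  ring

lemma abs_cT_le (t : TT) : |cT t| ≤ exp (-(hW 1 (yT t))) := by
  rw [exp_neg_hW (yT_le_one t)]
  have h0 := yT_nonneg t
  have h1 := yT_le_one t
  have h2 := cT_sq t
  set y := yT t
  apply abs_le_of_sq_le_sq _ (mul_nonneg (by linarith) (exp_pos _).le)
  rw [h2, mul_pow, ← exp_nat_mul]
  have h3 := add_one_le_exp (((2:ℕ):ℝ) * -(1 * y ^ 2 / 8))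
  push_cast at h3 ⊢
  have h4 : (1 - y / 2) ^ 2 * (1 - y ^ 2 / 4) ≤ (1 - y / 2) ^ 2 * exp (2 * -(1 * y ^ 2 / 8)) := by
    apply mul_le_mul_of_nonneg_left _ (sq_nonneg _)
    linarith
  refine le_trans ?_ h4
  nlinarith [mul_nonneg (mul_nonneg (mul_nonneg h0 h0) h0) (by linarith : (0:ℝ) ≤ 1 - y)]

section Upper

variable {V : Type*} [Fintype V] [DecidableEq V] [LinearOrder V]
variable (G : SimpleGraph V) [DecidableRel G.Adj]

lemma GI_zero_eq : GI G 0 (fun _ => 1) = ZG G (MT (1 / 2)) := by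
  unfold GI ZG
  congr 1
  funext x
  rw [one_mul]
  unfold HG sE
  rw [← Finset.sum_neg_distrib, exp_sum]
  apply Finset.prod_congr rfl
  intro p _
  rw [MT_half]

lemma abs_ZG_cT_le : |ZG G cT| ≤ GI G 1 (fun _ => 1) := by
  unfold ZG GI
  rw [← Real.norm_eq_abs]
  refine (norm_integral_le_integral_norm _).trans ?_
  apply integral_mono (integrable_cont (continuous_prodE G continuous_cT)).norm
    (GI_int G 1 continuous_const)
  intro x
  simp only [Real.norm_eq_abs, one_mul]
  rw [Finset.abs_prod]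
  unfold HG sE
  rw [← Finset.sum_neg_distrib, exp_sum]
  exact Finset.prod_le_prod (fun _ _ => abs_nonneg _) (fun p _ => abs_cT_le _)

/-- Jensen's inequality for the quartic term. -/
lemma jensen_quartic {a : ℝ} (h : a * GI G 1 (fun _ => 1) ≤
      GI G 1 (fun x => ∑ p ∈ Edg G, yT (x p.1 - x p.2) ^ 2 / 8)) :
    exp a * GI G 1 (fun _ => 1) ≤ ZG G (MT (1 / 2)) := by
  set X : (V → TT) → ℝ := fun x => ∑ p ∈ Edg G, yT (x p.1 - x p.2) ^ 2 / 8 with hX
  have cX : Continuous X := by
    rw [hX]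
    refine continuous_finsetSum _ fun p _ => ?_
    have : Continuous (fun x : V → TT => yT (x p.1 - x p.2)) :=
      continuous_yT.comp ((continuous_apply p.1).sub (continuous_apply p.2))
    fun_prop
  have h1 : ZG G (MT (1 / 2)) = GI G 1 (fun x => exp (X x)) := by
    rw [← GI_zero_eq]
    unfold GI
    congr 1
    funext x
    rw [one_mul, ← exp_add]
    congr 1
    have h2 : HG G 1 x = HG G 0 x + X x := by
      rw [hX]
      unfold HG sE
      rw [← Finset.sum_add_distrib]
      apply Finset.sum_congr rfl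
      intro p _
      unfold hW
      ring
    rw [h2]
    ring
  rw [h1]
  have h2 : GI G 1 (fun x => exp a * ((1 - a) + X x)) ≤ GI G 1 (fun x => exp (X x)) := by
    apply GI_mono G 1 (by fun_prop) (by fun_prop)
    intro x
    have h3 := add_one_le_exp (X x - a)
    have h4 : exp (X x) = exp a * exp (X x - a) := by
      rw [← exp_add]; congr 1; ring
    rw [h4]
    apply mul_le_mul_of_nonneg_left _ (exp_pos _).le
    linarith
  refine le_trans ?_ h2
  rw [GI_mul, GI_add G 1 continuous_const cX]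
  have h5 : GI G 1 (fun _ => 1 - a) = (1 - a) * GI G 1 (fun _ => 1) := by
    have := GI_mul G 1 (1 - a) (fun _ => 1)
    simpa using this
  rw [h5]
  apply mul_le_mul_of_nonneg_left _ (exp_pos _).le
  linarith

/-- Eulerian orientations are bounded by the majorant integral with the quartic gain. -/
theorem EO_le_ZG {δ Δ : ℝ} (hδ : 1 ≤ δ) (hΔ : Δ ≤ 2 * δ)
    (h1 : ∀ v, δ ≤ (G.degree v : ℝ)) (h2 : ∀ v, (G.degree v : ℝ) ≤ Δ) :
    (EO V G : ℝ) ≤ 2 ^ (Edg G).card * (exp (-(∑ v, 1 / ((G.degree v : ℝ) + 1) *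
      (3 / 4 - 9 / 8 * (1 - δ / Δ) ^ 2 - 1600000 / δ))) * ZG G (MT (1 / 2))) := by
  have h3 := quartic_bound G hδ hΔ h1 h2
  have h4 := jensen_quartic G h3
  set a := ∑ v, 1 / ((G.degree v : ℝ) + 1) *
      (3 / 4 - 9 / 8 * (1 - δ / Δ) ^ 2 - 1600000 / δ) with ha
  rw [EO_eq_integral G]
  apply mul_le_mul_of_nonneg_left _ (by positivity)
  refine ((le_abs_self _).trans (abs_ZG_cT_le G)).trans ?_
  have h5 : GI G 1 (fun _ => 1) = exp (-a) * (exp a * GI G 1 (fun _ => 1)) := by
    rw [← mul_assoc, ← exp_add, neg_add_cancel, exp_zero, one_mul]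
  rw [h5]
  exact mul_le_mul_of_nonneg_left h4 (exp_pos _).le

end Upper

end Pool.Agent.MP_a3e05c_co
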